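import Pool.Agent.H71MX.Tr

/-! # Restriction of a section to a finite extension of the ground field -/

set_option autoImplicit false
set_option linter.style.haveILetI false

namespace Pool.Agent.H71MX

open Pool.Agent.H59.SCT

variable {k E Ω : Type} [Field k] [Field E] [Field Ω] [Algebra k E] [Algebra k Ω] [Algebra E Ω]

/-- the same field over a different ground field -/
def overF {F : IntermediateField k Ω} (N : IntermediateField F Ω) (F' : IntermediateField E Ω)
    (h : ∀ z ∈ F', z ∈ N) : IntermediateField F' Ω where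
  toSubalgebra :=
    { carrier := N
      mul_mem' := fun ha hb => mul_mem ha hb
      add_mem' := fun ha hb => add_mem ha hb
      algebraMap_mem' := fun r => h _ r.2 }
  inv_mem' := fun _ ha => inv_mem ha

variable {F : IntermediateField k Ω} {N : IntermediateField F Ω} {F' : IntermediateField E Ω}
  {h : ∀ z ∈ F', z ∈ N}

/-- the identity -/
def overEquiv (N : IntermediateField F Ω) (F' : IntermediateField E Ω)
    (h : ∀ z ∈ F', z ∈ N) : N ≃+* overF N F' h where
  toFun z := ⟨z.1, z.2⟩
  invFun z := ⟨z.1, z.2⟩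
  left_inv _ := rfl
  right_inv _ := rfl
  map_mul' _ _ := rfl
  map_add' _ _ := rfl

theorem overEquiv_coe (z : N) : ((overEquiv N F' h z : overF N F' h) : Ω) = z := rfl

/-- the automorphism of the same field -/
def overAut (τ : N ≃ₐ[F] N) (hτ : ∀ z : N, (z : Ω) ∈ F' → τ z = z) :
    overF N F' h ≃ₐ[F'] overF N F' h :=
  AlgEquiv.ofRingEquiv
    (f := (overEquiv N F' h).symm.trans ((τ : N ≃+* N).trans (overEquiv N F' h)))
    (fun r => by
      have h1 : (overEquiv N F' h).symm (algebraMap F' (overF N F' h) r) = ⟨(r : Ω), h _ r.2⟩ := rfl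
      change overEquiv N F' h (τ ((overEquiv N F' h).symm (algebraMap F' (overF N F' h) r))) = _
      rw [h1, hτ _ r.2]
      rfl)

theorem overAut_apply (τ : N ≃ₐ[F] N) (hτ : ∀ z : N, (z : Ω) ∈ F' → τ z = z) (z : N) :
    overAut (h := h) τ hτ (overEquiv N F' h z) = overEquiv N F' h (τ z) := rfl

/-- the algebraic closures of `k` and `E` in `Ω` -/
theorem closure_iff [IsScalarTower k E Ω] [Algebra.IsAlgebraic k E] (z : Ω) :
    z ∈ algebraicClosure k Ω ↔ z ∈ algebraicClosure E Ω := by
  rw [mem_algebraicClosure_iff, mem_algebraicClosure_iff]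
  constructor
  · exact fun h => h.extendScalars (algebraMap k E).injective
  · intro h
    exact h.restrictScalars k

/-- the identity of the closures -/
def closureEquiv (k E Ω : Type) [Field k] [Field E] [Field Ω] [Algebra k E] [Algebra k Ω]
    [Algebra E Ω] [IsScalarTower k E Ω] [Algebra.IsAlgebraic k E] :
    algebraicClosure k Ω ≃+* algebraicClosure E Ω where
  toFun z := ⟨z.1, (closure_iff z.1).1 z.2⟩
  invFun z := ⟨z.1, (closure_iff z.1).2 z.2⟩
  left_inv _ := rfl
  right_inv _ := rfl
  map_mul' _ _ := rfl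
  map_add' _ _ := rfl

/-- the inclusion of the Galois groups -/
def galIncl (k E Ω : Type) [Field k] [Field E] [Field Ω] [Algebra k E] [Algebra k Ω]
    [Algebra E Ω] [IsScalarTower k E Ω] [Algebra.IsAlgebraic k E] :
    (algebraicClosure E Ω ≃ₐ[E] algebraicClosure E Ω) →*
      (algebraicClosure k Ω ≃ₐ[k] algebraicClosure k Ω) where
  toFun σ := AlgEquiv.ofRingEquiv
    (f := (closureEquiv k E Ω).trans ((σ : algebraicClosure E Ω ≃+* algebraicClosure E Ω).trans
      (closureEquiv k E Ω).symm))
    (fun r => by
      have h1 : closureEquiv k E Ω (algebraMap k (algebraicClosure k Ω) r) =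
          algebraMap E (algebraicClosure E Ω) (algebraMap k E r) := by
        apply Subtype.ext
        exact IsScalarTower.algebraMap_apply k E Ω r
      change (closureEquiv k E Ω).symm (σ (closureEquiv k E Ω
        (algebraMap k (algebraicClosure k Ω) r))) = _
      rw [h1, σ.commutes, ← h1]
      rfl)
  map_one' := rfl
  map_mul' _ _ := rfl

theorem galIncl_apply [IsScalarTower k E Ω] [Algebra.IsAlgebraic k E]
    (σ : algebraicClosure E Ω ≃ₐ[E] algebraicClosure E Ω) (c : algebraicClosure k Ω) :
    galIncl k E Ω σ c = (closureEquiv k E Ω).symm (σ (closureEquiv k E Ω c)) := rfl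

/-- the automorphisms that fix `E` -/
theorem galIncl_surj [IsScalarTower k E Ω] [Algebra.IsAlgebraic k E]
    (σ : algebraicClosure k Ω ≃ₐ[k] algebraicClosure k Ω)
    (hσ : ∀ (c : E) (c' : algebraicClosure k Ω), (c' : Ω) = algebraMap E Ω c → σ c' = c') :
    ∃ σ' : algebraicClosure E Ω ≃ₐ[E] algebraicClosure E Ω, galIncl k E Ω σ' = σ := by
  refine ⟨AlgEquiv.ofRingEquiv (f := (closureEquiv k E Ω).symm.trans
    ((σ : algebraicClosure k Ω ≃+* algebraicClosure k Ω).trans (closureEquiv k E Ω)))
    (fun r => ?_), ?_⟩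
  · change closureEquiv k E Ω (σ ((closureEquiv k E Ω).symm
      (algebraMap E (algebraicClosure E Ω) r))) = _
    rw [hσ r ((closureEquiv k E Ω).symm (algebraMap E (algebraicClosure E Ω) r)) rfl]
    rfl
  · ext c
    rfl

/-- **restriction of the section** -/
theorem baseChange [IsScalarTower k E Ω] [Algebra.IsAlgebraic k E] [Algebra.IsAlgebraic F Ω]
    (s : Splitting F N)
    (hs : ∀ σ : algebraicClosure k Ω ≃ₐ[k] algebraicClosure k Ω,
      (∀ (c : E) (c' : algebraicClosure k Ω), (c' : Ω) = algebraMap E Ω c → σ c' = c') →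
      ∀ z : N, (z : Ω) ∈ F' → s.toHom σ z = z) :
    ∃ s' : Splitting F' (overF N F' h), ∀ σ (z : N),
      s'.toHom σ (overEquiv N F' h z) = overEquiv N F' h (s.toHom (galIncl k E Ω σ) z) := by
  classical
  have hfixE : ∀ σ : algebraicClosure E Ω ≃ₐ[E] algebraicClosure E Ω,
      ∀ (c : E) (c' : algebraicClosure k Ω), (c' : Ω) = algebraMap E Ω c →
        galIncl k E Ω σ c' = c' := by
    intro σ c c' hc
    have h1 : closureEquiv k E Ω c' = algebraMap E (algebraicClosure E Ω) c := Subtype.ext hc
    rw [galIncl_apply, h1, σ.commutes, ← h1, RingEquiv.symm_apply_apply]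
  let T : (algebraicClosure E Ω ≃ₐ[E] algebraicClosure E Ω) →*
      (overF N F' h ≃ₐ[F'] overF N F' h) :=
    { toFun := fun σ => overAut (h := h) (s.toHom (galIncl k E Ω σ)) (hs _ (hfixE σ))
      map_one' := by
        ext z
        obtain ⟨z, rfl⟩ := (overEquiv N F' h).surjective z
        rw [overAut_apply, map_one, map_one]
        rfl
      map_mul' := fun σ τ => by
        ext z
        obtain ⟨z, rfl⟩ := (overEquiv N F' h).surjective z
        rw [AlgEquiv.mul_apply, overAut_apply, overAut_apply, overAut_apply, map_mul, map_mul,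
          AlgEquiv.mul_apply] }
  have hT : ∀ σ (z : N), T σ (overEquiv N F' h z) =
      overEquiv N F' h (s.toHom (galIncl k E Ω σ) z) := fun σ z => rfl
  refine ⟨⟨T, ?_, fun σ c z hz => ?_⟩, fun σ z => hT σ z⟩
  · refine continuous_of_continuousAt_one T ?_
    rw [ContinuousAt, map_one]
    intro U hU
    rw [krullTopology_mem_nhds_one_iff] at hU
    obtain ⟨L, hL, hLU⟩ := hU
    haveI := hL
    let bs := Module.finBasis F' L
    -- the corresponding finite extension of `F`
    let w : Fin (Module.finrank F' L) → N := fun i => (overEquiv N F' h).symm (bs i : overF N F' h)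
    let E₀ : IntermediateField F N := IntermediateField.adjoin F (Set.range w)
    haveI : Algebra.IsAlgebraic F N := inferInstance
    haveI hE₀ : FiniteDimensional F E₀ := by
      refine IntermediateField.finiteDimensional_adjoin fun z _ => ?_
      exact (Algebra.IsAlgebraic.isAlgebraic z).isIntegral
    have hopen : (E₀.fixingSubgroup : Set (N ≃ₐ[F] N)) ∈ nhds (1 : N ≃ₐ[F] N) := by
      rw [krullTopology_mem_nhds_one_iff]
      exact ⟨E₀, hE₀, le_refl _⟩
    have hpre : s.toHom ⁻¹' (E₀.fixingSubgroup : Set (N ≃ₐ[F] N)) ∈ nhds 1 := by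
      apply s.cont.continuousAt.preimage_mem_nhds
      rw [map_one]
      exact hopen
    rw [krullTopology_mem_nhds_one_iff] at hpre
    obtain ⟨K₀, hK₀, hK₀s⟩ := hpre
    haveI := hK₀
    let bk := Module.finBasis k K₀
    let K₁ : IntermediateField E (algebraicClosure E Ω) := IntermediateField.adjoin E
      (Set.range fun i => closureEquiv k E Ω (bk i : algebraicClosure k Ω))
    haveI hK₁ : FiniteDimensional E K₁ := by
      refine IntermediateField.finiteDimensional_adjoin fun z _ => ?_
      exact (Algebra.IsAlgebraic.isAlgebraic z).isIntegral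
    have hsub : ∀ z : K₀, closureEquiv k E Ω (z : algebraicClosure k Ω) ∈ K₁ := by
      intro z
      have h2 : z = ∑ i, bk.repr z i • bk i := (bk.sum_repr _).symm
      have h3 : (z : algebraicClosure k Ω) =
          ∑ i, algebraMap k (algebraicClosure k Ω) (bk.repr z i) *
            (bk i : algebraicClosure k Ω) := by
        have h4 := congrArg K₀.val h2
        rw [map_sum] at h4
        refine h4.trans (Finset.sum_congr rfl fun i _ => ?_)
        rw [map_smul, Algebra.smul_def]
        rfl
      rw [h3, map_sum]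
      refine sum_mem fun i _ => ?_
      rw [map_mul]
      refine mul_mem ?_ (IntermediateField.subset_adjoin _ _ ⟨i, rfl⟩)
      have h1 : closureEquiv k E Ω (algebraMap k (algebraicClosure k Ω) (bk.repr z i)) =
          algebraMap E (algebraicClosure E Ω) (algebraMap k E (bk.repr z i)) := by
        apply Subtype.ext
        exact IsScalarTower.algebraMap_apply k E Ω _
      rw [h1]
      exact K₁.algebraMap_mem _
    have hopen1 : (K₁.fixingSubgroup : Set (algebraicClosure E Ω ≃ₐ[E] algebraicClosure E Ω)) ∈
        nhds 1 := by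
      rw [krullTopology_mem_nhds_one_iff]
      exact ⟨K₁, hK₁, le_refl _⟩
    rw [Filter.mem_map]
    refine Filter.mem_of_superset hopen1 fun σ hσ => Set.mem_preimage.2 (hLU ?_)
    rw [SetLike.mem_coe, IntermediateField.mem_fixingSubgroup_iff] at hσ
    have hσ₁ : galIncl k E Ω σ ∈ K₀.fixingSubgroup := by
      rw [IntermediateField.mem_fixingSubgroup_iff]
      intro z hz
      rw [galIncl_apply, hσ _ (hsub ⟨z, hz⟩), RingEquiv.symm_apply_apply]
    have hσ₂ := hK₀s hσ₁
    rw [Set.mem_preimage, SetLike.mem_coe, IntermediateField.mem_fixingSubgroup_iff] at hσ₂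
    rw [SetLike.mem_coe, IntermediateField.mem_fixingSubgroup_iff]
    intro z hz
    have hfix : ∀ i, T σ (bs i : overF N F' h) = (bs i : overF N F' h) := by
      intro i
      have h5 : (bs i : overF N F' h) = overEquiv N F' h (w i) := rfl
      rw [h5, hT, hσ₂ (w i) (IntermediateField.subset_adjoin _ _ ⟨i, rfl⟩)]
    have h2 : (⟨z, hz⟩ : L) = ∑ i, bs.repr ⟨z, hz⟩ i • bs i := (bs.sum_repr _).symm
    have h3 : z = ∑ i, bs.repr ⟨z, hz⟩ i • (bs i : overF N F' h) := by
      have h4 : L.val ⟨z, hz⟩ = L.val (∑ i, bs.repr ⟨z, hz⟩ i • bs i) := congrArg L.val h2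
      rw [map_sum] at h4
      refine h4.trans (Finset.sum_congr rfl fun i _ => ?_)
      rw [map_smul]
      rfl
    rw [h3, map_sum]
    refine Finset.sum_congr rfl fun i _ => ?_
    rw [map_smul, hfix]
  · obtain ⟨z, rfl⟩ := (overEquiv N F' h).surjective z
    rw [hT]
    have h1 := s.compat (galIncl k E Ω σ) ((closureEquiv k E Ω).symm c) z hz
    refine h1.trans ?_
    rw [galIncl_apply, RingEquiv.apply_symm_apply]
    rfl

end Pool.Agent.H71MX
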