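import Pool.Agent.H59.SCT.Clo2

/-! # The field of the geometrically pro-`ℓ` fundamental group of an intermediate field -/

set_option autoImplicit false
set_option linter.style.haveILetI false

open Polynomial

namespace Pool.Agent.H71MX

open Pool.Agent.H59.SCT Pool.Agent.Y157.PS Pool.Agent.Y948.PS

section general

variable {κ R Ω : Type} [Field κ] [Field R] [Field Ω] [Algebra κ R] [Algebra R Ω] [Algebra κ Ω]
  [IsScalarTower κ R Ω]

/-- **the closure of `M`** -/
theorem maxPro_gen [CharZero κ] [IsAlgClosed κ] {ℓ : ℕ} [Fact ℓ.Prime] [Algebra.IsAlgebraic R Ω]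
    [Normal R Ω] {x : R} (hx : RatF κ x) (K0 : IntermediateField R Ω)
    (hK : ∀ (γ : Ω ≃ₐ[R] Ω), ∀ t ∈ K0, γ t ∈ K0) (hle : K0 ≤ MF ℓ κ K0)
    (hU : HU κ K0) (K1 : IntermediateField R Ω) (hK1 : K1 ≤ MF ℓ κ K0)
    (hexp : ∃ a : ℕ, ∀ σ : Ω ≃ₐ[R] Ω, ∀ t ∈ K1, (σ ^ (ℓ ^ a)) t = t)
    (hun : ∀ W : ValuationSubring Ω, (∀ c : κ, algebraMap κ Ω c ∈ W) →
      ∀ z ∈ MF ℓ κ K0, z ≠ 0 → ∃ t ∈ K1, t ≠ 0 ∧ W.valuation z = W.valuation t) (z : Ω) :
    z ∈ maxPro ℓ κ K1 Ω ↔ z ∈ MF ℓ κ K0 := by
  -- uniformisers of `K1`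
  have hU1 : ∀ W : ValuationSubring Ω, (∀ c : κ, algebraMap κ Ω c ∈ W) → W ≠ ⊤ →
      ∃ π π₁, Unf K0 W π ∧ Unf K1 W π₁ ∧ W.valuation π = W.valuation π₁ := by
    intro W hκ hW
    obtain ⟨π, hπ⟩ := hU W hκ hW
    obtain ⟨π₁, h1, h2, h3⟩ := hun W hκ π (hle hπ.mem) hπ.ne
    refine ⟨π, π₁, hπ, ⟨h1, h2, h3 ▸ hπ.lt, fun w hw hw0 => ?_⟩, h3⟩
    obtain ⟨n, hn⟩ := (((mem_MF).1 (hK1 hw)).2 W hκ hW).val' hπ hw0
    exact ⟨n, by rw [hn, h3]⟩
  constructor
  · intro hz
    let MK : IntermediateField K1 Ω :=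
      { (MF ℓ κ K0).toSubfield with
        algebraMap_mem' := fun r => hK1 r.2
        inv_mem' := fun a ha => (MF ℓ κ K0).inv_mem ha }
    have hle' : maxPro ℓ κ K1 Ω ≤ MK := by
      refine iSup_le ?_
      rintro ⟨L, hL, hLu⟩ y hy
      change Mem ℓ κ K0 y
      constructor
      · obtain ⟨a, ha⟩ := hL.card
        obtain ⟨b, hb⟩ := hexp
        haveI := hL.fin
        haveI := hL.gal
        refine ⟨b + a, fun σ γ => ?_⟩
        set τ : Ω ≃ₐ[R] Ω := γ⁻¹ * σ * γ with hτ
        have h2 : τ ^ (ℓ ^ b) ∈ K1.fixingSubgroup := by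
          rw [IntermediateField.mem_fixingSubgroup_iff]
          intro t ht
          exact hb τ t ht
        let τ' : Ω ≃ₐ[K1] Ω := IntermediateField.fixingSubgroupEquiv K1 ⟨τ ^ (ℓ ^ b), h2⟩
        have h3 : ∀ (j : ℕ) (w : Ω), (τ' ^ j) w = ((τ ^ (ℓ ^ b)) ^ j) w := by
          intro j
          induction j with
          | zero => intro w; simp
          | succ j ih =>
            intro w
            rw [pow_succ, AlgEquiv.mul_apply, ih, pow_succ, AlgEquiv.mul_apply]
            rfl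
        have h4 : (AlgEquiv.restrictNormalHom L τ') ^ (ℓ ^ a) = 1 := by
          rw [← ha, ← IsGalois.card_aut_eq_finrank]
          exact pow_card_eq_one'
        rw [← map_pow] at h4
        have h5 : (τ' ^ (ℓ ^ a)) y = y := by
          have := AlgEquiv.restrictNormal_commutes (τ' ^ (ℓ ^ a)) L ⟨y, hy⟩
          have h6 : (τ' ^ (ℓ ^ a)).restrictNormal L = 1 := h4
          rw [h6] at this
          exact this.symm
        rw [h3, ← pow_mul, ← pow_add] at h5
        have h7 : γ⁻¹ * σ ^ (ℓ ^ (b + a)) * γ = τ ^ (ℓ ^ (b + a)) := by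
          rw [hτ]
          have := conj_pow (i := ℓ ^ (b + a)) (a := γ⁻¹) (b := σ)
          rw [inv_inv] at this
          exact this.symm
        rw [← h7] at h5
        have h8 : γ (γ⁻¹ ((σ ^ (ℓ ^ (b + a))) (γ y))) = γ y := by
          congr 1
        have h9 : ∀ w, γ (γ⁻¹ w) = w := fun w => by
          rw [← AlgEquiv.mul_apply, mul_inv_cancel, AlgEquiv.one_apply]
        rwa [h9] at h8
      · intro W hκ hW
        obtain ⟨π, π₁, hπ, hπ₁, hππ⟩ := hU1 W hκ hW
        have h1 : Apx K1 W y := by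
          refine Apx.of_unr hπ₁ (hres hx K1 W hκ hW) L.toSubfield
            (fun t ht => L.algebraMap_mem ⟨t, ht⟩) ?_ hy
          intro w hw hw0
          obtain ⟨t, ht0, ht⟩ := hLu W hκ w hw hw0
          have ht0' : (t : Ω) ≠ 0 := by simpa using ht0
          refine ⟨t, t.2, ht0', ?_⟩
          have h1 := (isU_iff W).1 ht
          have h2 : algebraMap K1 Ω t = (t : Ω) := rfl
          rw [h2, map_div₀] at h1
          rwa [div_eq_one_iff_eq] at h1
          exact ((Valuation.pos_iff _).2 ht0').ne'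
        intro s hs hs0
        obtain ⟨s', hs', hs0', hss⟩ := hun W hκ s (hle hs) hs0
        obtain ⟨t, ht, ht1⟩ := h1 s' hs' hs0'
        obtain ⟨t', ht', ht1'⟩ := ((mem_MF).1 (hK1 ht)).2 W hκ hW s hs hs0
        refine ⟨t', ht', ?_⟩
        have h10 : y - t' = (y - t) + (t - t') := by ring
        rw [h10]
        refine (Valuation.map_add _ _ _).trans (max_le ?_ ht1')
        rw [hss]
        exact ht1
    exact hle' hz
  · intro hz
    haveI : CharZero K1 := charZero_of_injective_algebraMap (algebraMap κ K1).injective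
    haveI : Normal K1 Ω := Normal.tower_top_of_normal R K1 Ω
    let S : IntermediateField K1 Ω := IntermediateField.extendScalars hK1
    have hS : ∀ y, y ∈ S ↔ Mem ℓ κ K0 y := fun y => IntermediateField.mem_extendScalars hK1
    have hres' : ∀ (σ : Ω ≃ₐ[K1] Ω) (j : ℕ) (w : Ω),
        (σ ^ j) w = ((σ.restrictScalars R) ^ j) w := by
      intro σ j
      induction j with
      | zero => intro w; simp
      | succ j ih =>
        intro w
        rw [pow_succ, AlgEquiv.mul_apply, ih, pow_succ, AlgEquiv.mul_apply]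
        rfl
    obtain ⟨N, hzN, hNS, hN⟩ := exists_lev (ℓ := ℓ) S
      (fun σ y hy => (hS _).2 (((hS y).1 hy).conj hK (σ.restrictScalars R)))
      (fun θ hθ σ => by
        obtain ⟨k, hk⟩ := ((hS θ).1 hθ).1
        refine ⟨k, ?_⟩
        rw [hres']
        exact hk (σ.restrictScalars R) 1)
      ((hS z).2 hz)
    have hNu : Unr κ K1 Ω N := by
      intro W hκ w hw hw0
      obtain ⟨t, ht, ht0, h1⟩ := hun W hκ w ((hS w).1 (hNS hw)) hw0
      refine ⟨⟨t, ht⟩, fun h => ht0 (congrArg Subtype.val h), ?_⟩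
      rw [isU_iff]
      have h2 : algebraMap K1 Ω ⟨t, ht⟩ = t := rfl
      rw [h2, map_div₀, h1, div_self]
      exact ((Valuation.pos_iff _).2 ht0).ne'
    have h3 : N ≤ maxPro ℓ κ K1 Ω :=
      le_iSup (fun L : {L : IntermediateField K1 Ω // Lev ℓ L ∧ Unr κ K1 Ω L} => L.1) ⟨N, hN, hNu⟩
    exact h3 hzN

end general

section

variable {k Ω : Type} [Field k] [CharZero k] [Field Ω] [Algebra k Ω] [IsAlgClosed Ω]

omit [CharZero k] in
/-- `Ω` is an algebraic closure of `κ(x)` -/
theorem closure_line {x : Ω} (halg : Algebra.IsAlgebraic (IntermediateField.adjoin k {x}) Ω) :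
    IsAlgClosure (IntermediateField.adjoin (algebraicClosure k Ω) {x}) Ω := by
  refine ⟨inferInstance, ?_⟩
  have hle : ∀ z ∈ IntermediateField.adjoin k {x},
      z ∈ (IntermediateField.adjoin (algebraicClosure k Ω) {x}).toSubfield := by
    refine adjoin_le_sub ?_ ?_
    · intro c
      exact (IntermediateField.adjoin (algebraicClosure k Ω) {x}).algebraMap_mem
        (algebraMap k (algebraicClosure k Ω) c)
    · intro w hw
      rw [Set.mem_singleton_iff] at hw
      rw [hw]
      exact IntermediateField.mem_adjoin_simple_self _ _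
  constructor
  intro z
  obtain ⟨p, hp, hpz⟩ := halg.isAlgebraic z
  let i : IntermediateField.adjoin k {x} →+* IntermediateField.adjoin (algebraicClosure k Ω) {x} :=
    (algebraMap (IntermediateField.adjoin k {x}) Ω).codRestrict
      (IntermediateField.adjoin (algebraicClosure k Ω) {x}).toSubfield (fun z => hle z z.2)
  refine ⟨p.map i, (Polynomial.map_ne_zero_iff i.injective).2 hp, ?_⟩
  rw [Polynomial.aeval_def, Polynomial.eval₂_map]
  have h1 : (algebraMap (IntermediateField.adjoin (algebraicClosure k Ω) {x}) Ω).comp i =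
    algebraMap (IntermediateField.adjoin k {x}) Ω := rfl
  rw [h1]
  exact hpz

omit [CharZero k] [IsAlgClosed Ω] in
/-- elements whose conjugates have the same exponent -/
theorem exp_geom {ℓ : ℕ} {R : Type} [Field R] [Algebra R Ω] [Algebra (algebraicClosure k Ω) R]
    [IsScalarTower (algebraicClosure k Ω) R Ω] (F : IntermediateField k Ω) (hFG : F.FG)
    (hF : ∀ z ∈ F, Pro ℓ R z) :
    ∃ a : ℕ, ∀ σ : Ω ≃ₐ[R] Ω, ∀ t ∈ geom F, (σ ^ (ℓ ^ a)) t = t := by
  classical
  obtain ⟨S, hS⟩ := hFG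
  have h1 : ∀ s ∈ S, ∃ a : ℕ, ∀ σ : Ω ≃ₐ[R] Ω, (σ ^ (ℓ ^ a)) s = s := by
    intro s hs
    have h2 : s ∈ F := by rw [← hS]; exact IntermediateField.subset_adjoin _ _ hs
    obtain ⟨a, ha⟩ := hF s h2
    exact ⟨a, fun σ => ha σ 1⟩
  choose! a ha using h1
  refine ⟨S.sup a, fun σ t ht => ?_⟩
  set τ := σ ^ (ℓ ^ (S.sup a)) with hτ
  have h2 : ∀ s ∈ S, τ s = s := by
    intro s hs
    obtain ⟨j, hj⟩ := Nat.exists_eq_add_of_le (Finset.le_sup (f := a) hs)
    have h3 := ha s hs (σ ^ (ℓ ^ j))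
    rw [← pow_mul, ← pow_add, add_comm, ← hj] at h3
    exact h3
  have h3 : ∀ c : algebraicClosure k Ω, τ (c : Ω) = c := by
    intro c
    have h5 : (c : Ω) = algebraMap R Ω (algebraMap (algebraicClosure k Ω) R c) := by
      rw [← IsScalarTower.algebraMap_apply]
      rfl
    rw [h5]
    exact τ.commutes _
  let Fx : IntermediateField k Ω :=
    { carrier := {z | τ z = z}
      mul_mem' := fun {a b} ha hb => by
        change _ = _ at ha hb
        change _ = _
        rw [map_mul, ha, hb]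
      add_mem' := fun {a b} ha hb => by
        change _ = _ at ha hb
        change _ = _
        rw [map_add, ha, hb]
      algebraMap_mem' := fun r => h3 (algebraMap k _ r)
      inv_mem' := fun a ha => by
        change _ = _ at ha
        change _ = _
        rw [map_inv₀, ha] }
  have h4 : geom F ≤ Fx := by
    refine sup_le ?_ fun c hc => h3 ⟨c, hc⟩
    rw [← hS, IntermediateField.adjoin_le_iff]
    exact fun s hs => h2 s hs
  exact h4 ht

/-- **the maximal unramified pro-`ℓ` extension of `k̄ F` is `M`**, mixed ramification -/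
theorem proEll_mix {ℓ j : ℕ} [Fact ℓ.Prime] {t x y : Ω} (ht : t ^ (ℓ ^ j) = x)
    (hx : Transcendental k x)
    (halg : Algebra.IsAlgebraic (IntermediateField.adjoin k {x}) Ω) (P : k[X])
    (hP : (expand k (ℓ ^ j) P).Separable) (hdvd : ℓ ∣ (expand k (ℓ ^ j) P).natDegree)
    (hP0 : 0 < (expand k (ℓ ^ j) P).natDegree)
    (hy : y ^ ℓ = aeval x P) (F : IntermediateField k Ω) (hxF : x ∈ F) (hFG : F.FG)
    (hF : F ≤ proEll ℓ (IntermediateField.adjoin k {t, y}))
    (hun : UnramifiedOver (geom F) (proEll ℓ (IntermediateField.adjoin k {t, y}))) :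
    proEll ℓ F = proEll ℓ (IntermediateField.adjoin k {t, y}) := by
  classical
  have hp := (Fact.out : ℓ.Prime).pos
  have hℓ0 : ℓ ≠ 0 := hp.ne'
  have hm : 0 < ℓ ^ j := pow_pos hp j
  set F₁ := IntermediateField.adjoin k {t, y} with hF₁
  have htF₁ : t ∈ F₁ := IntermediateField.subset_adjoin _ _ (by simp)
  have hyF₁ : y ∈ F₁ := IntermediateField.subset_adjoin _ _ (by simp)
  have hxF₁ : x ∈ F₁ := by rw [← ht]; exact pow_mem htF₁ _
  -- the constants
  haveI hacl : IsAlgClosure k (algebraicClosure k Ω) := inferInstance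
  haveI hclκ : IsAlgClosed (algebraicClosure k Ω) := hacl.isAlgClosed
  haveI : CharZero (algebraicClosure k Ω) :=
    charZero_of_injective_algebraMap (algebraMap k (algebraicClosure k Ω)).injective
  set Q := expand k (ℓ ^ j) P with hQdef
  have hyQ : y ^ ℓ = aeval t Q := by
    rw [hy, hQdef, expand_aeval, ht]
  have htr : Transcendental k t := by
    intro h
    apply hx
    rw [← ht]
    exact h.pow _
  have hPne : Q ≠ 0 := fun h => by simp [h] at hP0
  have hc : Q.leadingCoeff ≠ 0 := leadingCoeff_ne_zero.2 hPne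
  obtain ⟨δ, hδ⟩ := IsAlgClosed.exists_pow_nat_eq
    (algebraMap k (algebraicClosure k Ω) Q.leadingCoeff)⁻¹ hp
  have hδ0 : δ ≠ 0 := by
    rintro rfl
    rw [zero_pow hℓ0] at hδ
    exact (inv_ne_zero ((_root_.map_ne_zero _).2 hc)) hδ.symm
  have hδΩ : (δ : Ω) ≠ 0 := fun h => hδ0 (Subtype.ext h)
  -- `κ(x)` and `κ(t)`
  let R := IntermediateField.adjoin (algebraicClosure k Ω) {x}
  let xR : R := ⟨x, IntermediateField.mem_adjoin_simple_self _ _⟩
  have hrat : RatF (algebraicClosure k Ω) xR := ratF_adj (trans_up hx)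
  haveI hclR : IsAlgClosure R Ω := closure_line halg
  haveI : Algebra.IsAlgebraic R Ω := hclR.isAlgebraic
  haveI : Normal R Ω := IsAlgClosure.normal R Ω
  let R' := IntermediateField.adjoin (algebraicClosure k Ω) {t}
  let tR : R' := ⟨t, IntermediateField.mem_adjoin_simple_self _ _⟩
  have hrat' : RatF (algebraicClosure k Ω) tR := ratF_adj (trans_up htr)
  have hxt : x ∈ IntermediateField.adjoin k {t} := by
    rw [← ht]
    exact pow_mem (IntermediateField.mem_adjoin_simple_self k _) _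
  haveI hclR' : IsAlgClosure R' Ω := closure_line (alg_over halg _ hxt)
  haveI : Algebra.IsAlgebraic R' Ω := hclR'.isAlgebraic
  let Pk : (algebraicClosure k Ω)[X] := Q.map (algebraMap k (algebraicClosure k Ω))
  have hPk : Pk.Separable := hP.map
  have hPk0 : Pk ≠ 0 := (Polynomial.map_ne_zero_iff (algebraMap k _).injective).2 hPne
  let B : Finset (algebraicClosure k Ω) := Pk.roots.toFinset
  have hnd : Pk.roots.Nodup := nodup_roots hPk
  have hBc : B.card = Q.natDegree := by
    rw [Multiset.toFinset_card_of_nodup hnd, IsAlgClosed.card_roots_eq_natDegree, natDegree_map]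
  have hprod : Pk = C Pk.leadingCoeff * ∏ e ∈ B, (X - C e) := by
    have h1 := IsAlgClosed.splits Pk
    have h2 := h1.eq_prod_roots
    rw [Finset.prod_multiset_map_count] at h2
    conv_lhs => rw [h2]
    congr 1
    refine Finset.prod_congr rfl fun e he => ?_
    rw [Multiset.count_eq_one_of_mem hnd (Multiset.mem_toFinset.1 he), pow_one]
  have hY : ((δ : Ω) * y) ^ ℓ = ∏ e ∈ B, (algebraMap R' Ω tR -
      algebraMap (algebraicClosure k Ω) Ω e) := by
    have h1 : aeval t Q = aeval t Pk := (aeval_map_algebraMap _ t Q).symm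
    have h2 : (δ : Ω) ^ ℓ = (algebraMap k Ω Q.leadingCoeff)⁻¹ := by
      have := congrArg (fun z : algebraicClosure k Ω => (z : Ω)) hδ
      exact this
    have h3 : Pk.leadingCoeff = algebraMap k (algebraicClosure k Ω) Q.leadingCoeff :=
      leadingCoeff_map _
    rw [mul_pow, hyQ, h2, h1]
    conv_lhs => rw [hprod]
    rw [map_mul, aeval_C, h3, map_prod, ← IsScalarTower.algebraMap_apply, ← mul_assoc,
      inv_mul_cancel₀ ((_root_.map_ne_zero _).2 hc), one_mul]
    refine Finset.prod_congr rfl fun e _ => ?_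
    rw [map_sub, aeval_X, aeval_C]
    rfl
  have hBne : B.Nonempty := by
    rw [← Finset.card_pos, hBc]
    exact hP0
  have hHU' : HU (algebraicClosure k Ω) (IntermediateField.adjoin R' {(δ : Ω) * y}) :=
    hu_K0 hrat' (hBc ▸ hdvd) hBne hY
  -- fields that contain `κ(x)`
  have hRg : ∀ F : IntermediateField k Ω, x ∈ F → ∀ z ∈ R, z ∈ geom F := by
    intro F hxF
    refine adjoin_le_sub (T := (geom F).toSubfield) (fun c => const_mem_geom F c) ?_
    rintro z rfl
    exact (le_sup_left : F ≤ geom F) hxF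
  let K0 : IntermediateField R Ω :=
    { (geom F₁).toSubfield with
      algebraMap_mem' := fun r => hRg F₁ hxF₁ _ r.2
      inv_mem' := fun a ha => (geom F₁).inv_mem ha }
  have hK0m : ∀ z, z ∈ K0 ↔ z ∈ geom F₁ := fun z => Iff.rfl
  let K1 : IntermediateField R Ω :=
    { (geom F).toSubfield with
      algebraMap_mem' := fun r => hRg F hxF _ r.2
      inv_mem' := fun a ha => (geom F).inv_mem ha }
  have hK1m : ∀ z, z ∈ K1 ↔ z ∈ geom F := fun z => Iff.rfl
  -- the two descriptions of `κ(t, Y)`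
  have hK0' : ∀ z, z ∈ K0 ↔ z ∈ IntermediateField.adjoin R' {(δ : Ω) * y} := by
    intro z
    rw [hK0m]
    constructor
    · intro hz
      let T : IntermediateField k Ω :=
        { (IntermediateField.adjoin R' {(δ : Ω) * y}).toSubfield with
          algebraMap_mem' := fun r => (IntermediateField.adjoin R' {(δ : Ω) * y}).algebraMap_mem
            (algebraMap (algebraicClosure k Ω) R' (algebraMap k _ r))
          inv_mem' := fun a ha => (IntermediateField.adjoin R' {(δ : Ω) * y}).inv_mem ha }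
      have hκT : ∀ c : algebraicClosure k Ω, (c : Ω) ∈ T := fun c =>
        (IntermediateField.adjoin R' {(δ : Ω) * y}).algebraMap_mem
            (algebraMap (algebraicClosure k Ω) R' c)
      have h1 : geom F₁ ≤ T := by
        refine sup_le ?_ fun c hc => hκT ⟨c, hc⟩
        rw [hF₁, IntermediateField.adjoin_le_iff]
        rintro w (rfl | rfl)
        · exact (IntermediateField.adjoin R' {(δ : Ω) * y}).algebraMap_mem tR
        · have h2 : w = ((δ⁻¹ : algebraicClosure k Ω) : Ω) * ((δ : Ω) * w) := by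
            have h3 : ((δ⁻¹ : algebraicClosure k Ω) : Ω) = (δ : Ω)⁻¹ := rfl
            rw [h3, ← mul_assoc, inv_mul_cancel₀ hδΩ, one_mul]
          rw [SetLike.mem_coe, h2]
          exact mul_mem (hκT _) (IntermediateField.mem_adjoin_simple_self R' _)
      exact h1 hz
    · intro hz
      refine adjoin_le_sub (T := (geom F₁).toSubfield) ?_ ?_ z hz
      · intro c
        refine adjoin_le_sub (T := (geom F₁).toSubfield) (fun c => const_mem_geom F₁ c) ?_ _ c.2
        rintro z rfl
        exact (le_sup_left : F₁ ≤ geom F₁) htF₁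
      · rintro w rfl
        exact mul_mem (const_mem_geom F₁ δ) ((le_sup_left : F₁ ≤ geom F₁) hyF₁)
  have hHU : HU (algebraicClosure k Ω) K0 := by
    intro W h1 h2
    obtain ⟨π, hπ⟩ := hHU' W h1 h2
    exact ⟨π, (hK0' _).2 hπ.mem, hπ.ne, hπ.lt, fun z hz hz0 => hπ.val z ((hK0' z).1 hz) hz0⟩
  -- roots of unity
  have hμ : ∀ n : ℕ, 0 < n → ∀ ζ : Ω, ζ ^ n = 1 → ∃ c : R, algebraMap R Ω c = ζ :=
    fun n hn ζ => muR (κ := algebraicClosure k Ω) hn.ne' ζ
  have hμK : ∀ n : ℕ, 0 < n → ∀ (γ : Ω ≃ₐ[R] Ω) (w : Ω), w ^ n ∈ R → w ∈ K0 → γ w ∈ K0 := by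
    intro n hn γ w hw hwK
    by_cases hw0 : w = 0
    · rw [hw0, map_zero]; exact zero_mem _
    obtain ⟨c, hc⟩ := hμ n hn (γ w / w) (by
      have h1 : γ (w ^ n) = w ^ n := γ.commutes (⟨w ^ n, hw⟩ : R)
      rw [div_pow, ← map_pow, h1, div_self (pow_ne_zero _ hw0)])
    have h2 : γ w = algebraMap R Ω c * w := by rw [hc, div_mul_cancel₀ _ hw0]
    rw [h2]
    exact mul_mem (K0.algebraMap_mem c) hwK
  have hxR : x ∈ R := IntermediateField.mem_adjoin_simple_self _ _
  have hyR : y ^ ℓ ∈ R := by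
    rw [hy]
    have h1 : aeval x P = ((aeval xR (P.map (algebraMap k (algebraicClosure k Ω))) : R) : Ω) := by
      have h2 := aeval_algebraMap_apply Ω xR (P.map (algebraMap k (algebraicClosure k Ω)))
      rw [← aeval_map_algebraMap (algebraicClosure k Ω) x P]
      exact h2
    rw [h1]
    exact SetLike.coe_mem _
  have hκR : ∀ (γ : Ω ≃ₐ[R] Ω) (c : algebraicClosure k Ω), γ (c : Ω) = c := fun γ c =>
    γ.commutes (algebraMap (algebraicClosure k Ω) R c)
  have hK : ∀ (γ : Ω ≃ₐ[R] Ω), ∀ z ∈ K0, γ z ∈ K0 := by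
    intro γ z hz
    let T : IntermediateField k Ω :=
      { carrier := {z | γ z ∈ K0}
        mul_mem' := fun {a b} ha hb => by
          change _ ∈ K0 at ha hb
          change _ ∈ K0
          rw [map_mul]
          exact mul_mem ha hb
        add_mem' := fun {a b} ha hb => by
          change _ ∈ K0 at ha hb
          change _ ∈ K0
          rw [map_add]
          exact add_mem ha hb
        algebraMap_mem' := fun r => by
          change _ ∈ K0
          have h1 : algebraMap k Ω r = ((algebraMap k (algebraicClosure k Ω) r :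
            algebraicClosure k Ω) : Ω) := rfl
          rw [h1, hκR]
          exact const_mem_geom F₁ _
        inv_mem' := fun a ha => by
          change _ ∈ K0 at ha
          change _ ∈ K0
          rw [map_inv₀]
          exact inv_mem ha }
    have h1 : geom F₁ ≤ T := by
      refine sup_le ?_ fun c hc => ?_
      · rw [hF₁, IntermediateField.adjoin_le_iff]
        rintro w (rfl | rfl)
        · exact hμK (ℓ ^ j) hm γ w (by rw [ht]; exact hxR) ((le_sup_left : F₁ ≤ geom F₁) htF₁)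
        · exact hμK ℓ hp γ w hyR ((le_sup_left : F₁ ≤ geom F₁) hyF₁)
      · change γ c ∈ K0
        have h2 := hκR γ ⟨c, hc⟩
        rw [h2]
        exact const_mem_geom F₁ ⟨c, hc⟩
    exact h1 hz
  -- the exponents
  have hμℓ : ∀ ζ : Ω, ζ ^ ℓ = 1 → ∃ c : R, algebraMap R Ω c = ζ := hμ ℓ hp
  have hprt : Pro ℓ R t := by
    have h1 : ∀ i : ℕ, i ≤ j → Pro ℓ R (t ^ (ℓ ^ (j - i))) := by
      intro i
      induction i with
      | zero =>
        intro _
        rw [Nat.sub_zero, ht]
        exact Pro.base ℓ xR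
      | succ i ih =>
        intro hi
        refine Pro.root hμℓ ?_
        have h2 := ih (by omega)
        rw [← pow_mul, ← pow_succ]
        have h3 : j - (i + 1) + 1 = j - i := by omega
        rw [h3]
        exact h2
    have h2 := h1 j le_rfl
    rw [Nat.sub_self, pow_zero, pow_one] at h2
    exact h2
  have hpry : Pro ℓ R y := Pro.root hμℓ (Pro.base ℓ (⟨y ^ ℓ, hyR⟩ : R))
  have hprF₁ : ∀ z ∈ geom F₁, Pro ℓ R z := by
    intro z hz
    let T : IntermediateField k Ω :=
      { carrier := {z | Pro ℓ R z}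
        mul_mem' := fun {a b} ha hb => Pro.mul ha hb
        add_mem' := fun {a b} ha hb => Pro.add ha hb
        algebraMap_mem' := fun r => Pro.base ℓ
          (algebraMap (algebraicClosure k Ω) R (algebraMap k (algebraicClosure k Ω) r))
        inv_mem' := fun a ha => Pro.inv ha }
    have h1 : geom F₁ ≤ T := by
      refine sup_le ?_ fun c hc => Pro.base ℓ (algebraMap (algebraicClosure k Ω) R ⟨c, hc⟩)
      rw [hF₁, IntermediateField.adjoin_le_iff]
      rintro w (rfl | rfl)
      · exact hprt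
      · exact hpry
    exact h1 hz
  have hle : K0 ≤ MF ℓ (algebraicClosure k Ω) K0 := fun z hz =>
    ⟨hprF₁ z ((hK0m z).1 hz), fun W _ _ => Apx.of_mem hz⟩
  -- the field `M`
  have hcongr : ∀ (F : IntermediateField k Ω) (K : IntermediateField R Ω)
      (hK : ∀ z, z ∈ K ↔ z ∈ geom F) (z : Ω),
      z ∈ proEll ℓ F ↔ z ∈ maxPro ℓ (algebraicClosure k Ω) K Ω := by
    intro F K hK z
    unfold proEll
    rw [maxProEll_eq]
    let e : geom F ≃+* K :=
      { toFun := fun z => ⟨z.1, (hK _).2 z.2⟩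
        invFun := fun z => ⟨z.1, (hK _).1 z.2⟩
        left_inv := fun _ => rfl
        right_inv := fun _ => rfl
        map_mul' := fun _ _ => rfl
        map_add' := fun _ _ => rfl }
    exact Pool.Agent.Y157.PS.maxPro_congr (ℓ := ℓ) (κ₁ := k) (κ₂ := algebraicClosure k Ω) e
      (fun a => rfl) (fun W => ⟨fun h c => h (algebraMap k (algebraicClosure k Ω) c),
        fun h c => Pool.Agent.W620.SC.const_mem h c.2⟩) z
  have hMF : ∀ z, z ∈ proEll ℓ F₁ ↔ z ∈ MF ℓ (algebraicClosure k Ω) K0 := by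
    intro z
    rw [hcongr F₁ K0 hK0m z]
    refine maxPro_gen hrat K0 hK hle hHU K0 hle ?_ ?_ z
    · refine exp_geom F₁ ?_ (fun z hz => hprF₁ z ((le_sup_left : F₁ ≤ geom F₁) hz))
      exact ⟨{t, y}, by simp [hF₁]⟩
    · intro W hW z hz hz0
      by_cases hWt : W = ⊤
      · refine ⟨1, one_mem _, one_ne_zero, ?_⟩
        have h1 : IsU W (z / 1) := ⟨by rwa [div_one], by rw [hWt]; trivial, by rw [hWt]; trivial⟩
        have h2 := (isU_iff W).1 h1
        rw [div_one] at h2
        rw [h2, map_one]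
      · obtain ⟨π, hπ⟩ := hHU W hW hWt
        obtain ⟨w, hw, hw0, h1⟩ := (((mem_MF).1 hz).2 W hW hWt).val hπ hz0
        exact ⟨w, hw, hw0, h1⟩
  have hgM : geom F ≤ proEll ℓ F₁ :=
    sup_le hF (fun c hc => geom_le_proEll _ (const_mem_geom _ ⟨c, hc⟩))
  have hK1 : K1 ≤ MF ℓ (algebraicClosure k Ω) K0 :=
    fun z hz => (hMF z).1 (hgM ((hK1m z).1 hz))
  have hun' : ∀ W : ValuationSubring Ω,
      (∀ c : algebraicClosure k Ω, algebraMap (algebraicClosure k Ω) Ω c ∈ W) →
      ∀ z ∈ MF ℓ (algebraicClosure k Ω) K0, z ≠ 0 →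
        ∃ t ∈ K1, t ≠ 0 ∧ W.valuation z = W.valuation t := by
    intro W hW z hz hz0
    obtain ⟨w, hw, hw0, h1, h2⟩ := hun W (fun c => hW (algebraMap k _ c)) z ((hMF z).2 hz) hz0
    refine ⟨w, hw, hw0, ?_⟩
    have h3 := (isU_iff W).1 ⟨div_ne_zero hz0 hw0, h1, h2⟩
    rw [map_div₀] at h3
    rwa [div_eq_one_iff_eq] at h3
    exact ((Valuation.pos_iff _).2 hw0).ne'
  have hexp : ∃ a : ℕ, ∀ σ : Ω ≃ₐ[R] Ω, ∀ t ∈ K1, (σ ^ (ℓ ^ a)) t = t :=
    exp_geom F hFG (fun z hz => ((mem_MF).1 ((hMF z).1 (hF hz))).1)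
  ext z
  rw [hMF, hcongr F K1 hK1m z]
  exact maxPro_gen hrat K0 hK hle hHU K1 hK1 hexp hun' z

end

end Pool.Agent.H71MX
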