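import Pool.Agent.H71SC.Crit

/-! # Criteria for ramified sections, prime powers -/

set_option autoImplicit false
set_option linter.all false

open Polynomial FF Pool.Agent.Y157.PS Pool.Agent.H71SC

namespace Pool.Agent.H71MX

section tau

variable {A k κ : Type} [CommRing A] [IsDomain A] [IsDiscreteValuationRing A]
    [Field k] [Field κ] [Algebra A k] [Algebra k κ] [Algebra A κ]
    [IsScalarTower A k κ] [IsFractionRing A k] [CharZero k] [IsAlgClosure k κ]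
    [Finite (IsLocalRing.ResidueField A)]

theorem unit_im (V : ValuationSubring κ) (hVa : ∀ a : A, algebraMap A κ a ∈ V) (b : A)
    (hb : IsUnit b) : IsU V (algebraMap A κ b) := by
  obtain ⟨b, rfl⟩ := hb
  refine ⟨(b.isUnit.map (algebraMap A κ)).ne_zero, hVa _, ?_⟩
  have h1 : (algebraMap A κ (b : A))⁻¹ = algebraMap A κ ((b⁻¹ : Aˣ) : A) := by
    refine inv_eq_of_mul_eq_one_right ?_
    rw [← map_mul, Units.mul_inv, map_one]
  rw [h1]
  exact hVa _

/-- the inertia group moves the roots of order `ℓ^r` of an element whose valuation is not divisible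
by `ℓ^r` -/
theorem exists_tau {ℓ : ℕ} [Fact ℓ.Prime] (V : ValuationSubring κ)
    (hVa : ∀ a : A, algebraMap A κ a ∈ V)
    (hVm : ∀ a ∈ IsLocalRing.maximalIdeal A, algebraMap A κ a ∈ V.nonunits)
    (hℓ : IsUnit (ℓ : A)) (ϖ : A) (hϖ : Irreducible ϖ) (r : ℕ) (d : k) (m : ℤ)
    (hm : ¬ ((ℓ ^ r : ℕ) : ℤ) ∣ m) (t : A) (ht : IsUnit t)
    (hd : d = algebraMap A k t * algebraMap A k ϖ ^ m) (δ : κ)
    (hδ : δ ^ (ℓ ^ r) = algebraMap k κ d) : ∃ τ : κ ≃ₐ[k] κ, Ine V τ ∧ τ δ ≠ δ := by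
  have hp := (Fact.out : ℓ.Prime).pos
  have hkb : IsAlgClosed κ := IsAlgClosure.isAlgClosed k
  have hAk : Function.Injective (algebraMap A k) := IsFractionRing.injective A k
  have hϖk : algebraMap A k ϖ ≠ 0 := by
    rw [Ne, map_eq_zero_iff _ hAk]
    exact hϖ.ne_zero
  have hϖ0 : algebraMap A κ ϖ ≠ 0 := by
    rw [IsScalarTower.algebraMap_apply A k]
    exact (_root_.map_ne_zero _).2 hϖk
  obtain _ | r := r
  · exact absurd (by simp) hm
  obtain ⟨ρ, hρ⟩ : ∃ ρ : κ, ρ ^ (ℓ ^ (r + 1)) = algebraMap A κ ϖ :=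
    IsAlgClosed.exists_pow_nat_eq _ (pow_pos hp _)
  have hρ0 : ρ ≠ 0 := by
    rintro rfl
    rw [zero_pow (pow_pos hp _).ne'] at hρ
    exact hϖ0 hρ.symm
  have hρ₁ : (ρ ^ ℓ ^ r) ^ ℓ = algebraMap A κ ϖ := by
    rw [← pow_mul, ← pow_succ, hρ]
  have hBase : Base ℓ A k κ V ϖ (ρ ^ ℓ ^ r) 1 := by
    refine ⟨hℓ, hVa, hVm, hϖ, ?_, ⟨algebraMap A k ϖ, ?_⟩, ?_⟩
    · intro h
      have h1 := Int.eq_one_of_dvd_one (by positivity) h
      exact (Fact.out : ℓ.Prime).one_lt.ne' (by exact_mod_cast h1)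
    · rw [hρ₁, IsScalarTower.algebraMap_apply A k κ]
    · rw [hρ₁, zpow_one, div_self hϖ0]
      exact isU_one
  obtain ⟨-, τ, hτ, hτρ, -, -⟩ := a_tau ℓ A k κ V ϖ _ 1 hBase
  refine ⟨τ, hτ, fun hτδ => hm ?_⟩
  -- the ratio is fixed
  have hℓU : IsU V ((ℓ ^ (r + 1) : ℕ) : κ) := by
    rw [Nat.cast_pow]
    exact Pool.Agent.Y748.PS.isU_pow hBase.isU _
  have hu : (δ / ρ ^ m) ^ (ℓ ^ (r + 1)) = algebraMap A κ t := by
    rw [div_pow, hδ, hd, map_mul, map_zpow₀, ← IsScalarTower.algebraMap_apply,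
      ← IsScalarTower.algebraMap_apply, ← zpow_natCast (ρ ^ m), ← zpow_mul, mul_comm m,
      zpow_mul, zpow_natCast, hρ]
    exact mul_div_cancel_right₀ _ (zpow_ne_zero _ hϖ0)
  have huU : IsU V (δ / ρ ^ m) := isU_of_pow (pow_pos hp (r + 1)) (by
    rw [hu]; exact unit_im V hVa t ht)
  have hτu : τ (δ / ρ ^ m) = δ / ρ ^ m := by
    have h1 : (τ (δ / ρ ^ m) / (δ / ρ ^ m)) ^ (ℓ ^ (r + 1)) = 1 := by
      rw [div_pow, ← map_pow, hu, IsScalarTower.algebraMap_apply A k κ, τ.commutes, div_self]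
      rw [← IsScalarTower.algebraMap_apply]
      exact (unit_im V hVa t ht).1
    have h2 : τ (δ / ρ ^ m) / (δ / ρ ^ m) - 1 ∈ V.nonunits := by
      have h3 : ∀ w w' : κ, w ≠ 0 → w' / w - 1 = w⁻¹ * (w' - w) := by
        intro w w' hw
        field_simp
      rw [h3 _ _ huU.1]
      exact non_mul huU.2.2 (hτ.2 _ huU.2.1)
    have h3 := Pool.Agent.Y748.PS.rou_eq_one hℓU h1 h2
    rwa [div_eq_one_iff_eq huU.1] at h3
  have hτρm : (τ ρ / ρ) ^ m = 1 := by
    rw [map_div₀, hτδ, map_zpow₀] at hτu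
    have hτρ0 : τ ρ ≠ 0 := (_root_.map_ne_zero τ).2 hρ0
    have hδ0 : δ ≠ 0 := by
      rintro rfl
      exact huU.1 (zero_div _)
    rw [div_zpow, div_eq_one_iff_eq (zpow_ne_zero _ hρ0)]
    rw [div_eq_div_iff (zpow_ne_zero _ hτρ0) (zpow_ne_zero _ hρ0)] at hτu
    exact (mul_left_cancel₀ hδ0 hτu).symm
  -- the root of unity
  have hζ1 : (τ ρ / ρ) ^ ℓ ^ (r + 1) = 1 := by
    rw [div_pow, ← map_pow, hρ, IsScalarTower.algebraMap_apply A k κ, τ.commutes, div_self]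
    rw [← IsScalarTower.algebraMap_apply]
    exact hϖ0
  have hζ2 : ¬ (τ ρ / ρ) ^ ℓ ^ r = 1 := by
    intro h
    rw [div_pow, ← map_pow, div_eq_one_iff_eq (pow_ne_zero _ hρ0)] at h
    exact hτρ h
  have hζ0 : τ ρ / ρ ≠ 0 := div_ne_zero ((_root_.map_ne_zero τ).2 hρ0) hρ0
  have hord : orderOf (Units.mk0 _ hζ0) = ℓ ^ (r + 1) := by
    refine orderOf_eq_prime_pow ?_ ?_
    · intro h
      exact hζ2 (by have := congrArg Units.val h; simpa using this)
    · apply Units.ext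
      simpa using hζ1
  rw [← hord, orderOf_dvd_iff_zpow_eq_one]
  apply Units.ext
  rw [Units.val_zpow_eq_zpow_val]
  exact hτρm

end tau

section crit

variable {A k F Ω : Type} [CommRing A] [IsDomain A] [IsDiscreteValuationRing A]
    [IsAdicComplete (IsLocalRing.maximalIdeal A) A]
    [Finite (IsLocalRing.ResidueField A)] [Field k] [CharZero k] [Algebra A k] [IsFractionRing A k]
    [Field F] [Field Ω] [Algebra k F] [Algebra F Ω] [Algebra k Ω] [IsScalarTower k F Ω]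
    [IsAlgClosed Ω]

theorem crit_pow {ℓ : ℕ} [Fact ℓ.Prime] (hℓ : IsUnit (ℓ : A)) (X : Ω)
    (N : IntermediateField F Ω) (M₀ : IntermediateField k Ω)
    (hM₀N : ∀ z ∈ M₀, z ∈ N) (hκ : ∀ c : algebraicClosure k Ω, (c : Ω) ∈ M₀)
    (O : ValuationSubring Ω)
    (hO : GaussO A k X O)
    (S : (algebraicClosure k Ω ≃ₐ[k] algebraicClosure k Ω) →* (N ≃ₐ[F] N))
    (hcompat : ∀ σ (c : algebraicClosure k Ω) (z : N), (z : Ω) = (c : Ω) →
      (S σ z : Ω) = (σ c : Ω))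
    (hL : ∀ σ : algebraicClosure k Ω ≃ₐ[k] algebraicClosure k Ω,
      (∀ c : algebraicClosure k Ω, (c : Ω) ∈ O → ((σ c - c : algebraicClosure k Ω) : Ω) ∈
        O.nonunits) → ∀ z : N, (z : Ω) ∈ M₀ → (z : Ω) ∈ O → ((S σ z - z : N) : Ω) ∈ O.nonunits)
    (ϖ : A) (hϖ : Irreducible ϖ) (r : ℕ) (d : k) (m : ℤ) (hm : ¬ ((ℓ ^ r : ℕ) : ℤ) ∣ m)
    (t : A) (ht : IsUnit t) (hd : d = algebraMap A k t * algebraMap A k ϖ ^ m)
    (g : A[X]) (hg : IsUnit g.leadingCoeff) (y : N) (hyM : (y : Ω) ∈ M₀)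
    (hfix : ∀ σ, S σ y = y)
    (hy : algebraMap k Ω d * (y : Ω) ^ (ℓ ^ r) = aeval X (g.map (algebraMap A k))) : False := by
  have hp := (Fact.out : ℓ.Prime).pos
  have hac : IsAlgClosure k (algebraicClosure k Ω) := inferInstance
  have hkb : IsAlgClosed (algebraicClosure k Ω) := hac.1
  letI : Algebra A (algebraicClosure k Ω) :=
    ((algebraMap k (algebraicClosure k Ω)).comp (algebraMap A k)).toAlgebra
  haveI hst : IsScalarTower A k (algebraicClosure k Ω) :=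
    IsScalarTower.of_algebraMap_eq (fun _ => rfl)
  obtain ⟨V, hVa', hVm', hdec⟩ := V_setup A (k := k) (κ := algebraicClosure k Ω)
  have hVa : ∀ a : A, algebraMap A (algebraicClosure k Ω) a ∈ V := hVa'
  have hVm : ∀ a ∈ IsLocalRing.maximalIdeal A, algebraMap A (algebraicClosure k Ω) a ∈
      V.nonunits := hVm'
  have hmemO := gaussO_mem hVa' hVm' hdec hO
  have hnonO := gaussO_non hmemO
  have hunit : ∀ b : A, IsUnit b → IsU V (algebraMap A (algebraicClosure k Ω) b) :=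
    fun b hb => unit_im V hVa b hb
  obtain ⟨δ, hδ⟩ : ∃ δ : algebraicClosure k Ω, δ ^ (ℓ ^ r) =
      algebraMap k (algebraicClosure k Ω) d :=
    IsAlgClosed.exists_pow_nat_eq _ (pow_pos hp r)
  have hϖk : algebraMap A k ϖ ≠ 0 := by
    rw [Ne, map_eq_zero_iff _ (IsFractionRing.injective A k)]
    exact hϖ.ne_zero
  have htk : algebraMap A k t ≠ 0 := (ht.map (algebraMap A k)).ne_zero
  have hd0 : d ≠ 0 := by
    rw [hd]
    exact mul_ne_zero htk (zpow_ne_zero _ hϖk)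
  have hδ0 : δ ≠ 0 := by
    rintro rfl
    rw [zero_pow (pow_pos hp _).ne'] at hδ
    exact hd0 ((_root_.map_eq_zero _).1 hδ.symm)
  have hgU : IsU O (aeval X (g.map (algebraMap A k))) := by
    have h1 := gaussO_spec hVa' hVm' hdec hO (g.map (algebraMap A (algebraicClosure k Ω)))
      (fun n => by rw [coeff_map]; exact hVa _)
      ⟨g.natDegree, by rw [coeff_map]; exact hunit _ hg⟩
    have h2 : aeval X (g.map (algebraMap A (algebraicClosure k Ω))) =
        aeval X (g.map (algebraMap A k)) := by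
      rw [aeval_def, aeval_def, eval₂_map, eval₂_map, IsScalarTower.algebraMap_eq A k
        (algebraicClosure k Ω), ← RingHom.comp_assoc,
        ← IsScalarTower.algebraMap_eq k (algebraicClosure k Ω) Ω]
    rwa [h2] at h1
  let δN : N := ⟨(δ : Ω), hM₀N _ (hκ δ)⟩
  have hzM : ((δN * y : N) : Ω) ∈ M₀ := mul_mem (hκ δ) hyM
  have hzl : ((δN * y : N) : Ω) ^ (ℓ ^ r) = aeval X (g.map (algebraMap A k)) := by
    have h1 : ((δN * y : N) : Ω) = (δ : Ω) * (y : Ω) := rfl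
    have h2 : (δ : Ω) ^ (ℓ ^ r) = algebraMap k Ω d := by
      have h3 := congrArg (algebraMap (algebraicClosure k Ω) Ω) hδ
      rw [map_pow, ← IsScalarTower.algebraMap_apply] at h3
      exact h3
    rw [h1, mul_pow, h2, hy]
  have hzU : IsU O ((δN * y : N) : Ω) := isU_of_pow (pow_pos hp r) (by rw [hzl]; exact hgU)
  obtain ⟨τ, hτ, hτδ⟩ := exists_tau V hVa hVm hℓ ϖ hϖ r d m hm t ht hd δ hδ
  have h1 := hL τ (fun c hc => (hnonO _).2 (hτ.2 c ((hmemO c).1 hc))) (δN * y) hzM hzU.2.1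
  have h2 : (S τ (δN * y) : Ω) = ((τ δ : algebraicClosure k Ω) : Ω) * (y : Ω) := by
    rw [map_mul, hfix]
    change (S τ δN : Ω) * (y : Ω) = _
    rw [hcompat τ δ δN rfl]
  have h3 : ((S τ (δN * y) - δN * y : N) : Ω) = ((δN * y : N) : Ω) *
      ((τ δ / δ - 1 : algebraicClosure k Ω) : Ω) := by
    have h4 : ((S τ (δN * y) - δN * y : N) : Ω) = (S τ (δN * y) : Ω) - (δ : Ω) * (y : Ω) := rfl
    have h5 : ((δN * y : N) : Ω) = (δ : Ω) * (y : Ω) := rfl
    have h6 : ((τ δ / δ - 1 : algebraicClosure k Ω) : Ω) = (τ δ : Ω) / (δ : Ω) - 1 := rfl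
    have h7 : (δ : Ω) ≠ 0 := fun h => hδ0 (Subtype.ext h)
    rw [h4, h2, h5, h6]
    field_simp
  rw [h3] at h1
  have h4 := non_of_isU_mul hzU h1
  rw [hnonO] at h4
  have hℓV : IsU V ((ℓ ^ r : ℕ) : algebraicClosure k Ω) := by
    have h5 := hunit ((ℓ ^ r : ℕ) : A) (by rw [Nat.cast_pow]; exact hℓ.pow r)
    rwa [map_natCast] at h5
  have hratio : (τ δ / δ) ^ (ℓ ^ r) = 1 := by
    rw [div_pow, ← map_pow, hδ, τ.commutes, div_self]
    exact (_root_.map_ne_zero _).2 hd0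
  have h5 : τ δ / δ = 1 := Pool.Agent.Y748.PS.rou_eq_one hℓV hratio h4
  rw [div_eq_one_iff_eq hδ0] at h5
  exact hτδ h5

end crit

end Pool.Agent.H71MX
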