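import Pool.Agent.H71MX.NoFix

/-! # Descent of the place of a section from a finite Galois extension of the ground field -/

set_option autoImplicit false
set_option linter.style.haveILetI false

namespace Pool.Agent.H71MX

open Pool.Agent.Y157.PS
open Pool.Agent.H59.SCT
open Pool.Agent.Results.MP_c385f6_ag

/-- **descent of the place** -/
theorem descent {k E Ω : Type} [Field k] [CharZero k] [Field E] [Field Ω] [Algebra k E]
    [Algebra k Ω] [Algebra E Ω] [IsScalarTower k E Ω] [Normal k E] [IsAlgClosed Ω]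
    {F : IntermediateField k Ω} {N : IntermediateField F Ω}
    {F' : IntermediateField E Ω} {N' : IntermediateField F' Ω} (hFF' : ∀ z ∈ F, z ∈ F')
    (e : N ≃+* N') (he : ∀ z : N, ((e z : N') : Ω) = (z : Ω))
    (M : IntermediateField E Ω) (hF'M : F' ≤ M) (hMN : ∀ z ∈ M, z ∈ N)
    (s : Splitting F N) (s' : Splitting F' N')
    (hMs : ∀ σ, ∀ z : N, (z : Ω) ∈ M → ((s.toHom σ z : N) : Ω) ∈ M)
    (r1 : ∀ σ' : algebraicClosure E Ω ≃ₐ[E] algebraicClosure E Ω,
      ∃ σ : algebraicClosure k Ω ≃ₐ[k] algebraicClosure k Ω,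
        (∀ (c : E) (c' : algebraicClosure k Ω), (c' : Ω) = algebraMap E Ω c → σ c' = c') ∧
        ∀ z : N, ((s'.toHom σ' (e z) : N') : Ω) = ((s.toHom σ z : N) : Ω))
    (r2 : ∀ σ : algebraicClosure k Ω ≃ₐ[k] algebraicClosure k Ω,
      (∀ (c : E) (c' : algebraicClosure k Ω), (c' : Ω) = algebraMap E Ω c → σ c' = c') →
      ∃ σ' : algebraicClosure E Ω ≃ₐ[E] algebraicClosure E Ω,
        ∀ z : N, ((s'.toHom σ' (e z) : N') : Ω) = ((s.toHom σ z : N) : Ω))
    (P Q : ValuationSubring N → Prop) (P' Q' : ValuationSubring N' → Prop)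
    (hP : ∀ W : ValuationSubring N', P' W → P (W.comap (e : N →+* N')))
    (hPQ : ∀ W : ValuationSubring N', P' W → ∀ σ,
      Q' ((W.comap (e : N →+* N')).comap (((s.toHom σ : N ≃ₐ[F] N) : N ≃+* N).toRingHom.comp
        (e.symm : N' →+* N))))
    (hQ : ∀ W : ValuationSubring N, Q W → Q' (W.comap (e.symm : N' →+* N)))
    (H : FromOneRationalPlace M s' P' Q') :
    FromOneRationalPlace (M.restrictScalars k) s P Q := by
  haveI hacl : IsAlgClosure k (algebraicClosure k Ω) := inferInstance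
  haveI : IsAlgClosed (algebraicClosure k Ω) := hacl.isAlgClosed
  haveI : Normal k (algebraicClosure k Ω) := IsAlgClosure.normal k _
  haveI : IsGalois k (algebraicClosure k Ω) := ⟨⟩
  obtain ⟨W', hPW, ⟨hWE, hWr⟩, hWd, hWu⟩ := H
  have hact1 : ∀ σ' : algebraicClosure E Ω ≃ₐ[E] algebraicClosure E Ω,
      ∃ σ : algebraicClosure k Ω ≃ₐ[k] algebraicClosure k Ω,
        (∀ (c : E) (c' : algebraicClosure k Ω), (c' : Ω) = algebraMap E Ω c → σ c' = c') ∧
        ∀ z : N, s'.toHom σ' (e z) = e (s.toHom σ z) := by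
    intro σ'
    obtain ⟨σ, h1, h2⟩ := r1 σ'
    exact ⟨σ, h1, fun z => Subtype.ext ((h2 z).trans (he _).symm)⟩
  have hact2 : ∀ σ : algebraicClosure k Ω ≃ₐ[k] algebraicClosure k Ω,
      (∀ (c : E) (c' : algebraicClosure k Ω), (c' : Ω) = algebraMap E Ω c → σ c' = c') →
      ∃ σ' : algebraicClosure E Ω ≃ₐ[E] algebraicClosure E Ω,
        ∀ z : N, s'.toHom σ' (e z) = e (s.toHom σ z) := by
    intro σ h1
    obtain ⟨σ', h2⟩ := r2 σ h1
    exact ⟨σ', fun z => Subtype.ext ((h2 z).trans (he _).symm)⟩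
  -- the elements of `E`
  have hEM : ∀ c : E, algebraMap E Ω c ∈ M := fun c => M.algebraMap_mem c
  have hEN : ∀ c : E, algebraMap E Ω c ∈ N := fun c => hMN _ (hEM c)
  have hEκ : ∀ c : E, algebraMap E Ω c ∈ algebraicClosure k Ω := by
    intro c
    rw [mem_algebraicClosure_iff]
    exact (Algebra.IsAlgebraic.isAlgebraic (R := k) c).algebraMap
  have heE : ∀ c : E, e ⟨algebraMap E Ω c, hEN c⟩ = algebraMap F' N' (algebraMap E F' c) := by
    intro c
    apply Subtype.ext
    exact he _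
  have hWE' : ∀ c : E, e ⟨algebraMap E Ω c, hEN c⟩ ∈ W' := by
    intro c
    rw [heE]
    exact hWE c
  have hsE : ∀ σ, ∀ c : E, s.toHom σ ⟨algebraMap E Ω c, hEN c⟩ =
      ⟨((σ ⟨algebraMap E Ω c, hEκ c⟩ : algebraicClosure k Ω) : Ω), by
        rw [← s.compat σ ⟨algebraMap E Ω c, hEκ c⟩ ⟨algebraMap E Ω c, hEN c⟩ rfl]
        exact Subtype.coe_prop _⟩ := by
    intro σ c
    apply Subtype.ext
    exact s.compat σ ⟨algebraMap E Ω c, hEκ c⟩ ⟨algebraMap E Ω c, hEN c⟩ rfl
  -- `E` is stable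
  have hstab : ∀ σ : algebraicClosure k Ω ≃ₐ[k] algebraicClosure k Ω, ∀ c : E,
      ∃ c' : E, ((σ ⟨algebraMap E Ω c, hEκ c⟩ : algebraicClosure k Ω) : Ω) =
        algebraMap E Ω c' := by
    intro σ c
    letI : Algebra E (algebraicClosure k Ω) :=
      ((algebraMap E Ω).codRestrict (algebraicClosure k Ω).toSubfield hEκ).toAlgebra
    haveI : IsScalarTower k E (algebraicClosure k Ω) := by
      refine IsScalarTower.of_algebraMap_eq fun c => ?_
      apply Subtype.ext
      exact IsScalarTower.algebraMap_apply k E Ω c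
    refine ⟨σ.restrictNormal E c, ?_⟩
    have h1 := AlgEquiv.restrictNormal_commutes σ E c
    exact (congrArg (fun w : algebraicClosure k Ω => (w : Ω)) h1).symm
  have hWσE : ∀ σ, ∀ c : E, e (s.toHom σ ⟨algebraMap E Ω c, hEN c⟩) ∈ W' := by
    intro σ c
    obtain ⟨c', hc'⟩ := hstab σ c
    have h1 : s.toHom σ ⟨algebraMap E Ω c, hEN c⟩ = ⟨algebraMap E Ω c', hEN c'⟩ := by
      rw [hsE]
      exact Subtype.ext hc'
    rw [h1]
    exact hWE' c'
  -- `W` is fixed
  have hdec : ∀ σ, ∀ z : N, (z : Ω) ∈ M → (e (s.toHom σ z) ∈ W' ↔ e z ∈ W') := by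
    intro σ z hz
    set V' : ValuationSubring N' := (W'.comap (e : N →+* N')).comap
      (((s.toHom σ : N ≃ₐ[F] N) : N ≃+* N).toRingHom.comp (e.symm : N' →+* N)) with hV'
    have hV'mem : ∀ w : N, e w ∈ V' ↔ e (s.toHom σ w) ∈ W' := by
      intro w
      rw [hV', ValuationSubring.mem_comap, ValuationSubring.mem_comap]
      change e (s.toHom σ (e.symm (e w))) ∈ W' ↔ _
      rw [e.symm_apply_apply]
    have h1 := hWu V' (fun c => ?_) (hPQ W' hPW σ) ?_ (e z) (by rw [he]; exact hz)
    · rw [hV'mem] at h1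
      exact h1
    · rw [← heE, hV'mem]
      exact hWσE σ c
    · intro σ' w hw
      obtain ⟨w, rfl⟩ := e.surjective w
      rw [he] at hw
      obtain ⟨σ₁, hσ₁, h2⟩ := hact1 σ'
      rw [h2, hV'mem, hV'mem]
      have h3 : s.toHom σ (s.toHom σ₁ w) = s.toHom (σ * σ₁ * σ⁻¹) (s.toHom σ w) := by
        rw [← AlgEquiv.mul_apply, ← AlgEquiv.mul_apply, ← map_mul, ← map_mul]
        congr 2
        group
      rw [h3]
      obtain ⟨σ'', h4⟩ := hact2 (σ * σ₁ * σ⁻¹) (fun c c' hc' => by
        rw [AlgEquiv.mul_apply, AlgEquiv.mul_apply]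
        obtain ⟨d, hd⟩ := hstab σ⁻¹ c
        have h5 : c' = ⟨algebraMap E Ω c, hEκ c⟩ := Subtype.ext hc'
        rw [← h5] at hd
        rw [hσ₁ d _ hd]
        rw [← AlgEquiv.mul_apply, mul_inv_cancel]
        rfl)
      rw [← h4]
      exact hWd σ'' (e (s.toHom σ w)) (by rw [he]; exact hMs σ w hw)
  refine ⟨W'.comap (e : N →+* N'), hP W' hPW, ⟨fun c => ?_, fun z hz => ?_⟩, fun σ z hz => ?_,
    fun V hVk hVQ hVs z hz => ?_⟩
  · rw [ValuationSubring.mem_comap]
    have h1 : algebraMap F N (algebraMap k F c) = ⟨algebraMap E Ω (algebraMap k E c), hEN _⟩ := by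
      apply Subtype.ext
      exact IsScalarTower.algebraMap_apply k E Ω c
    rw [h1]
    exact hWE' _
  · rw [ValuationSubring.mem_comap] at hz
    have h1 : e (algebraMap F N z) = algebraMap F' N' ⟨(z : Ω), hFF' z z.2⟩ := by
      apply Subtype.ext
      exact he _
    change e (algebraMap F N z) ∈ W' at hz
    rw [h1] at hz
    obtain ⟨c, hc⟩ := hWr ⟨(z : Ω), hFF' z z.2⟩ hz
    rw [map_sub, ← h1, ← heE, ← map_sub] at hc
    -- `c` is fixed
    have hfixc : ∀ σ : algebraicClosure k Ω ≃ₐ[k] algebraicClosure k Ω,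
        σ ⟨algebraMap E Ω c, hEκ c⟩ = ⟨algebraMap E Ω c, hEκ c⟩ := by
      intro σ
      have hwM : ((algebraMap F N z - ⟨algebraMap E Ω c, hEN c⟩ : N) : Ω) ∈ M :=
        sub_mem (hF'M (hFF' z z.2)) (hEM c)
      have h5 : e (s.toHom σ (algebraMap F N z - ⟨algebraMap E Ω c, hEN c⟩)) ∈ W'.nonunits := by
        rw [ValuationSubring.mem_nonunits_iff_or] at hc ⊢
        rcases hc with h | h
        · left
          have h6 := e.injective (h.trans (map_zero e).symm)
          rw [h6, map_zero, map_zero]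
        · right
          rw [← map_inv₀, ← map_inv₀]
          intro h6
          apply h
          rw [← map_inv₀]
          refine (hdec σ _ ?_).1 h6
          exact inv_mem hwM
      rw [map_sub, (s.toHom σ).commutes] at h5
      obtain ⟨c', hc'⟩ := hstab σ c
      have h7 : s.toHom σ ⟨algebraMap E Ω c, hEN c⟩ = ⟨algebraMap E Ω c', hEN c'⟩ := by
        rw [hsE]
        exact Subtype.ext hc'
      rw [h7] at h5
      have h8 := non_sub hc h5
      rw [← map_sub] at h8
      have h9 : (algebraMap F N z - ⟨algebraMap E Ω c, hEN c⟩) -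
          (algebraMap F N z - ⟨algebraMap E Ω c', hEN c'⟩) =
          (⟨algebraMap E Ω (c' - c), hEN _⟩ : N) := by
        apply Subtype.ext
        change ((z : Ω) - algebraMap E Ω c) - ((z : Ω) - algebraMap E Ω c') =
          algebraMap E Ω (c' - c)
        rw [map_sub]
        ring
      rw [h9] at h8
      have h10 : c' - c = 0 := by
        by_contra hne
        have h11 := non_mul (hWE' (c' - c)⁻¹) h8
        rw [← map_mul] at h11
        have h12 : (⟨algebraMap E Ω (c' - c)⁻¹, hEN _⟩ : N) *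
            (⟨algebraMap E Ω (c' - c), hEN _⟩ : N) = 1 := by
          apply Subtype.ext
          change algebraMap E Ω (c' - c)⁻¹ * algebraMap E Ω (c' - c) = 1
          rw [← map_mul, inv_mul_cancel₀ hne, map_one]
        rw [h12, map_one] at h11
        exact isU_one.not_nonunit h11
      apply Subtype.ext
      rw [hc', sub_eq_zero.1 h10]
    obtain ⟨c₀, hc₀⟩ := IntermediateField.mem_bot.1
      ((InfiniteGalois.mem_bot_iff_fixed (⟨algebraMap E Ω c, hEκ c⟩ : algebraicClosure k Ω)).2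
        hfixc)
    refine ⟨c₀, ?_⟩
    refine (comap_non' e W' _).2 ?_
    have h13 : algebraMap F N (z - algebraMap k F c₀) =
        algebraMap F N z - ⟨algebraMap E Ω c, hEN c⟩ := by
      rw [map_sub]
      congr 1
      apply Subtype.ext
      exact congrArg (fun w : algebraicClosure k Ω => (w : Ω)) hc₀
    rw [h13]
    exact hc
  · rw [ValuationSubring.mem_comap, ValuationSubring.mem_comap]
    exact hdec σ z hz
  · have hmemV : ∀ w : N, e w ∈ V.comap (e.symm : N' →+* N) ↔ w ∈ V := by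
      intro w
      rw [ValuationSubring.mem_comap]
      change e.symm (e w) ∈ V ↔ _
      rw [e.symm_apply_apply]
    have h1 := hWu (V.comap (e.symm : N' →+* N)) (fun c => ?_) (hQ V hVQ) ?_ (e z)
      (by rw [he]; exact hz)
    · rw [hmemV] at h1
      exact h1
    · rw [← heE, hmemV]
      obtain ⟨p, hp, hpc⟩ := (Algebra.IsAlgebraic.isAlgebraic (R := k) c).isIntegral
      refine alg_mem ((algebraMap F N).comp (algebraMap k F)) V hVk _ p hp ?_
      apply (algebraMap N Ω).injective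
      rw [Polynomial.hom_eval₂, map_zero]
      have h2 := congrArg (algebraMap E Ω) hpc
      rw [Polynomial.hom_eval₂, map_zero, ← IsScalarTower.algebraMap_eq] at h2
      exact h2
    · intro σ' w hw
      obtain ⟨w, rfl⟩ := e.surjective w
      rw [he] at hw
      obtain ⟨σ₁, -, h2⟩ := hact1 σ'
      rw [h2, hmemV, hmemV]
      exact hVs σ₁ w hw

end Pool.Agent.H71MX
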