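import Pool.Agent.H59.SCT.RotA
import Pool.Agent.Results.MP_c385f6_ag.EllMonodromyCovers

/-! # Sections of fields between `k(x)` and the universal field of index `ℓ` -/

set_option autoImplicit false
set_option linter.style.haveILetI false

open Polynomial

namespace Pool.Agent.H71MX

open Pool.Agent.Y157.PS
open Pool.Agent.H59.SCT
open Pool.Agent.Results.MP_c385f6_ag
open EllMonodromyCovers (IsGauss ActsTrivially)

/-- The section `s`, restricted to `M`, is unramified: if the valuation ring `O` of `Ω` induces the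
Gauss valuation on `k̄(x)`, then for all `σ ∈ Gal(k̄/k)` which act trivially on the residue field of
`O ∩ k̄`, the automorphism `s(σ)` acts trivially on the residue field of `O ∩ M`. -/
def Unram (A : Type) {k Ω : Type} [CommRing A] [IsLocalRing A] [Field k] [Field Ω] [Algebra A k]
    [Algebra k Ω] {F : IntermediateField k Ω} {N : IntermediateField F Ω} (x : Ω)
    (M : IntermediateField k Ω) (s : Splitting F N) : Prop :=
  ∀ O : ValuationSubring Ω, IsGauss A k (algebraicClosure k Ω) x O →
    ∀ σ : algebraicClosure k Ω ≃ₐ[k] algebraicClosure k Ω, ActsTrivially O Set.univ σ →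
      ActsTrivially O (M : Set Ω) (s.toHom σ)

/-- a good polynomial is separable -/
theorem good_sep {A k : Type} [CommRing A] [IsDomain A] [IsDiscreteValuationRing A]
    [Finite (IsLocalRing.ResidueField A)] [Field k] [CharZero k] [Algebra A k] [IsFractionRing A k]
    {f : A[X]} (hlc : IsUnit f.leadingCoeff) (hs : (f.map (IsLocalRing.residue A)).Separable) :
    (f.map (algebraMap A k)).Separable := by
  let κ := AlgebraicClosure k
  obtain ⟨V, hVa, hVm⟩ := Pool.Agent.Y157.PS.exists_V A k κ
  refine Pool.Agent.R925.L.key_sep (A := A) (k := k) (κ := κ) V (fun b => ?_) (fun b hb => ?_) _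
      hlc hs
  · rw [IsScalarTower.algebraMap_apply A k κ]
    exact hVa b
  · rw [IsScalarTower.algebraMap_apply A k κ]
    exact hVm b hb

/-- a valuation ring with `x ≡ e` for a root `e` of `f` is above a root of `f` -/
theorem root_non {k F N : Type} [Field k] [Field F] [Field N] [Algebra k F] [Algebra F N]
    (f : k[X]) (x : F) (e : k) (he : f.eval e = 0) (W : ValuationSubring N)
    (hk : ∀ c : k, algebraMap F N (algebraMap k F c) ∈ W)
    (hx : algebraMap F N (x - algebraMap k F e) ∈ W.nonunits) :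
    algebraMap F N (aeval x f) ∈ W.nonunits := by
  obtain ⟨q, hq⟩ := dvd_iff_isRoot.2 he
  have hxW : algebraMap F N x ∈ W := by
    have h1 : algebraMap F N x = algebraMap F N (x - algebraMap k F e) +
        algebraMap F N (algebraMap k F e) := by rw [map_sub]; ring
    rw [h1]
    exact add_mem (non_mem hx) (hk e)
  have hqW : algebraMap F N (aeval x q) ∈ W := by
    rw [aeval_eq_sum_range, map_sum]
    refine sum_mem fun i _ => ?_
    rw [Algebra.smul_def, map_mul, map_pow]
    exact mul_mem (hk _) (pow_mem hxW i)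
  rw [hq, map_mul, map_mul, map_sub, aeval_X, aeval_C, mul_comm]
  exact non_mul hqW hx

/-- the theorem for coverings of index `ℓ` -/
theorem ellA (A k : Type) [CommRing A] [IsDomain A] [IsDiscreteValuationRing A]
    [IsAdicComplete (IsLocalRing.maximalIdeal A) A] [Finite (IsLocalRing.ResidueField A)]
    [Field k] [CharZero k] [Algebra A k] [IsFractionRing A k] (ℓ : ℕ) [Fact ℓ.Prime]
    (f : A[X]) (hℓ : IsUnit (ℓ : A)) (hf : EtaleCoverings.GoodPolynomial ℓ f)
    (Ω : Type) [Field Ω] [Algebra k Ω] [IsAlgClosed Ω] (F : IntermediateField k Ω) (x : F) (y : Ω)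
    (hx : Transcendental k (x : Ω))
    (halg : Algebra.IsAlgebraic (IntermediateField.adjoin k {(x : Ω)}) Ω)
    (hy : y ^ ℓ = aeval (x : Ω) (f.map (algebraMap A k)))
    (hF : F ≤ proEll ℓ (IntermediateField.adjoin k {(x : Ω), y})) (N : IntermediateField F Ω)
    (hN : ∀ z ∈ proEll ℓ (IntermediateField.adjoin k {(x : Ω), y}), z ∈ N) (s : Splitting F N) :
    Unram A (x : Ω) (proEll ℓ (IntermediateField.adjoin k {(x : Ω), y})) s ∨
    FromOneRationalPlace (proEll ℓ (IntermediateField.adjoin k {(x : Ω), y})) s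
      (fun W => algebraMap F N (aeval x (f.map (algebraMap A k))) ∈ W.nonunits)
      (fun W => algebraMap F N (aeval x (f.map (algebraMap A k))) ∈ W.nonunits) := by
  have hp := (Fact.out : ℓ.Prime).pos
  have hxF : (x : Ω) ∈ F := x.2
  obtain ⟨hlc, hs, hdvd, h3⟩ := hf
  have hsep := good_sep (k := k) hlc hs
  -- the polynomial is not zero at `x`
  have hevx : aeval (x : Ω) (f.map (algebraMap A k)) ≠ 0 := by
    intro h0
    exact hx ⟨_, hsep.ne_zero, h0⟩
  have hy0 : y ≠ 0 := by
    rintro rfl
    rw [zero_pow hp.ne'] at hy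
    exact hevx hy.symm
  have hyx : y ^ ℓ ∈ IntermediateField.adjoin k {(x : Ω)} := by
    rw [hy]
    have h1 : (x : Ω) ∈ IntermediateField.adjoin k {(x : Ω)} :=
      IntermediateField.mem_adjoin_simple_self k _
    have h3 := aeval_algebraMap_apply Ω (⟨_, h1⟩ : IntermediateField.adjoin k {(x : Ω)})
        (f.map (algebraMap A k))
    have h2 : aeval (x : Ω) (f.map (algebraMap A k)) =
        ((aeval (⟨_, h1⟩ : IntermediateField.adjoin k {(x : Ω)}) (f.map (algebraMap A k)) :
          IntermediateField.adjoin k {(x : Ω)}) : Ω) := h3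
    rw [h2]
    exact SetLike.coe_mem _
  obtain ⟨δ, d, y', hδ, hd, hy', hdy, hδd, hyN, h, s', hs', hM⟩ := reduction hp hx halg hy0 hyx F
    hxF hF N hN s
  -- notation
  set F' : IntermediateField k Ω := IntermediateField.adjoin k {(x : Ω), y'} with hF'
  have hxF' : (x : Ω) ∈ F' := IntermediateField.subset_adjoin _ _ (by simp)
  have hyF' : y' ∈ F' := IntermediateField.subset_adjoin _ _ (by simp)
  haveI := alg_over halg F' hxF'
  haveI : IsAlgClosure F' Ω := ⟨inferInstance, inferInstance⟩
  let N' : IntermediateField F' Ω := same N F' h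
  have hx'tr : Transcendental k (⟨x, hxF'⟩ : F') := fun h1 => hx (h1.algebraMap)
  have hE : EllMonodromyCovers.ElementaryCovering Ω ℓ f (fun _ : Unit => f) (fun _ => d)
      (⟨x, hxF'⟩ : F') (fun _ => ⟨y', hyF'⟩) := by
    refine ⟨hx'tr, fun _ => hd, fun _ => ?_, ?_, fun _ => ⟨1, by rw [pow_one]⟩, fun _ => hdvd,
      fun e he => ⟨(), ?_⟩⟩
    · apply (algebraMap F' Ω).injective
      rw [map_mul, map_pow, ← IsScalarTower.algebraMap_apply]
      refine hdy.trans (hy.trans ?_)
      exact aeval_algebraMap_apply Ω (⟨x, hxF'⟩ : F') (f.map (algebraMap A k))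
    · rw [Set.range_const]
      apply IntermediateField.map_injective F'.val
      rw [IntermediateField.adjoin_map, Set.image_insert_eq, Set.image_singleton]
      have h5 : IntermediateField.map F'.val ⊤ = F' := by
        ext z
        constructor
        · rintro ⟨w, -, rfl⟩
          exact w.2
        · intro hz
          exact ⟨⟨z, hz⟩, trivial, rfl⟩
      rw [h5]
      rfl
    · have h4 : (f.map ((algebraMap k Ω).comp (algebraMap A k))) =
          (f.map (algebraMap A k)).map (algebraMap k Ω) := (Polynomial.map_map _ _ _).symm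
      rw [h4]
      have h5 : ((f.map (algebraMap A k)).map (algebraMap k Ω)).Separable := hsep.map
      have h6 := rootMultiplicity_le_one_of_separable h5 e
      have h7 : 0 < ((f.map (algebraMap A k)).map (algebraMap k Ω)).rootMultiplicity e := by
        rw [rootMultiplicity_pos h5.ne_zero, IsRoot.def, eval_map]
        exact he
      intro h8
      have h9 := Nat.le_of_dvd h7 h8
      have := (Fact.out : ℓ.Prime).two_le
      omega
  obtain ⟨hgen, helem⟩ := EllMonodromyCovers.result A k ℓ f hℓ ⟨hlc, hs, hdvd, h3⟩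
  obtain ⟨hC, -⟩ := helem F' Ω Unit _ _ _ _ hE
  obtain ⟨-, -, hsec⟩ := hgen F' Ω _ hC
  let L : IntermediateField F' Ω := IntermediateField.adjoin F' (F : Set Ω)
  have hL : L ≤ EtaleCoverings.proEllField ℓ k F' Ω := by
    rw [EtaleCoverings.proEll_eq]
    rw [IntermediateField.adjoin_le_iff]
    intro z hz
    exact (hM z).2 (hF hz)
  have hN' : EtaleCoverings.proEllField ℓ k F' Ω ≤ N' := by
    rw [EtaleCoverings.proEll_eq]
    intro z hz
    exact hN z ((hM z).1 hz)
  let s'' : EtaleCoverings.Splitting k F' Ω (algebraicClosure k Ω) N' :=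
    ⟨s'.toHom, s'.cont, fun σ c z hz => s'.compat σ c z hz⟩
  have hFN : ∀ z ∈ F, z ∈ N := fun z hz => N.algebraMap_mem ⟨z, hz⟩
  have hsL : ∀ σ, ∀ z : N', algebraMap N' Ω z ∈ L → s''.toHom σ z = z := by
    intro σ z hz
    have h4 : L ≤ Pool.Agent.V11235.SL.fixF N' (s'.toHom σ) := by
      rw [IntermediateField.adjoin_le_iff]
      intro w hw
      refine ⟨hFN w hw, ?_⟩
      apply Subtype.ext
      rw [hs' σ ⟨w, hFN w hw⟩ ⟨w, hFN w hw⟩ rfl]
      have h5 : (⟨w, hFN w hw⟩ : N) = algebraMap F N ⟨w, hw⟩ := rfl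
      rw [h5, (s.toHom σ).commutes]
      rfl
    obtain ⟨h5, h6⟩ := h4 hz
    exact h6
  obtain ⟨hdich, -⟩ := hsec L N' hL hN' s'' hsL
  let e : N ≃+* N' := sameEquiv N F' h
  have hfxN : ∀ z : N, (z : Ω) ∈ proEll ℓ (IntermediateField.adjoin k {(x : Ω), y}) ↔
      algebraMap N' Ω (e z) ∈ EtaleCoverings.proEllField ℓ k F' Ω := by
    intro z
    rw [EtaleCoverings.proEll_eq]
    exact (hM z).symm
  have hact : ∀ σ (z : N), e (s.toHom σ z) = s''.toHom σ (e z) := by
    intro σ z
    apply Subtype.ext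
    exact (hs' σ (e z) z rfl).symm
  have hkey : ∀ (V : ValuationSubring N) (V' : ValuationSubring N'),
      (∀ z, z ∈ V ↔ e z ∈ V') →
      (InDecomposition (proEll ℓ (IntermediateField.adjoin k {(x : Ω), y})) s V ↔
        EtaleCoverings.InDecomposition s''
          (EtaleCoverings.proEllField ℓ k F' Ω) V') := by
    intro V V' hV
    constructor
    · intro h1 σ z hz
      obtain ⟨w, rfl⟩ := e.surjective z
      rw [← hact, ← hV, ← hV]
      exact h1 σ w ((hfxN w).2 hz)
    · intro h1 σ z hz
      rw [hV, hV, hact]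
      exact h1 σ (e z) ((hfxN z).1 hz)
  have hfx : e (algebraMap F N (aeval x (f.map (algebraMap A k)))) =
      algebraMap F' N' (aeval (⟨x, hxF'⟩ : F') (f.map (algebraMap A k))) := by
    apply Subtype.ext
    change ((aeval x (f.map (algebraMap A k)) : F) : Ω) =
      ((aeval (⟨x, hxF'⟩ : F') (f.map (algebraMap A k)) : F') : Ω)
    have h9 := aeval_algebraMap_apply Ω (⟨x, hxF'⟩ : F') (f.map (algebraMap A k))
    have h10 := aeval_algebraMap_apply Ω x (f.map (algebraMap A k))
    exact h10.symm.trans h9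
  rcases hdich with hU | ⟨W', ⟨e₀, he₀, hk₀, hW1⟩, hW3, hW4, -, hW6⟩
  · left
    intro O hO σ hσ z hz hzO
    have h1 := hU O hO σ hσ (e z) ((hfxN z).1 hz) hzO
    rw [← hact, ← map_sub] at h1
    exact h1
  right
  refine ⟨W'.comap (e : N →+* N'), ?_, ⟨?_, ?_⟩, ?_, ?_⟩
  · refine (comap_non' e W' _).2 ?_
    rw [hfx]
    exact root_non (f.map (algebraMap A k)) (⟨x, hxF'⟩ : F') e₀ he₀ W' hk₀ hW1
  · intro c
    rw [ValuationSubring.mem_comap]
    exact hk₀ c
  · intro z hz
    rw [ValuationSubring.mem_comap] at hz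
    obtain ⟨c, hc⟩ := hW3 (e (algebraMap F N z)) (IntermediateField.subset_adjoin _ _ z.2) hz
    refine ⟨c, ?_⟩
    rw [comap_non', map_sub, map_sub]
    exact hc
  · exact (hkey (W'.comap (e : N →+* N')) W' (fun z => Iff.rfl)).2 hW4
  · intro V hVk hVQ hVs z hz
    let V' : ValuationSubring N' := V.comap (e.symm : N' →+* N)
    have hV' : ∀ z, z ∈ V ↔ e z ∈ V' := by
      intro z
      change z ∈ V ↔ e.symm (e z) ∈ V
      rw [e.symm_apply_apply]
    have hV'n : ∀ z, z ∈ V'.nonunits ↔ e.symm z ∈ V.nonunits := fun z => comap_non' e.symm V z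
    have hk' : ∀ c : k, algebraMap F' N' (algebraMap k F' c) ∈ V' := fun c => hVk c
    have h7 := hW6 V' ⟨hk', ?_⟩ ((hkey V V' hV').1 hVs) (e z) ((hfxN z).1 hz)
    · rw [hV', h7]
      rfl
    · rw [← hfx, hV'n, e.symm_apply_apply]
      exact hVQ

end Pool.Agent.H71MX
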