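import Pool.Agent.H71SC.Fin2
import Pool.Agent.Results.MP_c385f6_ag.EllMonodromyCovers

/-! # Sections which fix a function `y` with `u y^ℓ = f(x)`, `u` a unit, are unramified -/

set_option autoImplicit false
set_option linter.all false

open Polynomial FF Pool.Agent.Y157.PS Pool.Agent.H71SC

namespace Pool.Agent.H71MX

theorem root_eq' {K : Type} [Field K] {V : ValuationSubring K} {ℓ : ℕ} (hp : 0 < ℓ)
    (hℓ : IsU V (ℓ : K)) {a b : K} (hb : IsU V b) (hab : a ^ ℓ = b ^ ℓ) (h : a - b ∈ V.nonunits) :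
    a = b := by
  have hb0 := hb.1
  have h1 : a / b = 1 := by
    refine Pool.Agent.Y748.PS.rou_eq_one hℓ ?_ ?_
    · rw [div_pow, hab, div_self (pow_ne_zero _ hb0)]
    · have h2 : a / b - 1 = b⁻¹ * (a - b) := by
        field_simp
      rw [h2]
      exact non_mul hb.2.2 h
  rwa [div_eq_one_iff_eq hb0] at h1

/-- the local theorem for sections with unramified `δ` -/
theorem loc3 (ℓ : ℕ) [Fact ℓ.Prime] (A k κ R M : Type) [CommRing A] [IsDomain A]
    [IsDiscreteValuationRing A] [Field k] [Field κ] [Algebra A k] [Algebra k κ] [Algebra A κ]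
    [IsScalarTower A k κ] [IsFractionRing A k] [CharZero k] [IsAlgClosure k κ]
    [Finite (IsLocalRing.ResidueField A)] [Field R] [Field M] [Algebra κ R] [Algebra R M]
    [Algebra κ M] [IsScalarTower κ R M] (V : ValuationSubring κ) (ϖ : A) (δ₁ : κ) (m : ℤ)
    (hB : Base ℓ A k κ V ϖ δ₁ m) (x : R) (B : Finset κ) (Y : M) (hC : Cov ℓ κ R M x B Y)
    (hGood : Good V B) (F : Type) [Field F] (r : V →+* F) (hr : Res V r) (D : Disc ℓ V r)
    (s : (κ ≃ₐ[k] κ) →* RingAut M) (δ : κ) (hδ0 : δ ≠ 0)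
    (hδk : ∃ d : k, δ ^ ℓ = algebraMap k κ d) (hs : Sec k κ R M x Y δ s)
    (hI : ∀ σ : κ ≃ₐ[k] κ, Ine V σ → σ δ = δ) :
    ∀ O : ValuationSubring M, Gauss V (algebraMap R M x) O →
      ∀ σ : κ ≃ₐ[k] κ, Ine V σ → ∀ z ∈ O, s σ z - z ∈ O.nonunits := by
  have hac : IsAlgClosed κ := IsAlgClosure.isAlgClosed k
  have hcz : CharZero κ := charZero_of_injective_algebraMap (algebraMap k κ).injective
  have hp := (Fact.out : ℓ.Prime).pos
  have hℓ : IsU V (ℓ : κ) := hB.isU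
  have hδ₁0 := hB.δ0
  have hs₁ : Sec k κ R M x (algebraMap κ M δ₁) δ₁ s := by
    refine ⟨hs.const, hs.fixx, fun σ => ?_, hs.cont⟩
    rw [hs.const, ← map_mul, div_mul_cancel₀ _ hδ₁0]
  obtain ⟨e0, he0⟩ : B.Nonempty := by
    rw [← Finset.card_pos]
    have := hC.three
    omega
  have hRot := a_gex ℓ κ R M x B Y hC F V r hr hGood D
  obtain ⟨O, -, -, hO, -⟩ := hRot e0 he0
  have hun : ∀ O' : ValuationSubring M, Gauss V (algebraMap R M x) O' → O' = O :=
    fun O' h => a_gun ℓ κ R M x B Y hC V hRot O' O h hO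
  have hYU : IsU O Y := hC.Y_isU hGood hO
  have hY0 : Y ≠ 0 := hYU.1
  have hconst : ∀ (γ : M ≃ₐ[R] M) (c : κ), γ (algebraMap κ M c) = algebraMap κ M c := by
    intro γ c
    rw [IsScalarTower.algebraMap_apply κ R M, γ.commutes]
  have st : ∀ σ : κ ≃ₐ[k] κ, Dec V σ → ∀ z, s σ z ∈ O ↔ z ∈ O := fun σ hσ =>
    hO.stable hun (s σ) (σ : κ ≃+* κ) (hs.const σ) (hs.fixx σ) hσ
  have stn : ∀ σ : κ ≃ₐ[k] κ, Dec V σ → ∀ z, s σ z ∈ O.nonunits ↔ z ∈ O.nonunits := fun σ hσ =>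
    stable_non (st σ hσ)
  have gt : ∀ (γ : M ≃ₐ[R] M) z, γ z ∈ O ↔ z ∈ O := fun γ => hO.stable' hun γ
  have gtn : ∀ (γ : M ≃ₐ[R] M) z, γ z ∈ O.nonunits ↔ z ∈ O.nonunits := fun γ =>
    stable_non (τ := (γ : M ≃+* M)) (gt γ)
  have wgt : ∀ σ : κ ≃ₐ[k] κ, Ine V σ → σ δ₁ = δ₁ → ∀ z ∈ O, s σ z - z ∈ O.nonunits :=
    wgt' ℓ A k κ R M V ϖ δ₁ m hB x B Y hC hGood F r hr D s _ hs₁ δ hδ0 hδk hs O hO hun
  have UL : ∀ γ γ' : M ≃ₐ[R] M, (∀ z ∈ O, γ z - γ' z ∈ O.nonunits) → γ = γ' :=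
    unique_lift a_g2 hC hℓ hO hun
  have smul : ∀ (σ σ' : κ ≃ₐ[k] κ) z, s (σ * σ') z = s σ (s σ' z) := by
    intro σ σ' z
    rw [map_mul]; rfl
  have sinv : ∀ (σ : κ ≃ₐ[k] κ) z, s σ⁻¹ (s σ z) = z := by
    intro σ z
    rw [← smul, inv_mul_cancel, map_one]; rfl
  have sinv' : ∀ (σ : κ ≃ₐ[k] κ) z, s σ (s σ⁻¹ z) = z := by
    intro σ z
    rw [← smul, mul_inv_cancel, map_one]; rfl
  have ssymm : ∀ (σ : κ ≃ₐ[k] κ) z, (s σ).symm z = s σ⁻¹ z := by
    intro σ z
    rw [RingEquiv.symm_apply_eq, sinv']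
  obtain ⟨-, τ, hτ, hτδ, hτℓ, hτa⟩ := a_tau ℓ A k κ V ϖ δ₁ m hB
  -- the lift of `s τ`
  obtain ⟨γ, hγ⟩ := exists_lift a_g3 hC hO hun (s τ) (st τ hτ.1) (fun c hc => by
    rw [hs.const, ← map_sub, hO.nonunit]; exact hτ.2 c hc) (hs.fixx τ)
  have hpow : ∀ (n : ℕ), ∀ z ∈ O, (γ ^ n) z - s (τ ^ n) z ∈ O.nonunits := by
    intro n
    induction n with
    | zero =>
      intro z hz
      rw [pow_zero, pow_zero, map_one]
      change z - z ∈ _
      rw [sub_self]; exact nonunits_iff.2 ⟨zero_mem _, Or.inl rfl⟩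
    | succ n ih =>
      intro z hz
      rw [pow_succ, pow_succ, smul]
      change (γ ^ n) (γ z) - _ ∈ _
      have h1 : (γ ^ n) (γ z) - s (τ ^ n) (s τ z) =
          ((γ ^ n) (γ z) - s (τ ^ n) (γ z)) + s (τ ^ n) (γ z - s τ z) := by
        rw [map_sub]; ring
      rw [h1]
      exact non_add (ih _ ((gt γ z).2 hz)) ((stn _ (hτ.pow n).1 _).2 (hγ z hz))
  have hγℓ : γ ^ ℓ = 1 := by
    apply UL
    intro z hz
    change _ - z ∈ _
    have h1 : (γ ^ ℓ) z - z = ((γ ^ ℓ) z - s (τ ^ ℓ) z) + (s (τ ^ ℓ) z - z) := by ring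
    rw [h1]
    exact non_add (hpow ℓ z hz) (wgt _ (hτ.pow ℓ) hτℓ z hz)
  have hζℓ : (τ δ / δ) ^ ℓ = 1 := by
    obtain ⟨d, hd⟩ := hδk
    rw [div_pow, ← map_pow, hd, τ.commutes, ← hd, div_self (pow_ne_zero _ hδ0)]
  have hγY : γ Y = algebraMap κ M (τ δ / δ) * Y := by
    obtain ⟨ζ, hζ, h1⟩ := hC.actY hY0 γ
    have h2 := hγ Y hYU.2.1
    rw [h1, hs.fixy, ← sub_mul, mul_comm, ← map_sub] at h2
    have h3 := (hO.nonunit).1 (non_of_isU_mul hYU h2)
    rw [h1, root_eq hℓ hp hζ hζℓ h3]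
  have hγ1 : γ = 1 := by
    by_contra hγ1
    obtain ⟨W, hW⟩ := a_exf ℓ κ R M x B Y hC γ hγℓ hγ1
    apply (hC.fixed a_stab W γ hW hγ1).1
    rw [hγY, hI τ hτ, div_self hδ0, map_one, one_mul]
  intro O' hO' σ hσ z hz
  have hOO := hun O' hO'
  subst hOO
  obtain ⟨a, ha⟩ := hτa σ hσ
  have hρI : Ine V (τ⁻¹ ^ a * σ) := (hτ.inv.pow a).mul hσ
  have h2 : σ = τ ^ a * (τ⁻¹ ^ a * σ) := by
    rw [inv_pow, mul_inv_cancel_left]
  have h5 := hpow a z hz
  rw [hγ1, one_pow] at h5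
  change z - s (τ ^ a) z ∈ _ at h5
  have h3 : s (τ ^ a) (s (τ⁻¹ ^ a * σ) z - z) ∈ O'.nonunits :=
    (stn _ (hτ.pow a).1 _).2 (wgt _ hρI ha z hz)
  have h4 : s σ z - z = s (τ ^ a) (s (τ⁻¹ ^ a * σ) z - z) - (z - s (τ ^ a) z) := by
    conv_lhs => rw [h2, smul]
    rw [map_sub]
    ring
  rw [h4]
  exact non_sub h3 h5

section absI

variable {A k κ R F Ω : Type} [CommRing A] [IsDomain A] [IsDiscreteValuationRing A]
    [Finite (IsLocalRing.ResidueField A)] [Field k] [CharZero k] [Algebra A k] [IsFractionRing A k]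
    [Field κ] [Algebra k κ] [Algebra A κ] [IsScalarTower A k κ] [IsAlgClosure k κ]
    [Field R] [Field F] [Field Ω] [Algebra κ R] [Algebra R Ω] [Algebra κ Ω]
    [IsScalarTower κ R Ω] [IsAlgClosure R Ω] [Algebra F Ω] [Algebra.IsAlgebraic F Ω]

theorem geoI3 {ℓ : ℕ} [Fact ℓ.Prime]
    (V : ValuationSubring κ)
    (hVa : ∀ a : A, algebraMap A κ a ∈ V)
    (hVm : ∀ a ∈ IsLocalRing.maximalIdeal A, algebraMap A κ a ∈ V.nonunits)
    (ϖ : A) (δ₁ : κ) (m : ℤ) (hBase : Base ℓ A k κ V ϖ δ₁ m)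
    (x' : R) (B : Finset κ) (hGood : Good V B) (hB : ∀ σ : κ ≃ₐ[k] κ, ∀ e ∈ B, σ e ∈ B)
    (M : IntermediateField R Ω) (Y' : M) (hCov : Cov ℓ κ R M x' B Y') (hY0 : Y' ≠ 0)
    (x : F) (hx : algebraMap R Ω x' = algebraMap F Ω x)
    (N : IntermediateField F Ω) (hMN : ∀ z, z ∈ M ↔ z ∈ N)
    (S : (κ ≃ₐ[k] κ) →* (N ≃ₐ[F] N)) (hcont : Continuous S)
    (hcompat : ∀ σ c (z : N), (z : Ω) = algebraMap κ Ω c → (S σ z : Ω) = algebraMap κ Ω (σ c))
    (hfixY : ∀ σ : κ ≃ₐ[k] κ, Ine V σ → ∀ z : N, (z : Ω) = (Y' : Ω) → S σ z = z) :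
    ∀ O : ValuationSubring N, (∀ (c : κ) (z : N), (z : Ω) = algebraMap κ Ω c → (z ∈ O ↔ c ∈ V)) →
      (∀ p : κ[X], (∀ n, p.coeff n ∈ V) → (∃ n, IsU V (p.coeff n)) →
        ∀ z : N, (z : Ω) = aeval (algebraMap F Ω x) p → IsU O z) →
      ∀ σ : κ ≃ₐ[k] κ, Ine V σ → ∀ z ∈ O, S σ z - z ∈ O.nonunits := by
  classical
  have hkb : IsAlgClosed κ := IsAlgClosure.isAlgClosed k
  have hch : CharZero κ := charZero_of_injective_algebraMap (algebraMap k κ).injective
  let eqv : M ≃+* N :=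
    { toFun := fun w => ⟨w.1, (hMN _).1 w.2⟩
      invFun := fun w => ⟨w.1, (hMN _).2 w.2⟩
      left_inv := fun w => rfl
      right_inv := fun w => rfl
      map_mul' := fun w w' => rfl
      map_add' := fun w w' => rfl }
  have heqv : ∀ w : M, ((eqv w : N) : Ω) = (w : Ω) := fun w => rfl
  have hc : ∀ c : κ, ((eqv (algebraMap κ M c) : N) : Ω) = algebraMap κ Ω c := fun c => rfl
  have hx' : eqv (algebraMap R M x') = algebraMap F N x := Subtype.ext hx
  let s' : (κ ≃ₐ[k] κ) →* RingAut M := conjSec eqv S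
  have hs' : ∀ σ z, eqv (s' σ z) = S σ (eqv z) := fun σ z => conjSec_apply eqv S σ z
  have hconst : ∀ σ c, s' σ (algebraMap κ M c) = algebraMap κ M (σ c) := by
    intro σ c
    apply eqv.injective
    rw [hs']
    exact Subtype.ext (hcompat σ c _ rfl)
  have hbase : ∀ σ (z : F) (w : M), eqv w = algebraMap F N z → s' σ w = w := by
    intro σ z w hw
    apply eqv.injective
    rw [hs', hw]
    exact (S σ).commutes z
  have hcont' : ∀ z : M, ∃ E : IntermediateField k κ, FiniteDimensional k E ∧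
      ∀ σ ∈ E.fixingSubgroup, s' σ z = z := by
    intro z
    obtain ⟨E, hE, hE'⟩ := cont_fix S hcont (eqv z)
    refine ⟨E, hE, fun σ hσ => eqv.injective ?_⟩
    rw [hs', hE' σ hσ]
  obtain ⟨δ, hδ0, hδk, hSec⟩ := exists_delta (k := k) hCov hB s' hconst (fun σ => hbase σ x _ hx')
    hcont'
  have hI : ∀ σ : κ ≃ₐ[k] κ, Ine V σ → σ δ = δ := by
    intro σ hσ
    have h1 := hSec.fixy σ
    have h2 : s' σ Y' = Y' := by
      apply eqv.injective
      rw [hs']
      exact hfixY σ hσ _ rfl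
    rw [h2] at h1
    have h3 : algebraMap κ M (σ δ / δ) = 1 := by
      have h4 : algebraMap κ M (σ δ / δ) * Y' = 1 * Y' := by rw [← h1, one_mul]
      exact mul_right_cancel₀ hY0 h4
    rw [← map_one (algebraMap κ M)] at h3
    have h4 := (algebraMap κ M).injective h3
    rwa [div_eq_one_iff_eq hδ0] at h4
  obtain ⟨F0, iF0, r, hr, ⟨D⟩⟩ := a_ndisc A k κ V hVa hVm ℓ hBase.lunit
  have hL := loc3 ℓ A k κ R M V ϖ δ₁ m hBase x' B Y' hCov hGood F0 r hr D s' δ hδ0 hδk hSec hI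
  intro O hO1 hO2 σ hσ z hz
  have hmem' : ∀ z : M, z ∈ O.comap (eqv : M →+* N) ↔ eqv z ∈ O := fun z => Iff.rfl
  have hG : Gauss V (algebraMap R M x') (O.comap (eqv : M →+* N)) := by
    refine ⟨fun c => ?_, fun p hp hp' => ?_⟩
    · rw [hmem']
      exact hO1 c _ rfl
    · have h5 : (eqv (aeval (algebraMap R M x') p) : Ω) = aeval (algebraMap F Ω x) p := by
        rw [heqv, ← hx]
        haveI : IsScalarTower κ M Ω := IsScalarTower.of_algebraMap_eq fun c => rfl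
        have h5 : aeval (algebraMap M Ω (algebraMap R M x')) p =
            algebraMap M Ω (aeval (algebraMap R M x') p) := aeval_algebraMap_apply Ω _ p
        exact h5.symm
      obtain ⟨h1, h2, h3⟩ := hO2 p hp hp' _ h5
      refine ⟨fun h0 => h1 ?_, ?_, ?_⟩
      · rw [h0, map_zero]
      · rw [hmem']; exact h2
      · rw [hmem', map_inv₀]; exact h3
  have h1 := hL _ hG σ hσ (eqv.symm z) (by rw [hmem', eqv.apply_symm_apply]; exact hz)
  rw [comap_non, map_sub, hs', eqv.apply_symm_apply] at h1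
  exact h1

end absI

section main

variable {A k F Ω : Type} [CommRing A] [IsDomain A] [IsDiscreteValuationRing A]
    [IsAdicComplete (IsLocalRing.maximalIdeal A) A]
    [Finite (IsLocalRing.ResidueField A)] [Field k] [CharZero k] [Algebra A k] [IsFractionRing A k]
    [Field F] [Field Ω] [Algebra k F] [Algebra F Ω] [Algebra k Ω] [IsScalarTower k F Ω]
    [IsAlgClosed Ω] [Algebra.IsAlgebraic F Ω]

theorem padic3 {ℓ : ℕ} [Fact ℓ.Prime]
    (hℓ : IsUnit (ℓ : A)) (f : A[X]) (hlc : IsUnit f.leadingCoeff)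
    (hs : (f.map (IsLocalRing.residue A)).Separable) (hdvd : ℓ ∣ f.natDegree)
    (h3 : 3 ≤ f.natDegree)
    (x : F) (hx : Transcendental k x)
    (halg : Algebra.IsAlgebraic (IntermediateField.adjoin k {x}) F)
    (hcov : ∀ z : F, algebraMap F Ω z ∈
      orbi (K := IntermediateField.adjoin (algebraicClosure k Ω) {algebraMap F Ω x}) ℓ k
        (algebraMap F Ω (aeval x (f.map (algebraMap A k)))))
    (hunr : ∀ W : ValuationSubring Ω, (∀ c : k, algebraMap k Ω c ∈ W) →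
      algebraMap F Ω (aeval x (f.map (algebraMap A k))) ∈ W.nonunits →
      ∃ t ∈ geomF k F Ω, t ≠ 0 ∧
        IsU W (t ^ ℓ / algebraMap F Ω (aeval x (f.map (algebraMap A k)))))
    (S : (algebraicClosure k Ω ≃ₐ[k] algebraicClosure k Ω) →*
      (geomPro ℓ k F Ω ≃ₐ[F] geomPro ℓ k F Ω)) (hcont : Continuous S)
    (hcompat : ∀ σ (c : algebraicClosure k Ω) (z : geomPro ℓ k F Ω), (z : Ω) = (c : Ω) →
      (S σ z : Ω) = (σ c : Ω))
    (u : A) (hu : IsUnit u) (y : geomPro ℓ k F Ω) (hfixy : ∀ σ, S σ y = y)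
    (hy : algebraMap k Ω (algebraMap A k u) * (y : Ω) ^ ℓ =
      algebraMap F Ω (aeval x (f.map (algebraMap A k))))
    (O : ValuationSubring Ω) (hO : GaussO A k (algebraMap F Ω x) O)
    (σ : algebraicClosure k Ω ≃ₐ[k] algebraicClosure k Ω)
    (hσ : ∀ c : algebraicClosure k Ω, (c : Ω) ∈ O → ((σ c - c : algebraicClosure k Ω) : Ω) ∈
        O.nonunits) (z : geomPro ℓ k F Ω) (hz : (z : Ω) ∈ O) :
    ((S σ z - z : geomPro ℓ k F Ω) : Ω) ∈ O.nonunits := by
  classical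
  have hℓp : ℓ.Prime := Fact.out
  have hac : IsAlgClosure k (algebraicClosure k Ω) := inferInstance
  have hkb : IsAlgClosed (algebraicClosure k Ω) := hac.1
  have hch : CharZero (algebraicClosure k Ω) :=
    charZero_of_injective_algebraMap (algebraMap k (algebraicClosure k Ω)).injective
  have : Normal k (algebraicClosure k Ω) := IsAlgClosure.normal k _
  letI : Algebra A (algebraicClosure k Ω) :=
    ((algebraMap k (algebraicClosure k Ω)).comp (algebraMap A k)).toAlgebra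
  haveI hst : IsScalarTower A k (algebraicClosure k Ω) :=
    IsScalarTower.of_algebraMap_eq (fun _ => rfl)
  obtain ⟨V, hVa', hVm', hdec⟩ := V_setup A (k := k) (κ := algebraicClosure k Ω)
  have hVa : ∀ a : A, algebraMap A (algebraicClosure k Ω) a ∈ V := hVa'
  have hVm : ∀ a ∈ IsLocalRing.maximalIdeal A, algebraMap A (algebraicClosure k Ω) a ∈
      V.nonunits := hVm'
  have hX0 : Transcendental k (algebraMap F Ω x) :=
    (transcendental_algebraMap_iff (R := k) (algebraMap F Ω).injective (a := x)).2 hx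
  have hrat := ratF_adj (trans_up hX0)
  haveI hclR : IsAlgClosure (IntermediateField.adjoin (algebraicClosure k Ω) {algebraMap F Ω x}) Ω :=
    closure_R' halg
  obtain ⟨hgeo0, -, -, -⟩ := geo2_abs (R := IntermediateField.adjoin (algebraicClosure k Ω)
    {algebraMap F Ω x}) ⟨algebraMap F Ω x, IntermediateField.mem_adjoin_simple_self _ _⟩ hrat V
    hVa hVm hℓ f hlc hs hdvd h3 x rfl hcov hunr
  have hunit : ∀ b : A, IsUnit b → IsU V (algebraMap A (algebraicClosure k Ω) b) := by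
    rintro b ⟨b, rfl⟩
    refine ⟨(b.isUnit.map (algebraMap A (algebraicClosure k Ω))).ne_zero, hVa _, ?_⟩
    have h1 : (algebraMap A (algebraicClosure k Ω) (b : A))⁻¹ =
        algebraMap A (algebraicClosure k Ω) ((b⁻¹ : Aˣ) : A) := by
      refine inv_eq_of_mul_eq_one_right ?_
      rw [← map_mul, Units.mul_inv, map_one]
    rw [h1]
    exact hVa _
  have hAk : Function.Injective (algebraMap A k) := IsFractionRing.injective A k
  obtain ⟨ϖ, hϖ⟩ := IsDiscreteValuationRing.exists_irreducible A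
  have hϖk0 : algebraMap A k ϖ ≠ 0 := by
    rw [Ne, map_eq_zero_iff _ hAk]
    exact hϖ.ne_zero
  obtain ⟨δ, hδ⟩ : ∃ δ : algebraicClosure k Ω, δ ^ ℓ =
      algebraMap k (algebraicClosure k Ω) (algebraMap A k ϖ) :=
    IsAlgClosed.exists_pow_nat_eq _ hℓp.pos
  have hBase : Base ℓ A k (algebraicClosure k Ω) V ϖ δ 1 := by
    refine ⟨hℓ, hVa, hVm, hϖ, ?_, ⟨_, hδ⟩, ?_⟩
    · intro h
      have h1 := Int.eq_one_of_dvd_one (by positivity) h
      exact hℓp.one_lt.ne' (by exact_mod_cast h1)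
    · rw [hδ, zpow_one, ← IsScalarTower.algebraMap_apply, div_self]
      · exact isU_one
      · rw [IsScalarTower.algebraMap_apply A k]
        exact (_root_.map_ne_zero _).2 hϖk0
  obtain ⟨B, M, Y0, c, hGood, hmemB, hc, hfX', hCov, horb⟩ := setup_cov (ℓ := ℓ)
    (R := IntermediateField.adjoin (algebraicClosure k Ω) {algebraMap F Ω x})
    ⟨algebraMap F Ω x, IntermediateField.mem_adjoin_simple_self _ _⟩ hrat V hVa hVm
    f hlc hs hdvd h3 x rfl
  have hMN : ∀ z, z ∈ M ↔ z ∈ geomPro ℓ k F Ω := fun z => (horb z).trans (hgeo0 z).symm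
  have hBstab : ∀ σ : algebraicClosure k Ω ≃ₐ[k] algebraicClosure k Ω, ∀ e ∈ B, σ e ∈ B := by
    intro σ e he
    rw [hmemB] at he ⊢
    have h3 := aeval_algHom_apply σ.toAlgHom e (f.map (algebraMap A k))
    rw [he, map_zero] at h3
    exact h3
  have hXκ : Transcendental (algebraicClosure k Ω) (algebraMap F Ω x) := trans_up hX0
  -- the leading coefficient
  have hcl : c = algebraMap A (algebraicClosure k Ω) f.leadingCoeff := by
    have h1 : f.map (algebraMap A (algebraicClosure k Ω)) = C c * ∏ e ∈ B, (X - C e) := by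
      apply (transcendental_iff_injective.1 hXκ)
      rw [map_mul, aeval_C, map_prod]
      have h4 : aeval (algebraMap F Ω x) (f.map (algebraMap A (algebraicClosure k Ω))) =
          algebraMap F Ω (aeval x (f.map (algebraMap A k))) := by
        rw [aeval_def, aeval_def, hom_eval₂, eval₂_map, eval₂_map]
        congr 1
        ext a
        exact IsScalarTower.algebraMap_apply k F Ω _
      rw [h4, hfX']
      congr 1
      refine Finset.prod_congr rfl fun e _ => ?_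
      rw [map_sub, aeval_X, aeval_C]
      rfl
    have h2 := congrArg leadingCoeff h1
    have h5 : (∏ e ∈ B, (X - C e)).Monic := monic_prod_of_monic _ _ fun e _ => monic_X_sub_C e
    have h6 : (f.map (algebraMap A (algebraicClosure k Ω))).leadingCoeff =
        algebraMap A (algebraicClosure k Ω) f.leadingCoeff :=
      leadingCoeff_map_of_leadingCoeff_ne_zero _ (hunit _ hlc).1
    rw [leadingCoeff_mul, leadingCoeff_C, h5.leadingCoeff, mul_one, h6] at h2
    exact h2.symm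
  have hXe : ∀ e : algebraicClosure k Ω,
      algebraMap F Ω x - algebraMap (algebraicClosure k Ω) Ω e ≠ 0 := by
    intro e h0
    apply hXκ
    rw [sub_eq_zero.1 h0]
    exact isAlgebraic_algebraMap _
  have hY0ℓ : (Y0 : Ω) ^ ℓ = ∏ e ∈ B, (algebraMap F Ω x - algebraMap (algebraicClosure k Ω) Ω e) := by
    have h1 : ((Y0 ^ ℓ : M) : Ω) = _ := congrArg (fun z : M => (z : Ω)) hCov.eqn
    have h2 : ((Y0 ^ ℓ : M) : Ω) = (Y0 : Ω) ^ ℓ := rfl
    rw [← h2, h1]
    exact map_prod (algebraMap M Ω) _ _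
  have hY0ne : (Y0 : Ω) ≠ 0 := by
    intro h0
    rw [h0, zero_pow hℓp.ne_zero] at hY0ℓ
    exact (Finset.prod_ne_zero_iff.2 fun e _ => hXe e) hY0ℓ.symm
  have hY0ne' : Y0 ≠ 0 := fun h => hY0ne (by rw [h]; rfl)
  -- `ε`
  have hεℓ : ((y : Ω) / (Y0 : Ω)) ^ ℓ = ((algebraMap A (algebraicClosure k Ω) f.leadingCoeff /
      algebraMap A (algebraicClosure k Ω) u : algebraicClosure k Ω) : Ω) := by
    have h1 : ((algebraMap A (algebraicClosure k Ω) f.leadingCoeff /
        algebraMap A (algebraicClosure k Ω) u : algebraicClosure k Ω) : Ω) =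
        algebraMap (algebraicClosure k Ω) Ω c / algebraMap k Ω (algebraMap A k u) := by
      rw [← hcl]; rfl
    have h2 : algebraMap k Ω (algebraMap A k u) ≠ 0 := by
      rw [_root_.map_ne_zero]
      exact (hu.map (algebraMap A k)).ne_zero
    rw [h1, div_pow, div_eq_div_iff (pow_ne_zero _ hY0ne) h2, mul_comm, hy, hfX', hY0ℓ]
    rfl
  have hεalg : IsAlgebraic k ((y : Ω) / (Y0 : Ω)) := by
    refine IsAlgebraic.of_pow hℓp.pos ?_
    rw [hεℓ]
    exact (SetLike.coe_mem (_ : algebraicClosure k Ω)).isAlgebraic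
  obtain ⟨ε, hε⟩ : ∃ ε : algebraicClosure k Ω, (ε : Ω) = (y : Ω) / (Y0 : Ω) :=
    ⟨⟨_, hεalg.isIntegral⟩, rfl⟩
  have hεℓ' : ε ^ ℓ = algebraMap A (algebraicClosure k Ω) f.leadingCoeff /
      algebraMap A (algebraicClosure k Ω) u := by
    apply Subtype.ext
    rw [← hεℓ, ← hε]
    rfl
  have hεU : IsU V ε := by
    refine isU_of_pow hℓp.pos ?_
    rw [hεℓ']
    exact (hunit _ hlc).div (hunit _ hu)
  have hεfix : ∀ σ : algebraicClosure k Ω ≃ₐ[k] algebraicClosure k Ω, Ine V σ → σ ε = ε := by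
    intro σ hσ
    refine root_eq' hℓp.pos hBase.isU hεU ?_ (hσ.2 ε hεU.2.1)
    rw [← map_pow, hεℓ', map_div₀]
    have h1 : ∀ a : A, σ (algebraMap A (algebraicClosure k Ω) a) =
        algebraMap A (algebraicClosure k Ω) a := fun a => σ.commutes (algebraMap A k a)
    rw [h1, h1]
  have hfixY : ∀ σ : algebraicClosure k Ω ≃ₐ[k] algebraicClosure k Ω, Ine V σ →
      ∀ z : geomPro ℓ k F Ω, (z : Ω) = (Y0 : Ω) → S σ z = z := by
    intro σ hσ z hz
    let zε : geomPro ℓ k F Ω := ⟨(ε : Ω), const_geomPro ℓ k ε⟩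
    have h1 : y = zε * z := by
      apply Subtype.ext
      change (y : Ω) = (ε : Ω) * (z : Ω)
      rw [hz, hε, div_mul_cancel₀ _ hY0ne]
    have h2 : S σ zε = zε := by
      apply Subtype.ext
      rw [hcompat σ ε zε rfl, hεfix σ hσ]
    have h3 := hfixy σ
    rw [h1, map_mul, h2] at h3
    refine mul_left_cancel₀ ?_ h3
    intro h0
    have h4 : (ε : Ω) = 0 := congrArg Subtype.val h0
    exact hεU.1 (Subtype.ext h4)
  have hL := geoI3 V hVa hVm ϖ δ 1 hBase _ B hGood hBstab M Y0 hCov hY0ne' x rfl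
      (geomPro ℓ k F Ω) hMN S hcont (fun σ c z hz => hcompat σ c z hz) hfixY
  have hmemO := gaussO_mem hVa' hVm' hdec hO
  have hnonO := gaussO_non hmemO
  have h5 := hL (O.comap (algebraMap (geomPro ℓ k F Ω) Ω)) (fun c z hz => by
      rw [← hmemO c]
      change (z : Ω) ∈ O ↔ _
      rw [hz]
      rfl) (fun p hp hp' z hz => by
      have h6 := gaussO_spec hVa' hVm' hdec hO p hp hp'
      rw [← hz] at h6
      exact ⟨fun h => h6.1 (by rw [h]; rfl), h6.2.1, h6.2.2⟩) σ ⟨hdec σ, fun c hc => by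
        rw [← hnonO]
        exact hσ c ((hmemO c).2 hc)⟩ z hz
  rw [non_incl] at h5
  exact h5

end main

open Pool.Agent.Results.MP_c385f6_ag Pool.Agent.Results.MP_c385f6_ag.EtaleCoverings in
/-- **a section which fixes `y` with `u y^ℓ = f(x)`, `u` a unit, is unramified** -/
theorem unram_of_fixes (A k : Type) [CommRing A] [IsDomain A] [IsDiscreteValuationRing A]
    [IsAdicComplete (IsLocalRing.maximalIdeal A) A] [Finite (IsLocalRing.ResidueField A)]
    [Field k] [CharZero k] [Algebra A k] [IsFractionRing A k] (ℓ : ℕ) [Fact ℓ.Prime] (f : A[X])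
    (hℓ : IsUnit (ℓ : A)) (hf : EtaleCoverings.GoodPolynomial ℓ f) (F Ω : Type) [Field F]
    [Field Ω] [Algebra k F] [Algebra F Ω] [Algebra k Ω] [IsScalarTower k F Ω] [IsAlgClosure F Ω]
    (x : F) (hC : EllMonodromyCovers.EllCovering ℓ Ω (f.map (algebraMap A k)) x)
    (N : IntermediateField F Ω) (hN : EtaleCoverings.proEllField ℓ k F Ω ≤ N)
    (s : EtaleCoverings.Splitting k F Ω (algebraicClosure k Ω) N) (u : A) (hu : IsUnit u) (y : N)
    (hyM : (y : Ω) ∈ EtaleCoverings.proEllField ℓ k F Ω) (hfix : ∀ σ, s.toHom σ y = y)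
    (hy : algebraMap k Ω (algebraMap A k u) * (y : Ω) ^ ℓ =
      algebraMap F Ω (aeval x (f.map (algebraMap A k)))) :
    EllMonodromyCovers.IsUnramified A x (EtaleCoverings.proEllField ℓ k F Ω) s := by
  obtain ⟨hlc, hs, hdvd, h3⟩ := hf
  obtain ⟨hx, halg, hmem, hram⟩ := hC
  have hcl : IsAlgClosed Ω := IsAlgClosure.isAlgClosed F
  have halgΩ : Algebra.IsAlgebraic F Ω := IsAlgClosure.isAlgebraic
  have hu0 : algebraMap F Ω (aeval x (f.map (algebraMap A k))) ≠ 0 := by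
    rw [_root_.map_ne_zero]
    intro h0
    have h1 : f.map (algebraMap A k) ≠ 0 := by
      intro h2
      have h4 : algebraMap A k f.leadingCoeff ≠ 0 := (hlc.map (algebraMap A k)).ne_zero
      apply h4
      rw [← leadingCoeff_map_of_leadingCoeff_ne_zero _ h4, h2, leadingCoeff_zero]
    exact h1 ((transcendental_iff.1 hx) _ h0)
  have hcov : ∀ z : F, algebraMap F Ω z ∈ orbi (K := IntermediateField.adjoin
      (algebraicClosure k Ω) {algebraMap F Ω x}) ℓ k
      (algebraMap F Ω (aeval x (f.map (algebraMap A k)))) := by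
    intro z
    rw [← EllMonodromyCovers.universal_eq]
    exact hmem z
  have hunr : ∀ W : ValuationSubring Ω, (∀ c : k, algebraMap k Ω c ∈ W) →
      algebraMap F Ω (aeval x (f.map (algebraMap A k))) ∈ W.nonunits →
      ∃ t ∈ geomF k F Ω, t ≠ 0 ∧ IsU W
        (t ^ ℓ / algebraMap F Ω (aeval x (f.map (algebraMap A k)))) := by
    intro W hW h
    obtain ⟨t, ht, ht0, h5⟩ := hram W hW h
    exact ⟨t, ht, ht0, (EllMonodromyCovers.same_iff (pow_ne_zero _ ht0) hu0).2 h5⟩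
  have hN' := hN
  rw [proEll_eq] at hN' hyM
  obtain ⟨T, hTc, hT⟩ := a_ind2 ℓ k F Ω x hx halg N hN' _ s.toHom s.cont
  have hTcompat : ∀ σ (c : algebraicClosure k Ω) (z : geomPro ℓ k F Ω), (z : Ω) = (c : Ω) →
      (T σ z : Ω) = (σ c : Ω) := by
    intro σ c z hz
    have h1 : (z : Ω) ∈ N := hN' z.2
    rw [hT σ ⟨(z : Ω), h1⟩ z rfl]
    exact s.compat σ c _ hz
  intro O hO σ hσ z hz hzO
  rw [proEll_eq] at hz
  have h5 := padic3 hℓ f hlc hs hdvd h3 x hx halg hcov hunr T hTc hTcompat u hu ⟨(y : Ω), hyM⟩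
    (fun σ => Subtype.ext (by
      rw [hT σ y ⟨(y : Ω), hyM⟩ rfl, hfix σ])) hy O hO σ
    (fun c hc => hσ c (Set.mem_univ _) hc) ⟨(z : Ω), hz⟩ hzO
  have h6 : ((s.toHom σ z - z : N) : Ω) = ((T σ ⟨(z : Ω), hz⟩ - ⟨(z : Ω), hz⟩ :
      geomPro ℓ k F Ω) : Ω) := by
    have h7 := hT σ z ⟨(z : Ω), hz⟩ rfl
    change ((s.toHom σ z : N) : Ω) - (z : Ω) = ((T σ ⟨(z : Ω), hz⟩ : geomPro ℓ k F Ω) : Ω) - (z : Ω)
    rw [h7]
  change ((s.toHom σ z - z : N) : Ω) ∈ O.nonunits
  rw [h6]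
  exact h5

end Pool.Agent.H71MX
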