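import Pool.Agent.H71MX.NoFix
import Pool.Agent.H71MX.Unram

/-! # Sections of fields between `k(x)` and the universal field of index `ℓ`, 2 -/

set_option autoImplicit false
set_option linter.style.haveILetI false

open Polynomial

namespace Pool.Agent.H71MX

open Pool.Agent.Y157.PS
open Pool.Agent.H59.SCT
open Pool.Agent.Results.MP_c385f6_ag
open EllMonodromyCovers (IsGauss ActsTrivially)

/-- the theorem for coverings of index `ℓ` -/
theorem ellB (A k : Type) [CommRing A] [IsDomain A] [IsDiscreteValuationRing A]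
    [IsAdicComplete (IsLocalRing.maximalIdeal A) A] [Finite (IsLocalRing.ResidueField A)]
    [Field k] [CharZero k] [Algebra A k] [IsFractionRing A k] (ℓ : ℕ) [Fact ℓ.Prime]
    (f : A[X]) (hℓ : IsUnit (ℓ : A)) (hf : EtaleCoverings.GoodPolynomial ℓ f)
    (hf0 : IsUnit (f.coeff 0))
    (Ω : Type) [Field Ω] [Algebra k Ω] [IsAlgClosed Ω] (F : IntermediateField k Ω) (x : F) (y : Ω)
    (hx : Transcendental k (x : Ω))
    (halg : Algebra.IsAlgebraic (IntermediateField.adjoin k {(x : Ω)}) Ω)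
    (hy : y ^ ℓ = aeval (x : Ω) (f.map (algebraMap A k)))
    (hF : F ≤ proEll ℓ (IntermediateField.adjoin k {(x : Ω), y})) (N : IntermediateField F Ω)
    (hN : ∀ z ∈ proEll ℓ (IntermediateField.adjoin k {(x : Ω), y}), z ∈ N) (s : Splitting F N) :
    Unram A (x : Ω) (proEll ℓ (IntermediateField.adjoin k {(x : Ω), y})) s ∨
    FromOneRationalPlace (proEll ℓ (IntermediateField.adjoin k {(x : Ω), y})) s
      (fun W => algebraMap F N (aeval x (f.map (algebraMap A k))) ∈ W.nonunits)
      (fun W => algebraMap F N x ∈ W.nonunits ∨ algebraMap F N x⁻¹ ∈ W.nonunits ∨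
        algebraMap F N (aeval x (f.map (algebraMap A k))) ∈ W.nonunits) := by
  have hp := (Fact.out : ℓ.Prime).pos
  have hxF : (x : Ω) ∈ F := x.2
  obtain ⟨hlc, hs, hdvd, h3⟩ := hf
  have hsep := good_sep (k := k) hlc hs
  -- the polynomial is not zero at `x`
  have hevx : aeval (x : Ω) (f.map (algebraMap A k)) ≠ 0 := by
    intro h0
    exact hx ⟨_, hsep.ne_zero, h0⟩
  have hy0 : y ≠ 0 := by
    rintro rfl
    rw [zero_pow hp.ne'] at hy
    exact hevx hy.symm
  have hyx : y ^ ℓ ∈ IntermediateField.adjoin k {(x : Ω)} := by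
    rw [hy]
    have h1 : (x : Ω) ∈ IntermediateField.adjoin k {(x : Ω)} :=
      IntermediateField.mem_adjoin_simple_self k _
    have h3 := aeval_algebraMap_apply Ω (⟨_, h1⟩ : IntermediateField.adjoin k {(x : Ω)})
        (f.map (algebraMap A k))
    have h2 : aeval (x : Ω) (f.map (algebraMap A k)) =
        ((aeval (⟨_, h1⟩ : IntermediateField.adjoin k {(x : Ω)}) (f.map (algebraMap A k)) :
          IntermediateField.adjoin k {(x : Ω)}) : Ω) := h3
    rw [h2]
    exact SetLike.coe_mem _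
  obtain ⟨δ, d, y', hδ, hd, hy', hdy, hδd, hyN, h, s', hs', hM⟩ := reduction hp hx halg hy0 hyx F
    hxF hF N hN s
  -- notation
  set F' : IntermediateField k Ω := IntermediateField.adjoin k {(x : Ω), y'} with hF'
  have hxF' : (x : Ω) ∈ F' := IntermediateField.subset_adjoin _ _ (by simp)
  have hyF' : y' ∈ F' := IntermediateField.subset_adjoin _ _ (by simp)
  haveI := alg_over halg F' hxF'
  haveI : IsAlgClosure F' Ω := ⟨inferInstance, inferInstance⟩
  let N' : IntermediateField F' Ω := same N F' h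
  have hx'tr : Transcendental k (⟨x, hxF'⟩ : F') := fun h1 => hx (h1.algebraMap)
  have hE : EllMonodromyCovers.ElementaryCovering Ω ℓ f (fun _ : Unit => f) (fun _ => d)
      (⟨x, hxF'⟩ : F') (fun _ => ⟨y', hyF'⟩) := by
    refine ⟨hx'tr, fun _ => hd, fun _ => ?_, ?_, fun _ => ⟨1, by rw [pow_one]⟩, fun _ => hdvd,
      fun e he => ⟨(), ?_⟩⟩
    · apply (algebraMap F' Ω).injective
      rw [map_mul, map_pow, ← IsScalarTower.algebraMap_apply]
      refine hdy.trans (hy.trans ?_)
      exact aeval_algebraMap_apply Ω (⟨x, hxF'⟩ : F') (f.map (algebraMap A k))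
    · rw [Set.range_const]
      apply IntermediateField.map_injective F'.val
      rw [IntermediateField.adjoin_map, Set.image_insert_eq, Set.image_singleton]
      have h5 : IntermediateField.map F'.val ⊤ = F' := by
        ext z
        constructor
        · rintro ⟨w, -, rfl⟩
          exact w.2
        · intro hz
          exact ⟨⟨z, hz⟩, trivial, rfl⟩
      rw [h5]
      rfl
    · have h4 : (f.map ((algebraMap k Ω).comp (algebraMap A k))) =
          (f.map (algebraMap A k)).map (algebraMap k Ω) := (Polynomial.map_map _ _ _).symm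
      rw [h4]
      have h5 : ((f.map (algebraMap A k)).map (algebraMap k Ω)).Separable := hsep.map
      have h6 := rootMultiplicity_le_one_of_separable h5 e
      have h7 : 0 < ((f.map (algebraMap A k)).map (algebraMap k Ω)).rootMultiplicity e := by
        rw [rootMultiplicity_pos h5.ne_zero, IsRoot.def, eval_map]
        exact he
      intro h8
      have h9 := Nat.le_of_dvd h7 h8
      have := (Fact.out : ℓ.Prime).two_le
      omega
  obtain ⟨hgen, helem⟩ := EllMonodromyCovers.result A k ℓ f hℓ ⟨hlc, hs, hdvd, h3⟩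
  obtain ⟨hC, -⟩ := helem F' Ω Unit _ _ _ _ hE
  obtain ⟨-, -, hsec⟩ := hgen F' Ω _ hC
  let L : IntermediateField F' Ω := IntermediateField.adjoin F' (F : Set Ω)
  have hL : L ≤ EtaleCoverings.proEllField ℓ k F' Ω := by
    rw [EtaleCoverings.proEll_eq]
    rw [IntermediateField.adjoin_le_iff]
    intro z hz
    exact (hM z).2 (hF hz)
  have hN' : EtaleCoverings.proEllField ℓ k F' Ω ≤ N' := by
    rw [EtaleCoverings.proEll_eq]
    intro z hz
    exact hN z ((hM z).1 hz)
  let s'' : EtaleCoverings.Splitting k F' Ω (algebraicClosure k Ω) N' :=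
    ⟨s'.toHom, s'.cont, fun σ c z hz => s'.compat σ c z hz⟩
  have hFN : ∀ z ∈ F, z ∈ N := fun z hz => N.algebraMap_mem ⟨z, hz⟩
  have hsL : ∀ σ, ∀ z : N', algebraMap N' Ω z ∈ L → s''.toHom σ z = z := by
    intro σ z hz
    have h4 : L ≤ Pool.Agent.V11235.SL.fixF N' (s'.toHom σ) := by
      rw [IntermediateField.adjoin_le_iff]
      intro w hw
      refine ⟨hFN w hw, ?_⟩
      apply Subtype.ext
      rw [hs' σ ⟨w, hFN w hw⟩ ⟨w, hFN w hw⟩ rfl]
      have h5 : (⟨w, hFN w hw⟩ : N) = algebraMap F N ⟨w, hw⟩ := rfl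
      rw [h5, (s.toHom σ).commutes]
      rfl
    obtain ⟨h5, h6⟩ := h4 hz
    exact h6
  have hsecL := hsec L N' hL hN' s'' hsL
  let e : N ≃+* N' := sameEquiv N F' h
  have hfxN : ∀ z : N, (z : Ω) ∈ proEll ℓ (IntermediateField.adjoin k {(x : Ω), y}) ↔
      algebraMap N' Ω (e z) ∈ EtaleCoverings.proEllField ℓ k F' Ω := by
    intro z
    rw [EtaleCoverings.proEll_eq]
    exact (hM z).symm
  have hact : ∀ σ (z : N), e (s.toHom σ z) = s''.toHom σ (e z) := by
    intro σ z
    apply Subtype.ext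
    exact (hs' σ (e z) z rfl).symm
  have hkey : ∀ (V : ValuationSubring N) (V' : ValuationSubring N'),
      (∀ z, z ∈ V ↔ e z ∈ V') →
      (InDecomposition (proEll ℓ (IntermediateField.adjoin k {(x : Ω), y})) s V ↔
        EtaleCoverings.InDecomposition s''
          (EtaleCoverings.proEllField ℓ k F' Ω) V') := by
    intro V V' hV
    constructor
    · intro h1 σ z hz
      obtain ⟨w, rfl⟩ := e.surjective z
      rw [← hact, ← hV, ← hV]
      exact h1 σ w ((hfxN w).2 hz)
    · intro h1 σ z hz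
      rw [hV, hV, hact]
      exact h1 σ (e z) ((hfxN z).1 hz)
  have hfx : e (algebraMap F N (aeval x (f.map (algebraMap A k)))) =
      algebraMap F' N' (aeval (⟨x, hxF'⟩ : F') (f.map (algebraMap A k))) := by
    apply Subtype.ext
    change ((aeval x (f.map (algebraMap A k)) : F) : Ω) =
      ((aeval (⟨x, hxF'⟩ : F') (f.map (algebraMap A k)) : F') : Ω)
    have h9 := aeval_algebraMap_apply Ω (⟨x, hxF'⟩ : F') (f.map (algebraMap A k))
    have h10 := aeval_algebraMap_apply Ω x (f.map (algebraMap A k))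
    exact h10.symm.trans h9
  have hx0 : (x : Ω) ≠ 0 := fun h => hx (by rw [h]; exact isAlgebraic_zero)
  obtain ⟨ϖ, hϖ⟩ := IsDiscreteValuationRing.exists_irreducible A
  obtain ⟨u, n, hu, hdu⟩ := exists_val (k := k) ϖ hϖ d hd
  have hϖ0 : algebraMap A k ϖ ≠ 0 := by
    rw [Ne, map_eq_zero_iff _ (IsFractionRing.injective A k)]
    exact hϖ.ne_zero
  have hκM : ∀ c : algebraicClosure k Ω, (c : Ω) ∈
      proEll ℓ (IntermediateField.adjoin k {(x : Ω), y}) :=
    fun c => geom_le_proEll _ (const_mem_geom _ c)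
  have hκ : ∀ c : algebraicClosure k Ω, (c : Ω) ∈ N := fun c => hN _ (hκM c)
  have hy'M : y' ∈ EtaleCoverings.proEllField ℓ k F' Ω :=
    (EtaleCoverings.proEllField ℓ k F' Ω).algebraMap_mem ⟨y', hyF'⟩
  have hfxΩ : algebraMap F' Ω (aeval (⟨x, hxF'⟩ : F') (f.map (algebraMap A k))) =
      algebraMap k Ω d * y' ^ ℓ := by
    rw [← aeval_algebraMap_apply]
    exact (hdy.trans hy).symm
  by_cases hn : (ℓ : ℤ) ∣ n
  · left
    obtain ⟨i, rfl⟩ := hn
    have hU := unram_of_fixes A k ℓ f hℓ ⟨hlc, hs, hdvd, h3⟩ F' Ω ⟨x, hxF'⟩ hC N' hN' s'' u hu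
      (algebraMap F' N' (algebraMap k F' (algebraMap A k ϖ ^ i) * ⟨y', hyF'⟩))
      ((EtaleCoverings.proEllField ℓ k F' Ω).algebraMap_mem
        (algebraMap k F' (algebraMap A k ϖ ^ i) * ⟨y', hyF'⟩))
      (fun σ => (s''.toHom σ).commutes _) (by
        rw [hfxΩ]
        have h1 : ((algebraMap F' N' (algebraMap k F' (algebraMap A k ϖ ^ i) * ⟨y', hyF'⟩) : N') :
          Ω) = algebraMap k Ω (algebraMap A k ϖ ^ i) * y' := rfl
        rw [h1, mul_pow, ← mul_assoc, ← map_pow, ← map_mul, hdu, mul_comm (ℓ : ℤ) i, zpow_mul,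
          zpow_natCast])
    intro O hO σ hσ z hz hzO
    have h1 := hU O hO σ hσ (e z) ((hfxN z).1 hz) hzO
    rw [← hact, ← map_sub] at h1
    exact h1
  right
  obtain ⟨W', ⟨e₀, he₀, hk₀, hW1⟩, hW3, hW4, -, hW6⟩ := hsecL.2 (Or.inr ⟨f, d,
    algebraMap F' N' ⟨y', hyF'⟩, hlc, ⟨ϖ, u, n, hϖ, hu, hn, hdu⟩, hy'M,
    fun σ => (s''.toHom σ).commutes _, hfxΩ.symm⟩)
  -- the places above `0` and `∞`
  haveI : IsScalarTower k N Ω := IsScalarTower.of_algebraMap_eq (fun _ => rfl)
  have hzfix : ∀ σ, s.toHom σ ⟨y', hyN⟩ = ⟨y', hyN⟩ := by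
    intro σ
    apply e.injective
    rw [hact]
    exact (s''.toHom σ).commutes ⟨y', hyF'⟩
  have hy'M' : y' ∈ proEll ℓ (IntermediateField.adjoin k {(x : Ω), y}) :=
    (hfxN ⟨y', hyN⟩).2 hy'M
  have hFM : ∀ z : F, (z : Ω) ∈ proEll ℓ (IntermediateField.adjoin k {(x : Ω), y}) :=
    fun z => hF z.2
  have hd' : CoveringsOfTwistsByRotations.ValuationNotDivisible A ℓ d := ⟨ϖ, u, n, hϖ, hu, hn, hdu⟩
  have hxN0 : algebraMap F N x ≠ 0 := by
    rw [_root_.map_ne_zero]
    exact fun h => hx0 (congrArg Subtype.val h)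
  have htop : ∀ (V : ValuationSubring N) (r : N), r ≠ 0 → r ∈ V.nonunits → V ≠ ⊤ := by
    rintro V r hr0 hr rfl
    rcases (nonunits_iff.1 hr).2 with h1 | h1
    · exact hr0 h1
    · exact h1 trivial
  have hcase : ∀ V : ValuationSubring N, (∀ c : k, algebraMap F N (algebraMap k F c) ∈ V) →
      InDecomposition (proEll ℓ (IntermediateField.adjoin k {(x : Ω), y})) s V →
      ¬ (algebraMap F N x ∈ V.nonunits ∨ algebraMap F N x⁻¹ ∈ V.nonunits) := by
    rintro V hVk hVs (hV | hV)
    · refine nofix hp (proEll ℓ (IntermediateField.adjoin k {(x : Ω), y})) hκM hκ s V hVk hVs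
        (fun z hz => res_N (x : Ω) hx halg hκ V (htop V _ hxN0 hV) hVk z hz)
        (algebraMap F N x) ⟨y', hyN⟩ hV f hf0 d hd' ?_ hy'M' hzfix
      apply Subtype.ext
      have h1 := aeval_algebraMap_apply Ω (algebraMap F N x) (f.map (algebraMap A k))
      refine Eq.trans ?_ h1
      exact hdy.trans hy
    · obtain ⟨q, hq⟩ := hdvd
      have hxi : algebraMap F N x⁻¹ ≠ 0 := by
        rw [map_inv₀]
        exact inv_ne_zero hxN0
      have hinvfix : ∀ σ, s.toHom σ ((⟨y', hyN⟩ : N) * (algebraMap F N x⁻¹) ^ q) =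
          ⟨y', hyN⟩ * (algebraMap F N x⁻¹) ^ q := by
        intro σ
        rw [map_mul, map_pow, hzfix, (s.toHom σ).commutes]
      refine nofix hp (proEll ℓ (IntermediateField.adjoin k {(x : Ω), y})) hκM hκ s V hVk hVs
        (fun z hz => res_N (x : Ω) hx halg hκ V (htop V _ hxi hV) hVk z hz)
        (algebraMap F N x⁻¹) (⟨y', hyN⟩ * (algebraMap F N x⁻¹) ^ q) hV f.reverse
        (by rw [coeff_zero_reverse]; exact hlc) d hd' ?_
        (mul_mem hy'M' (pow_mem (hFM x⁻¹) q)) hinvfix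
      have h1 : algebraMap k N d * (⟨y', hyN⟩ : N) ^ ℓ =
          aeval (algebraMap F N x) (f.map (algebraMap A k)) := by
        apply Subtype.ext
        have h1 := aeval_algebraMap_apply Ω (algebraMap F N x) (f.map (algebraMap A k))
        refine Eq.trans ?_ h1
        exact hdy.trans hy
      rw [mul_pow, ← mul_assoc, h1, ← pow_mul, mul_comm q ℓ, ← hq]
      have hinv : Invertible (algebraMap F N x) := invertibleOfNonzero hxN0
      have h2 := eval₂_reverse_mul_pow ((algebraMap k N).comp (algebraMap A k)) (algebraMap F N x) f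
      rw [invOf_eq_inv] at h2
      rw [aeval_def, aeval_def, eval₂_map, eval₂_map, ← h2, map_inv₀, mul_assoc, ← mul_pow,
        mul_inv_cancel₀ hxN0, one_pow, mul_one]
  refine ⟨W'.comap (e : N →+* N'), ?_, ⟨?_, ?_⟩, ?_, ?_⟩
  · refine (comap_non' e W' _).2 ?_
    rw [hfx]
    exact root_non (f.map (algebraMap A k)) (⟨x, hxF'⟩ : F') e₀ he₀ W' hk₀ hW1
  · intro c
    rw [ValuationSubring.mem_comap]
    exact hk₀ c
  · intro z hz
    rw [ValuationSubring.mem_comap] at hz
    obtain ⟨c, hc⟩ := hW3 (e (algebraMap F N z)) (IntermediateField.subset_adjoin _ _ z.2) hz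
    refine ⟨c, ?_⟩
    rw [comap_non', map_sub, map_sub]
    exact hc
  · exact (hkey (W'.comap (e : N →+* N')) W' (fun z => Iff.rfl)).2 hW4
  · intro V hVk hVQ hVs z hz
    have hVQ' : algebraMap F N (aeval x (f.map (algebraMap A k))) ∈ V.nonunits := by
      rcases hVQ with h8 | h8 | h8
      · exact absurd (Or.inl h8) (hcase V hVk hVs)
      · exact absurd (Or.inr h8) (hcase V hVk hVs)
      · exact h8
    let V' : ValuationSubring N' := V.comap (e.symm : N' →+* N)
    have hV' : ∀ z, z ∈ V ↔ e z ∈ V' := by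
      intro z
      change z ∈ V ↔ e.symm (e z) ∈ V
      rw [e.symm_apply_apply]
    have hV'n : ∀ z, z ∈ V'.nonunits ↔ e.symm z ∈ V.nonunits := fun z => comap_non' e.symm V z
    have hk' : ∀ c : k, algebraMap F' N' (algebraMap k F' c) ∈ V' := fun c => hVk c
    have h7 := hW6 V' ⟨hk', ?_⟩ ((hkey V V' hV').1 hVs) (e z) ((hfxN z).1 hz)
    · rw [hV', h7]
      rfl
    · rw [← hfx, hV'n, e.symm_apply_apply]
      exact hVQ'

end Pool.Agent.H71MX
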