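import Pool.Agent.H71MX.Tr

/-! # The Gauss valuation -/

set_option autoImplicit false
set_option linter.style.haveILetI false

open Polynomial

namespace Pool.Agent.H71MX

open Pool.Agent.Y157.PS
open Pool.Agent.H59.SCT
open Pool.Agent.Results.MP_c385f6_ag
open EllMonodromyCovers (IsGauss ActsTrivially GaussUnique)

/-- the Gauss valuation has exactly one extension to `M` -/
theorem gaussU (A k : Type) [CommRing A] [IsDomain A] [IsDiscreteValuationRing A]
    [IsAdicComplete (IsLocalRing.maximalIdeal A) A] [Finite (IsLocalRing.ResidueField A)]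
    [Field k] [CharZero k] [Algebra A k] [IsFractionRing A k] (ℓ : ℕ) [Fact ℓ.Prime]
    (f : A[X]) (hℓ : IsUnit (ℓ : A)) (hf : EtaleCoverings.GoodPolynomial ℓ f)
    (Ω : Type) [Field Ω] [Algebra k Ω] [IsAlgClosed Ω] (x y : Ω)
    (hx : Transcendental k x)
    (halg : Algebra.IsAlgebraic (IntermediateField.adjoin k {x}) Ω)
    (hy : y ^ ℓ = aeval x (f.map (algebraMap A k))) :
    GaussUnique A k (algebraicClosure k Ω) x
      (proEll ℓ (IntermediateField.adjoin k {x, y}) : Set Ω) := by
  obtain ⟨hlc, hs, hdvd, h3⟩ := hf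
  have hsep := good_sep (k := k) hlc hs
  set F' : IntermediateField k Ω := IntermediateField.adjoin k {x, y} with hF'
  have hxF' : x ∈ F' := IntermediateField.subset_adjoin _ _ (by simp)
  have hyF' : y ∈ F' := IntermediateField.subset_adjoin _ _ (by simp)
  haveI := alg_over halg F' hxF'
  haveI : IsAlgClosure F' Ω := ⟨inferInstance, inferInstance⟩
  have hx'tr : Transcendental k (⟨x, hxF'⟩ : F') := fun h1 => hx (h1.algebraMap)
  have hE : EllMonodromyCovers.ElementaryCovering Ω ℓ f (fun _ : Unit => f) (fun _ => (1 : k))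
      (⟨x, hxF'⟩ : F') (fun _ => ⟨y, hyF'⟩) := by
    refine ⟨hx'tr, fun _ => one_ne_zero, fun _ => ?_, ?_, fun _ => ⟨1, by rw [pow_one]⟩,
      fun _ => hdvd, fun e he => ⟨(), ?_⟩⟩
    · apply (algebraMap F' Ω).injective
      rw [map_mul, map_pow, ← IsScalarTower.algebraMap_apply, map_one, one_mul]
      refine hy.trans ?_
      exact aeval_algebraMap_apply Ω (⟨x, hxF'⟩ : F') (f.map (algebraMap A k))
    · rw [Set.range_const]
      apply IntermediateField.map_injective F'.val
      rw [IntermediateField.adjoin_map, Set.image_insert_eq, Set.image_singleton]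
      have h5 : IntermediateField.map F'.val ⊤ = F' := by
        ext z
        constructor
        · rintro ⟨w, -, rfl⟩
          exact w.2
        · intro hz
          exact ⟨⟨z, hz⟩, trivial, rfl⟩
      rw [h5]
      rfl
    · have h4 : (f.map ((algebraMap k Ω).comp (algebraMap A k))) =
          (f.map (algebraMap A k)).map (algebraMap k Ω) := (Polynomial.map_map _ _ _).symm
      rw [h4]
      have h5 : ((f.map (algebraMap A k)).map (algebraMap k Ω)).Separable := hsep.map
      have h6 := rootMultiplicity_le_one_of_separable h5 e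
      have h7 : 0 < ((f.map (algebraMap A k)).map (algebraMap k Ω)).rootMultiplicity e := by
        rw [rootMultiplicity_pos h5.ne_zero, IsRoot.def, eval_map]
        exact he
      intro h8
      have h9 := Nat.le_of_dvd h7 h8
      have := (Fact.out : ℓ.Prime).two_le
      omega
  obtain ⟨hgen, helem⟩ := EllMonodromyCovers.result A k ℓ f hℓ ⟨hlc, hs, hdvd, h3⟩
  obtain ⟨hC, -⟩ := helem F' Ω Unit _ _ _ _ hE
  obtain ⟨-, ⟨h1, h2⟩, -⟩ := hgen F' Ω _ hC
  refine ⟨h1, fun O O' hO hO' z hz => h2 O O' hO hO' z ?_⟩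
  have hz' : z ∈ proEll ℓ F' := hz
  rw [proEll_iff] at hz'
  rw [EtaleCoverings.proEll_eq]
  exact hz'

end Pool.Agent.H71MX
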