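import Pool.Agent.H71MX.Ell2

/-! # Sections of fields between `k(x)` and a field with two kinds of ramification indices -/

set_option autoImplicit false
set_option linter.style.haveILetI false

open Polynomial

namespace Pool.Agent.H71MX

open Pool.Agent.Y157.PS
open Pool.Agent.H59.SCT
open Pool.Agent.Results.MP_c385f6_ag
open EllMonodromyCovers (IsGauss ActsTrivially)

/-- the constant coefficient is invertible -/
theorem good_zero {A : Type} [CommRing A] [IsDomain A] [IsDiscreteValuationRing A]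
    {ℓ j : ℕ} [Fact ℓ.Prime] (hj : 1 ≤ j) {g : A[X]}
    (hg : CoveringsOfTwistsByRotations.GoodPolynomial (ℓ ^ j) g) : IsUnit (g.coeff 0) := by
  by_contra h
  have h1 : IsLocalRing.residue A (g.coeff 0) = 0 := by
    rw [IsLocalRing.residue_eq_zero_iff, IsLocalRing.mem_maximalIdeal]
    exact h
  have h2 : (X : (IsLocalRing.ResidueField A)[X]) ∣ g.map (IsLocalRing.residue A) := by
    rw [X_dvd_iff, coeff_map]
    exact h1
  obtain ⟨q, hq⟩ := h2
  have h3 := hg.2.1.squarefree
  rw [map_expand, hq, map_mul, expand_X] at h3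
  have hm : 2 ≤ ℓ ^ j := by
    have h4 := (Fact.out : ℓ.Prime).two_le
    calc 2 ≤ ℓ := h4
      _ = ℓ ^ 1 := (pow_one ℓ).symm
      _ ≤ ℓ ^ j := Nat.pow_le_pow_right (by omega) hj
  have h5 : IsUnit (X : (IsLocalRing.ResidueField A)[X]) := by
    refine h3 X (Dvd.dvd.mul_right ?_ _)
    rw [← pow_two]
    exact pow_dvd_pow X hm
  exact not_isUnit_X h5

/-- the dichotomy -/
theorem mixB (A k : Type) [CommRing A] [IsDomain A] [IsDiscreteValuationRing A]
    [IsAdicComplete (IsLocalRing.maximalIdeal A) A] [Finite (IsLocalRing.ResidueField A)]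
    [Field k] [CharZero k] [Algebra A k] [IsFractionRing A k] (ℓ : ℕ) [Fact ℓ.Prime] (j : ℕ)
    (hj : 1 ≤ j) (g : A[X]) (hℓ : IsUnit (ℓ : A))
    (hg : CoveringsOfTwistsByRotations.GoodPolynomial (ℓ ^ j) g)
    (Ω : Type) [Field Ω] [Algebra k Ω] [IsAlgClosed Ω] (F : IntermediateField k Ω) (x : F)
    (t y : Ω) (hx : Transcendental k (x : Ω))
    (halg : Algebra.IsAlgebraic (IntermediateField.adjoin k {(x : Ω)}) Ω)
    (ht : t ^ (ℓ ^ j) = x) (hy : y ^ ℓ = aeval (x : Ω) (g.map (algebraMap A k)))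
    (hF : F ≤ proEll ℓ (IntermediateField.adjoin k {t, y})) (N : IntermediateField F Ω)
    (hN : ∀ z ∈ proEll ℓ (IntermediateField.adjoin k {t, y}), z ∈ N) (s : Splitting F N) :
    Unram A t (proEll ℓ (IntermediateField.adjoin k {t, y})) s ∨
    FromOneRationalPlace (proEll ℓ (IntermediateField.adjoin k {t, y})) s
      (fun W => algebraMap F N x ∈ W.nonunits ∨ algebraMap F N x⁻¹ ∈ W.nonunits ∨
        algebraMap F N (aeval x (g.map (algebraMap A k))) ∈ W.nonunits)
      (fun W => algebraMap F N x ∈ W.nonunits ∨ algebraMap F N x⁻¹ ∈ W.nonunits ∨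
        algebraMap F N (aeval x (g.map (algebraMap A k))) ∈ W.nonunits) := by
  have hp := (Fact.out : ℓ.Prime).pos
  have hm : 0 < ℓ ^ j := pow_pos hp j
  have hxF : (x : Ω) ∈ F := x.2
  haveI := alg_over halg F hxF
  have hinj : Function.Injective (algebraMap A k) := IsFractionRing.injective A k
  set M := proEll ℓ (IntermediateField.adjoin k {t, y}) with hMdef
  have hx0 : (x : Ω) ≠ 0 := fun h => hx (by rw [h]; exact isAlgebraic_zero)
  have ht0 : t ≠ 0 := by
    rintro rfl
    rw [zero_pow hm.ne'] at ht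
    exact hx0 ht.symm
  have hκM : ∀ c : algebraicClosure k Ω, (c : Ω) ∈ M :=
    fun c => geom_le_proEll _ (const_mem_geom _ c)
  have hκ : ∀ c : algebraicClosure k Ω, (c : Ω) ∈ N := fun c => hN _ (hκM c)
  have htM : t ∈ M :=
    geom_le_proEll _ ((le_sup_left : _ ≤ geom (IntermediateField.adjoin k {t, y}))
      (IntermediateField.subset_adjoin _ _ (by simp)))
  obtain ⟨δ, a, z, hδ, ha, hz, h1, h2, h3⟩ := exists_twist s hκ hm t (hN t htM) ht0
    (by rw [ht]; exact hxF)
  have hδΩ : (δ : Ω) ≠ 0 := fun h => hδ (Subtype.ext h)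
  have haz : algebraMap k Ω a * (z : Ω) ^ (ℓ ^ j) = x := by rw [h1, ht]
  have hzM : (z : Ω) ∈ M := by
    rw [hz]
    exact div_mem htM (hκM δ)
  -- the larger base field
  set F₁ : IntermediateField k Ω := F ⊔ IntermediateField.adjoin k {(z : Ω)} with hF₁
  have hFF₁ : F ≤ F₁ := le_sup_left
  have hzF₁ : (z : Ω) ∈ F₁ := (le_sup_right : IntermediateField.adjoin k {(z : Ω)} ≤ F₁)
    (IntermediateField.mem_adjoin_simple_self k _)
  have hF₁M : F₁ ≤ M := by
    refine sup_le hF ?_
    rw [IntermediateField.adjoin_le_iff, Set.singleton_subset_iff]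
    exact hzM
  have h : ∀ w ∈ F₁, w ∈ N := fun w hw => hN w (hF₁M hw)
  have hfix : ∀ σ, ∀ w : N, (w : Ω) ∈ F₁ → s.toHom σ w = w := by
    intro σ w hw
    have h4 : F₁ ≤ (Pool.Agent.V11235.SL.fixF N (s.toHom σ)).restrictScalars k := by
      refine sup_le (fun w hw => ?_) ?_
      · exact ⟨N.algebraMap_mem ⟨w, hw⟩, (s.toHom σ).commutes ⟨w, hw⟩⟩
      · rw [IntermediateField.adjoin_le_iff, Set.singleton_subset_iff]
        exact ⟨z.2, h3 σ⟩
    obtain ⟨h5, h6⟩ := h4 hw
    exact h6
  obtain ⟨s₁, hs₁⟩ := changeBase (h := h) s hfix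
  have hxz : (x : Ω) ∈ IntermediateField.adjoin k {(z : Ω)} := by
    rw [← haz]
    exact mul_mem (IntermediateField.algebraMap_mem _ a)
      (pow_mem (IntermediateField.mem_adjoin_simple_self k _) _)
  have hztr : Transcendental k (z : Ω) := by
    intro h4
    apply hx
    rw [← haz]
    exact (isAlgebraic_algebraMap _).mul (h4.pow _)
  -- the twist by a constant
  have htw : ∀ (w : Ω) (ε : algebraicClosure k Ω), ε ≠ 0 → w = t / ε →
      proEll ℓ (IntermediateField.adjoin k {w, y}) = M := by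
    intro w ε hε hw
    rw [hMdef, Set.pair_comm w y, Set.pair_comm t y]
    exact proEll_twist ℓ y t w ε hε hw
  have hPk : ∀ (W : ValuationSubring (same N F₁ h)),
      (∀ c : k, algebraMap F₁ (same N F₁ h) (algebraMap k F₁ c) ∈ W) → ∀ c : k,
      algebraMap k (same N F₁ h) c ∈ W := fun W hW c => hW c
  by_cases hav : CoveringsOfTwistsByRotations.ValuationNotDivisible A (ℓ ^ j) a
  · right
    have hMz := htw z δ hδ hz
    have h4 := rotA A k ℓ j hj g a hℓ hg hav Ω F₁ ⟨z, hzF₁⟩ y hztr
      (alg_over halg _ hxz) (by rw [hy]; exact congrArg (fun w => aeval w _) haz.symm)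
      (by rw [hMz]; exact hF₁M) (same N F₁ h) (by rw [hMz]; exact hN) s₁
    rw [hMz] at h4
    have hxN : ∀ W : ValuationSubring (same N F₁ h), sameEquiv N F₁ h (algebraMap F N x) =
        algebraMap F₁ (same N F₁ h) (algebraMap k F₁ a) *
          (algebraMap F₁ (same N F₁ h) ⟨z, hzF₁⟩) ^ (ℓ ^ j) := by
      intro W
      apply Subtype.ext
      exact haz.symm
    refine transfer hFF₁ h M s s₁ hs₁ _ _ _ _ (fun W hWk hW => ?_) (fun W hWk hW => ?_) h4
    · rcases hW with hW | hW
      · left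
        refine (comap_non' _ W _).2 ?_
        rw [hxN W]
        exact non_mul (hWk a) (non_pow W hm hW)
      · right; left
        refine (comap_non' _ W _).2 ?_
        rw [map_inv₀, map_inv₀, hxN W, mul_inv, ← map_inv₀, ← map_inv₀, ← inv_pow, ← map_inv₀]
        exact non_mul (hWk a⁻¹) (non_pow W hm hW)
    · have hxN' : algebraMap F N x =
          algebraMap F N (algebraMap k F a) * z ^ (ℓ ^ j) := by
        apply Subtype.ext
        exact haz.symm
      have haN : algebraMap F N (algebraMap k F a) ≠ 0 := by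
        rw [_root_.map_ne_zero, _root_.map_ne_zero]
        exact ha
      rcases hW with hW | hW | hW
      · left
        refine (comap_non' (sameEquiv N F₁ h).symm W _).2 ?_
        change z ∈ W.nonunits
        refine non_of_pow W hm ?_
        have h5 : z ^ (ℓ ^ j) = algebraMap F N (algebraMap k F a⁻¹) * algebraMap F N x := by
          rw [hxN', map_inv₀, map_inv₀, ← mul_assoc, inv_mul_cancel₀ haN, one_mul]
        rw [h5]
        exact non_mul (hWk a⁻¹) hW
      · right; left
        refine (comap_non' (sameEquiv N F₁ h).symm W _).2 ?_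
        have h6 : (sameEquiv N F₁ h).symm
            (algebraMap F₁ (same N F₁ h) (⟨z, hzF₁⟩ : F₁)⁻¹) = z⁻¹ := rfl
        rw [h6]
        refine non_of_pow W hm ?_
        have h5 : z⁻¹ ^ (ℓ ^ j) = algebraMap F N (algebraMap k F a) * algebraMap F N x⁻¹ := by
          rw [map_inv₀ (algebraMap F N) x, hxN', mul_inv, ← mul_assoc, mul_inv_cancel₀ haN,
            one_mul, inv_pow]
        rw [h5]
        exact non_mul (hWk a) hW
      · right; right
        refine (comap_non' (sameEquiv N F₁ h).symm W _).2 ?_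
        have h6 : (sameEquiv N F₁ h).symm (algebraMap F₁ (same N F₁ h)
            (aeval (algebraMap k F₁ a * (⟨z, hzF₁⟩ : F₁) ^ (ℓ ^ j)) (g.map (algebraMap A k)))) =
            algebraMap F N (aeval x (g.map (algebraMap A k))) := by
          apply Subtype.ext
          change ((aeval (algebraMap k F₁ a * (⟨z, hzF₁⟩ : F₁) ^ (ℓ ^ j)) (g.map (algebraMap A k)) :
            F₁) : Ω) = ((aeval x (g.map (algebraMap A k)) : F) : Ω)
          have h9 := aeval_algebraMap_apply Ω (algebraMap k F₁ a * (⟨z, hzF₁⟩ : F₁) ^ (ℓ ^ j))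
            (g.map (algebraMap A k))
          have h10 := aeval_algebraMap_apply Ω x (g.map (algebraMap A k))
          refine h9.symm.trans (Eq.trans ?_ h10)
          exact congrArg (fun w => aeval w _) haz
        rw [h6]
        exact hW
  -- the valuation of `a` is divisible by `ℓ^j`
  obtain ⟨ϖ, hϖ⟩ := IsDiscreteValuationRing.exists_irreducible A
  obtain ⟨u, n, hu, hau⟩ := exists_val (k := k) ϖ hϖ a ha
  have hn : ((ℓ ^ j : ℕ) : ℤ) ∣ n := by
    by_contra hn
    exact hav ⟨ϖ, u, n, hϖ, hu, hn, hau⟩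
  obtain ⟨i, rfl⟩ := hn
  have hϖ0 : algebraMap A k ϖ ≠ 0 := by
    rw [Ne, map_eq_zero_iff _ hinj]
    exact hϖ.ne_zero
  have huk : algebraMap A k u ≠ 0 := (hu.map (algebraMap A k)).ne_zero
  set b : k := algebraMap A k ϖ ^ i with hb
  have hb0 : b ≠ 0 := zpow_ne_zero _ hϖ0
  have hbm : b ^ (ℓ ^ j) = algebraMap A k ϖ ^ (((ℓ ^ j : ℕ) : ℤ) * i) := by
    rw [hb, ← zpow_natCast, ← zpow_mul, mul_comm]
  -- the new coordinate
  set t₁ : Ω := algebraMap k Ω b * z with ht₁
  have ht₁m : algebraMap k Ω (algebraMap A k u) * t₁ ^ (ℓ ^ j) = x := by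
    rw [ht₁, mul_pow, ← mul_assoc, ← map_pow, ← map_mul, hbm, ← hau, haz]
  have ht₁F : t₁ ∈ F₁ := mul_mem (IntermediateField.algebraMap_mem _ b) hzF₁
  have ht₁tr : Transcendental k t₁ := by
    intro h4
    apply hx
    rw [← ht₁m]
    exact (isAlgebraic_algebraMap _).mul (h4.pow _)
  have hxt₁ : (x : Ω) ∈ IntermediateField.adjoin k {t₁} := by
    rw [← ht₁m]
    exact mul_mem (IntermediateField.algebraMap_mem _ _)
      (pow_mem (IntermediateField.mem_adjoin_simple_self k _) _)
  -- the constant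
  set ε : algebraicClosure k Ω := δ / algebraMap k (algebraicClosure k Ω) b with hε
  have hbκ : algebraMap k (algebraicClosure k Ω) b ≠ 0 := (_root_.map_ne_zero _).2 hb0
  have hε0 : ε ≠ 0 := div_ne_zero hδ hbκ
  have hεΩ : (ε : Ω) = (δ : Ω) / algebraMap k Ω b := rfl
  have hbΩ : algebraMap k Ω b ≠ 0 := (_root_.map_ne_zero _).2 hb0
  have ht₁t : t₁ = t / ε := by
    rw [ht₁, hz, hεΩ]
    field_simp
  have htt₁ : t = (ε : Ω) * t₁ := by
    rw [ht₁t, mul_div_cancel₀]
    exact fun h => hε0 (Subtype.ext h)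
  have hεm : (ε : Ω) ^ (ℓ ^ j) = algebraMap k Ω (algebraMap A k u) := by
    rw [hεΩ, div_pow, h2, hau, ← map_pow, hbm, map_mul]
    refine mul_div_cancel_right₀ _ ?_
    rw [_root_.map_ne_zero]
    exact zpow_ne_zero _ hϖ0
  have hMt := htw t₁ ε hε0 ht₁t
  have hf := good_comp hj hg u hu
  set f := g.comp (C u * X ^ (ℓ ^ j)) with hfdef
  have hff : ∀ (R : Type) [Field R] [Algebra k R] (w : R), aeval w (f.map (algebraMap A k)) =
      aeval (algebraMap k R (algebraMap A k u) * w ^ (ℓ ^ j)) (g.map (algebraMap A k)) := by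
    intro R _ _ w
    rw [hfdef, Polynomial.map_comp, aeval_comp]
    simp
  have hf0 : IsUnit (f.coeff 0) := by
    have h6 : f.coeff 0 = g.coeff 0 := by
      rw [coeff_zero_eq_eval_zero, coeff_zero_eq_eval_zero, hfdef, eval_comp]
      simp [zero_pow hm.ne']
    rw [h6]
    exact good_zero hj hg
  have h4 := ellB A k ℓ f hℓ hf hf0 Ω F₁ ⟨t₁, ht₁F⟩ y ht₁tr (alg_over halg _ hxt₁)
    (by rw [hy, hff]; exact congrArg (fun w => aeval w _) ht₁m.symm)
    (by rw [hMt]; exact hF₁M) (same N F₁ h) (by rw [hMt]; exact hN) s₁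
  rw [hMt] at h4
  rcases h4 with h4 | h4
  · left
    refine transfer_unram h M s s₁ hs₁ t t₁ (fun O hO => ?_) h4
    have hu1 : algebraMap k Ω (algebraMap A k u) ∈ O := hO.1 u
    have hu2 : (algebraMap k Ω (algebraMap A k u))⁻¹ ∈ O := by
      obtain ⟨u, rfl⟩ := hu
      have h5 : (algebraMap k Ω (algebraMap A k (u : A)))⁻¹ =
          algebraMap k Ω (algebraMap A k ((u⁻¹ : Aˣ) : A)) := by
        refine inv_eq_of_mul_eq_one_right ?_
        rw [← map_mul, ← map_mul, Units.mul_inv, map_one, map_one]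
      rw [h5]
      exact hO.1 _
    refine gauss_scale t t₁ ε hε0 htt₁ O ?_ ?_ hO
    · refine mem_of_pow O hm ?_
      have h5 : (algebraMap (algebraicClosure k Ω) Ω ε) ^ (ℓ ^ j) =
        algebraMap k Ω (algebraMap A k u) := hεm
      rw [h5]
      exact hu1
    · refine mem_of_pow O hm ?_
      have h5 : (algebraMap (algebraicClosure k Ω) Ω ε⁻¹) ^ (ℓ ^ j) =
          (algebraMap k Ω (algebraMap A k u))⁻¹ := by
        rw [map_inv₀, inv_pow]
        exact congrArg _ hεm
      rw [h5]
      exact hu2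
  · right
    have h5 : ((aeval (⟨t₁, ht₁F⟩ : F₁) (f.map (algebraMap A k)) : F₁) : Ω) =
        ((aeval x (g.map (algebraMap A k)) : F) : Ω) := by
      rw [hff]
      have h9 := aeval_algebraMap_apply Ω (algebraMap k F₁ (algebraMap A k u) *
        (⟨t₁, ht₁F⟩ : F₁) ^ (ℓ ^ j)) (g.map (algebraMap A k))
      have h10 := aeval_algebraMap_apply Ω x (g.map (algebraMap A k))
      refine h9.symm.trans (Eq.trans ?_ h10)
      exact congrArg (fun w => aeval w _) ht₁m
    refine transfer hFF₁ h M s s₁ hs₁ _ _ _ _ (fun W hWk hW => ?_) (fun W hWk hW => ?_) h4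
    · right; right
      refine (comap_non' _ W _).2 ?_
      have h6 : sameEquiv N F₁ h (algebraMap F N (aeval x (g.map (algebraMap A k)))) =
          algebraMap F₁ (same N F₁ h) (aeval (⟨t₁, ht₁F⟩ : F₁) (f.map (algebraMap A k))) :=
        Subtype.ext h5.symm
      rw [h6]
      exact hW
    · have ht₁N : t₁ ∈ N := h t₁ ht₁F
      have hxN' : algebraMap F N x =
          algebraMap F N (algebraMap k F (algebraMap A k u)) * (⟨t₁, ht₁N⟩ : N) ^ (ℓ ^ j) := by
        apply Subtype.ext
        exact ht₁m.symm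
      have huN : algebraMap F N (algebraMap k F (algebraMap A k u)) ≠ 0 := by
        rw [_root_.map_ne_zero, _root_.map_ne_zero]
        exact huk
      rcases hW with hW | hW | hW
      · left
        refine (comap_non' (sameEquiv N F₁ h).symm W _).2 ?_
        change (⟨t₁, ht₁N⟩ : N) ∈ W.nonunits
        refine non_of_pow W hm ?_
        have h5 : (⟨t₁, ht₁N⟩ : N) ^ (ℓ ^ j) =
            algebraMap F N (algebraMap k F (algebraMap A k u)⁻¹) * algebraMap F N x := by
          rw [hxN', map_inv₀, map_inv₀, ← mul_assoc, inv_mul_cancel₀ huN, one_mul]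
        rw [h5]
        exact non_mul (hWk (algebraMap A k u)⁻¹) hW
      · right; left
        refine (comap_non' (sameEquiv N F₁ h).symm W _).2 ?_
        have h6 : (sameEquiv N F₁ h).symm
            (algebraMap F₁ (same N F₁ h) (⟨t₁, ht₁F⟩ : F₁)⁻¹) = (⟨t₁, ht₁N⟩ : N)⁻¹ := rfl
        rw [h6]
        refine non_of_pow W hm ?_
        have h5 : (⟨t₁, ht₁N⟩ : N)⁻¹ ^ (ℓ ^ j) =
            algebraMap F N (algebraMap k F (algebraMap A k u)) * algebraMap F N x⁻¹ := by
          rw [map_inv₀ (algebraMap F N) x, hxN', mul_inv, ← mul_assoc, mul_inv_cancel₀ huN,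
            one_mul, inv_pow]
        rw [h5]
        exact non_mul (hWk (algebraMap A k u)) hW
      · right; right
        refine (comap_non' (sameEquiv N F₁ h).symm W _).2 ?_
        have h6 : (sameEquiv N F₁ h).symm (algebraMap F₁ (same N F₁ h)
            (aeval (⟨t₁, ht₁F⟩ : F₁) (f.map (algebraMap A k)))) =
            algebraMap F N (aeval x (g.map (algebraMap A k))) := Subtype.ext h5
        rw [h6]
        exact hW

end Pool.Agent.H71MX
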