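import Pool.Agent.H71MX.Tr
import Pool.Agent.Y948.PS.Cov5
import Pool.Agent.Y157.PS.Geo2

/-! # A ramified section fixes no place above `0` or `∞` -/

set_option autoImplicit false
set_option linter.style.haveILetI false

open Polynomial

namespace Pool.Agent.H71MX

open Pool.Agent.Y157.PS
open Pool.Agent.H59.SCT
open Pool.Agent.Results.MP_c385f6_ag

/-- a power of a uniformiser that is a unit -/
theorem zpow_unit {A k : Type} [CommRing A] [IsDomain A] [IsDiscreteValuationRing A]
    [Field k] [Algebra A k] [IsFractionRing A k] (ϖ : A) (hϖ : Irreducible ϖ) (n : ℤ) (u v : A)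
    (hu : IsUnit u) (hv : IsUnit v)
    (h : algebraMap A k u * algebraMap A k ϖ ^ n = algebraMap A k v) : n = 0 := by
  have hinj : Function.Injective (algebraMap A k) := IsFractionRing.injective A k
  have hϖ0 : algebraMap A k ϖ ≠ 0 := by
    rw [Ne, map_eq_zero_iff _ hinj]
    exact hϖ.ne_zero
  have key : ∀ (m : ℕ) (u v : A), IsUnit v →
      algebraMap A k u * algebraMap A k ϖ ^ m = algebraMap A k v → m = 0 := by
    intro m u v hv h
    by_contra hm
    rw [← map_pow, ← map_mul] at h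
    have h1 := hinj h
    have h2 : ϖ ∣ v := by
      rw [← h1]
      exact Dvd.dvd.mul_left (dvd_pow_self ϖ hm) u
    exact hϖ.not_isUnit (isUnit_of_dvd_unit h2 hv)
  obtain ⟨m, rfl | rfl⟩ := n.eq_nat_or_neg
  · rw [zpow_natCast] at h
    rw [key m u v hv h]
    rfl
  · have h1 : algebraMap A k v * algebraMap A k ϖ ^ m = algebraMap A k u := by
      rw [← h, zpow_neg, zpow_natCast, mul_assoc, inv_mul_cancel₀ (pow_ne_zero _ hϖ0), mul_one]
    rw [key m v u hu h1]
    rfl

/-- the residue fields of the valuation rings of `N` -/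
theorem res_N {k Ω : Type} [Field k] [CharZero k] [Field Ω] [Algebra k Ω] [IsAlgClosed Ω]
    {F : IntermediateField k Ω} {N : IntermediateField F Ω} (x : Ω)
    (hx : Transcendental k x)
    (halg : Algebra.IsAlgebraic (IntermediateField.adjoin k {x}) Ω)
    (hκ : ∀ c : algebraicClosure k Ω, (c : Ω) ∈ N) (V : ValuationSubring N) (hV : V ≠ ⊤)
    (hk : ∀ c : k, algebraMap F N (algebraMap k F c) ∈ V) (z : N) (hz : z ∈ V) :
    ∃ c : algebraicClosure k Ω, z - ⟨c, hκ c⟩ ∈ V.nonunits := by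
  haveI hacl : IsAlgClosure k (algebraicClosure k Ω) := inferInstance
  haveI hclκ : IsAlgClosed (algebraicClosure k Ω) := hacl.isAlgClosed
  let R := IntermediateField.adjoin (algebraicClosure k Ω) {x}
  have hrat : RatF (algebraicClosure k Ω) (⟨x, IntermediateField.mem_adjoin_simple_self _ _⟩ : R) :=
    ratF_adj (trans_up hx)
  haveI hclR : IsAlgClosure R Ω := by
    have h1 : ∀ z ∈ IntermediateField.adjoin k {x}, z ∈ R.toSubfield := by
      refine adjoin_le_sub ?_ ?_
      · intro c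
        exact R.algebraMap_mem (algebraMap k (algebraicClosure k Ω) c)
      · intro w hw
        rw [Set.mem_singleton_iff] at hw
        rw [hw]
        exact IntermediateField.mem_adjoin_simple_self _ _
    refine ⟨inferInstance, ⟨fun z => ?_⟩⟩
    obtain ⟨p, hp, hpz⟩ := halg.isAlgebraic z
    let i : IntermediateField.adjoin k {x} →+* R :=
      (algebraMap (IntermediateField.adjoin k {x}) Ω).codRestrict R.toSubfield
        (fun z => h1 z z.2)
    refine ⟨p.map i, (Polynomial.map_ne_zero_iff i.injective).2 hp, ?_⟩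
    rw [Polynomial.aeval_def, Polynomial.eval₂_map]
    have h2 : (algebraMap R Ω).comp i = algebraMap (IntermediateField.adjoin k {x}) Ω := rfl
    rw [h2]
    exact hpz
  haveI : Algebra.IsAlgebraic R Ω := hclR.isAlgebraic
  obtain ⟨V', hV'⟩ := a_extv N Ω V
  have hmem : ∀ w : N, w ∈ V ↔ (w : Ω) ∈ V' := fun w => by rw [← hV']; rfl
  have hnon : ∀ w : N, w ∈ V.nonunits ↔ (w : Ω) ∈ V'.nonunits := by
    intro w
    rw [← hV', non_incl]
    rfl
  have hkV' : ∀ c : k, algebraMap k Ω c ∈ V' := fun c => (hmem _).1 (hk c)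
  have hκV' : ∀ c : algebraicClosure k Ω, algebraMap (algebraicClosure k Ω) Ω c ∈ V' := fun c =>
    Pool.Agent.W620.SC.const_mem hkV' c.2
  have htop : V' ≠ ⊤ := by
    rintro rfl
    apply hV
    rw [← hV']
    rfl
  obtain ⟨c, hc⟩ := Pool.Agent.Y948.PS.res hrat V' hκV' htop ((hmem z).1 hz)
  refine ⟨c, (hnon _).2 ?_⟩
  exact (ValuationSubring.mem_nonunits_iff _).2 hc

/-- **the place above `u = 0` is not fixed** -/
theorem nofix {A k Ω : Type} [CommRing A] [IsDomain A] [IsDiscreteValuationRing A]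
    [Field k] [CharZero k] [Algebra A k] [IsFractionRing A k] [Field Ω] [Algebra k Ω]
    [IsAlgClosed Ω] {ℓ : ℕ} (hℓ : 0 < ℓ) {F : IntermediateField k Ω} {N : IntermediateField F Ω}
    (M : IntermediateField k Ω)
    (hκM : ∀ c : algebraicClosure k Ω, (c : Ω) ∈ M)
    (hκ : ∀ c : algebraicClosure k Ω, (c : Ω) ∈ N) (s : Splitting F N) (V : ValuationSubring N)
    (hk : ∀ c : k, algebraMap F N (algebraMap k F c) ∈ V) (hV : InDecomposition M s V)
    (hres : ∀ z ∈ V, ∃ c : algebraicClosure k Ω, z - ⟨c, hκ c⟩ ∈ V.nonunits)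
    (u z : N) (hu : u ∈ V.nonunits) (q : A[X]) (hq : IsUnit (q.coeff 0)) (d : k)
    (hd : CoveringsOfTwistsByRotations.ValuationNotDivisible A ℓ d)
    (hz : algebraMap k N d * z ^ ℓ = aeval u (q.map (algebraMap A k)))
    (hzM : (z : Ω) ∈ M) (hfix : ∀ σ, s.toHom σ z = z) : False := by
  haveI hacl : IsAlgClosure k (algebraicClosure k Ω) := inferInstance
  haveI : IsAlgClosed (algebraicClosure k Ω) := hacl.isAlgClosed
  haveI : Normal k (algebraicClosure k Ω) := IsAlgClosure.normal k _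
  haveI : IsGalois k (algebraicClosure k Ω) := ⟨⟩
  obtain ⟨ϖ, w, n, hϖ, hw, hn, hdw⟩ := hd
  have hinj : Function.Injective (algebraMap A k) := IsFractionRing.injective A k
  have hϖ0 : algebraMap A k ϖ ≠ 0 := by
    rw [Ne, map_eq_zero_iff _ hinj]
    exact hϖ.ne_zero
  have hd0 : d ≠ 0 := by
    rw [hdw]
    exact mul_ne_zero (hw.map (algebraMap A k)).ne_zero (zpow_ne_zero _ hϖ0)
  have hk' : ∀ c : k, algebraMap k N c ∈ V := fun c => hk c
  have hdN : algebraMap k N d ≠ 0 := (_root_.map_ne_zero _).2 hd0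
  have huV : u ∈ V := non_mem hu
  -- the value of the polynomial
  have hqV : aeval u (q.map (algebraMap A k)) - algebraMap k N (algebraMap A k (q.coeff 0)) ∈
      V.nonunits := by
    have h1 : aeval u (q.map (algebraMap A k)) - algebraMap k N (algebraMap A k (q.coeff 0)) =
        aeval u ((q.map (algebraMap A k)).divX) * u := by
      have h2 := divX_mul_X_add (q.map (algebraMap A k))
      have h3 := congrArg (aeval u) h2
      rw [map_add, map_mul, aeval_X, aeval_C, coeff_map] at h3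
      rw [← h3]
      ring
    rw [h1]
    refine non_mul ?_ hu
    rw [aeval_eq_sum_range]
    refine sum_mem fun i _ => ?_
    rw [Algebra.smul_def]
    exact mul_mem (hk' _) (pow_mem huV i)
  have hqV' : aeval u (q.map (algebraMap A k)) ∈ V := by
    have h1 : aeval u (q.map (algebraMap A k)) =
        (aeval u (q.map (algebraMap A k)) - algebraMap k N (algebraMap A k (q.coeff 0))) +
        algebraMap k N (algebraMap A k (q.coeff 0)) := by ring
    rw [h1]
    exact add_mem (non_mem hqV) (hk' _)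
  have hzV : z ∈ V := by
    refine mem_of_pow V hℓ ?_
    have h1 : z ^ ℓ = algebraMap k N d⁻¹ * aeval u (q.map (algebraMap A k)) := by
      rw [← hz, ← mul_assoc, ← map_mul, inv_mul_cancel₀ hd0, map_one, one_mul]
    rw [h1]
    exact mul_mem (hk' _) hqV'
  obtain ⟨c, hc⟩ := hres z hzV
  -- constants are units
  have hcu : ∀ r : algebraicClosure k Ω, r ≠ 0 → (⟨r, hκ r⟩ : N) ∉ V.nonunits := by
    intro r hr h1
    obtain ⟨r', hr'⟩ : ∃ r' : N, r' ∈ V ∧ r' * (⟨r, hκ r⟩ : N) = 1 := by
      refine ⟨⟨(r⁻¹ : algebraicClosure k Ω), hκ _⟩, ?_, ?_⟩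
      · have hι : IsIntegral k (r⁻¹ : algebraicClosure k Ω) :=
          (Algebra.IsAlgebraic.isAlgebraic (R := k) (r⁻¹ : algebraicClosure k Ω)).isIntegral
        obtain ⟨p, hp, hpr⟩ := hι
        refine alg_mem ((algebraMap F N).comp (algebraMap k F)) V hk _ p hp ?_
        apply (algebraMap N Ω).injective
        rw [hom_eval₂, map_zero]
        have h2 := congrArg (algebraMap (algebraicClosure k Ω) Ω) hpr
        rw [hom_eval₂, map_zero] at h2
        exact h2
      · apply Subtype.ext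
        change ((r⁻¹ : algebraicClosure k Ω) : Ω) * (r : Ω) = 1
        have h2 : r⁻¹ * r = 1 := inv_mul_cancel₀ hr
        exact congrArg (fun w : algebraicClosure k Ω => (w : Ω)) h2
    have h3 := non_mul hr'.1 h1
    rw [hr'.2] at h3
    exact isU_one.not_nonunit h3
  -- `c` is fixed
  have hfixc : ∀ σ : algebraicClosure k Ω ≃ₐ[k] algebraicClosure k Ω, σ c = c := by
    intro σ
    have hwM : ((z - ⟨c, hκ c⟩ : N) : Ω) ∈ M := sub_mem hzM (hκM c)
    have h5 : s.toHom σ (z - ⟨c, hκ c⟩) ∈ V.nonunits := by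
      rw [ValuationSubring.mem_nonunits_iff_or] at hc ⊢
      rcases hc with h | h
      · left
        rw [h, map_zero]
      · right
        rw [← map_inv₀]
        intro h6
        apply h
        refine (hV σ _ ?_).1 h6
        exact inv_mem hwM
    have h6 : s.toHom σ ⟨c, hκ c⟩ = ⟨σ c, hκ (σ c)⟩ := by
      apply Subtype.ext
      exact s.compat σ c _ rfl
    rw [map_sub, hfix, h6] at h5
    by_contra hne
    have h7 := non_sub hc h5
    have h8 : (z - ⟨c, hκ c⟩) - (z - ⟨σ c, hκ (σ c)⟩) =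
        (⟨((σ c - c : algebraicClosure k Ω) : Ω), hκ _⟩ : N) := by
      apply Subtype.ext
      change ((z : Ω) - (c : Ω)) - ((z : Ω) - (σ c : Ω)) = (σ c : Ω) - (c : Ω)
      ring
    rw [h8] at h7
    exact hcu _ (sub_ne_zero.2 hne) h7
  obtain ⟨c₀, hc₀⟩ := IntermediateField.mem_bot.1 ((InfiniteGalois.mem_bot_iff_fixed c).2 hfixc)
  have hcN : (⟨c, hκ c⟩ : N) = algebraMap k N c₀ := by
    apply Subtype.ext
    rw [← hc₀]
    rfl
  rw [hcN] at hc
  -- the equation of the residues
  have hzc : z ^ ℓ - (algebraMap k N c₀) ^ ℓ ∈ V.nonunits := by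
    have h1 : (z - algebraMap k N c₀) ∣ (z ^ ℓ - (algebraMap k N c₀) ^ ℓ) := sub_dvd_pow_sub_pow _ _ _
    have h2 : z ^ ℓ - (algebraMap k N c₀) ^ ℓ =
        (∑ i ∈ Finset.range ℓ, z ^ i * (algebraMap k N c₀) ^ (ℓ - 1 - i)) *
          (z - algebraMap k N c₀) := (Commute.geom_sum₂_mul (Commute.all _ _) ℓ).symm
    rw [h2]
    refine non_mul (sum_mem fun i _ => ?_) hc
    exact mul_mem (pow_mem hzV _) (pow_mem (hk' _) _)
  have heq : algebraMap k N (d * c₀ ^ ℓ - algebraMap A k (q.coeff 0)) ∈ V.nonunits := by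
    have h1 : algebraMap k N (d * c₀ ^ ℓ - algebraMap A k (q.coeff 0)) =
        (aeval u (q.map (algebraMap A k)) - algebraMap k N (algebraMap A k (q.coeff 0))) -
        algebraMap k N d * (z ^ ℓ - (algebraMap k N c₀) ^ ℓ) := by
      rw [map_sub, map_mul, map_pow, ← hz]
      ring
    rw [h1]
    exact non_sub hqV (non_mul (hk' _) hzc)
  have heq0 : d * c₀ ^ ℓ = algebraMap A k (q.coeff 0) := by
    by_contra hne
    have hne' := sub_ne_zero.2 hne
    have h1 := non_mul (hk' (d * c₀ ^ ℓ - algebraMap A k (q.coeff 0))⁻¹) heq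
    rw [← map_mul, inv_mul_cancel₀ hne', map_one] at h1
    exact isU_one.not_nonunit h1
  have hc₀0 : c₀ ≠ 0 := by
    rintro rfl
    rw [zero_pow hℓ.ne', mul_zero] at heq0
    exact (hq.map (algebraMap A k)).ne_zero heq0.symm
  obtain ⟨w', n', hw', hc₀w⟩ := exists_val ϖ hϖ c₀ hc₀0
  have h9 : n + ℓ * n' = 0 := by
    refine zpow_unit (k := k) ϖ hϖ (n + ℓ * n') (w * w' ^ ℓ) (q.coeff 0) (hw.mul (hw'.pow ℓ)) hq ?_
    rw [← heq0, hdw, hc₀w, mul_pow, zpow_add₀ hϖ0, mul_comm (ℓ : ℤ) n', zpow_mul, zpow_natCast,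
      map_mul, map_pow]
    ring
  exact hn ⟨-n', by linarith⟩

end Pool.Agent.H71MX
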