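import Pool.Agent.H59.SCT.Adj

/-! # Stability of the maximal unramified pro-`ℓ` extension -/

set_option autoImplicit false
set_option linter.style.haveILetI false

namespace Pool.Agent.H71MX

open Pool.Agent.H59.SCT

section transport

variable {ℓ : ℕ} {k k' Ω : Type} [Field k] [Field k'] [Field Ω] [Algebra k Ω] [Algebra k' Ω]

/-- the image of a subfield under an automorphism of `Ω` -/
def transT {K K' : Type} [Field K] [Field K'] [Algebra K Ω] [Algebra K' Ω] (θ : Ω ≃+* Ω)
    (e : K ≃+* K') (he : ∀ z, algebraMap K' Ω (e z) = θ (algebraMap K Ω z))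
    (L : IntermediateField K Ω) : IntermediateField K' Ω where
  toSubalgebra :=
    { carrier := {z | θ.symm z ∈ L}
      mul_mem' := fun {a b} ha hb => by
        change θ.symm (a * b) ∈ L
        rw [map_mul]
        exact mul_mem ha hb
      add_mem' := fun {a b} ha hb => by
        change θ.symm (a + b) ∈ L
        rw [map_add]
        exact add_mem ha hb
      algebraMap_mem' := fun r => by
        have h1 := he (e.symm r)
        rw [e.apply_symm_apply] at h1
        change θ.symm (algebraMap K' Ω r) ∈ L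
        rw [h1, θ.symm_apply_apply]
        exact L.algebraMap_mem _ }
  inv_mem' := fun a ha => by
    change θ.symm a⁻¹ ∈ L
    rw [map_inv₀]
    exact inv_mem ha

theorem mem_transT {K K' : Type} [Field K] [Field K'] [Algebra K Ω] [Algebra K' Ω] (θ : Ω ≃+* Ω)
    (e : K ≃+* K') (he : ∀ z, algebraMap K' Ω (e z) = θ (algebraMap K Ω z))
    (L : IntermediateField K Ω) (z : Ω) : z ∈ transT θ e he L ↔ θ.symm z ∈ L := Iff.rfl

theorem maxProEll_map {K K' : Type} [Field K] [Field K'] [Algebra K Ω] [Algebra K' Ω]
    (θ : Ω ≃+* Ω)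
    (hk : ∀ W : ValuationSubring Ω, (∀ c : k', algebraMap k' Ω c ∈ W) →
      ∀ c : k, θ (algebraMap k Ω c) ∈ W)
    (e : K ≃+* K') (he : ∀ z, algebraMap K' Ω (e z) = θ (algebraMap K Ω z)) {z : Ω}
    (hz : z ∈ maxProEll ℓ k K Ω) : θ z ∈ maxProEll ℓ k' K' Ω := by
  have he' : ∀ z, algebraMap K Ω (e.symm z) = θ.symm (algebraMap K' Ω z) := fun z => by
    have h1 := he (e.symm z)
    rw [e.apply_symm_apply] at h1
    rw [h1, θ.symm_apply_apply]
  have h1 : maxProEll ℓ k K Ω ≤ transT θ.symm e.symm he' (maxProEll ℓ k' K' Ω) := by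
    refine iSup_le ?_
    rintro ⟨L, ⟨h1, h2, m, h3⟩, h4⟩ w hw
    rw [mem_transT, RingEquiv.symm_symm]
    let L' := transT θ e he L
    let g : L ≃+* L' :=
      { toFun := fun z => ⟨θ z.1, by
          change θ.symm (θ z.1) ∈ L
          rw [θ.symm_apply_apply]
          exact z.2⟩
        invFun := fun z => ⟨θ.symm z.1, z.2⟩
        left_inv := fun z => Subtype.ext (θ.symm_apply_apply _)
        right_inv := fun z => Subtype.ext (θ.apply_symm_apply _)
        map_mul' := fun a b => Subtype.ext (map_mul θ _ _)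
        map_add' := fun a b => Subtype.ext (map_add θ _ _) }
    have hcomp : (algebraMap K' L').comp (e : K →+* K') = (g : L →+* L').comp (algebraMap K L) := by
      ext z
      exact he z
    have hr : Module.finrank K L = Module.finrank K' L' :=
      Algebra.finrank_eq_of_equiv_equiv e g hcomp
    have hpos : 0 < Module.finrank K L := Module.finrank_pos
    have hfin : FiniteDimensional K' L' := FiniteDimensional.of_finrank_pos (hr ▸ hpos)
    have hgal : IsGalois K' L' := IsGalois.of_equiv_equiv (f := e) (g := g) hcomp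
    have hL' : L' ≤ maxProEll ℓ k' K' Ω := by
      refine le_iSup (fun L : {L : IntermediateField K' Ω // FiniteProEll ℓ L ∧ Unramified k' L} =>
        L.1) ⟨L', ⟨hfin, hgal, m, by rw [← hr, h3]⟩, ?_⟩
      intro W hW z hz hz0
      obtain ⟨t, ht, h5, h6⟩ := h4 (W.comap (θ : Ω →+* Ω)) (fun c => hk W hW c) (θ.symm z) hz
        ((_root_.map_ne_zero _).2 hz0)
      refine ⟨e t, (map_ne_zero_iff _ e.injective).2 ht, ?_, ?_⟩
      · rw [he]
        rw [ValuationSubring.mem_comap] at h5
        have h7 : (θ : Ω →+* Ω) (θ.symm z / algebraMap K Ω t) = z / θ (algebraMap K Ω t) := by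
          change θ (θ.symm z / algebraMap K Ω t) = _
          rw [map_div₀, θ.apply_symm_apply]
        rw [h7] at h5
        exact h5
      · rw [he]
        rw [ValuationSubring.mem_comap] at h6
        have h7 : (θ : Ω →+* Ω) (θ.symm z / algebraMap K Ω t)⁻¹ = (z / θ (algebraMap K Ω t))⁻¹ := by
          change θ (θ.symm z / algebraMap K Ω t)⁻¹ = _
          rw [map_inv₀, map_div₀, θ.apply_symm_apply]
        rw [h7] at h6
        exact h6
    apply hL'
    change θ.symm (θ w) ∈ L
    rw [θ.symm_apply_apply]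
    exact hw
  exact h1 hz

end transport

/-- **Galois stability** of the maximal unramified pro-`ℓ` extension of `k̄ F` -/
theorem proEll_stable {ℓ : ℕ} {k Ω : Type} [Field k] [Field Ω] [Algebra k Ω]
    (F : IntermediateField k Ω) (τ : Ω ≃ₐ[F] Ω) {z : Ω} (hz : z ∈ proEll ℓ F) :
    τ z ∈ proEll ℓ F := by
  have hτk : ∀ (τ : Ω ≃ₐ[F] Ω) (c : k), τ (algebraMap k Ω c) = algebraMap k Ω c := fun τ c =>
    τ.commutes (algebraMap k F c)
  have hτ : ∀ (τ : Ω ≃ₐ[F] Ω), ∀ w ∈ geom F, τ w ∈ geom F := by
    intro τ
    let τk : Ω →ₐ[k] Ω := (τ : Ω ≃ₐ[F] Ω).toAlgHom.restrictScalars k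
    have h1 : geom F ≤ (geom F).comap τk := by
      refine sup_le ?_ ?_
      · intro w hw
        change τ w ∈ geom F
        have h3 : τ w = w := τ.commutes ⟨w, hw⟩
        rw [h3]
        exact (le_sup_left : F ≤ geom F) hw
      · intro w hw
        change τ w ∈ geom F
        have h2 : τ w ∈ algebraicClosure k Ω := by
          rw [mem_algebraicClosure_iff] at hw ⊢
          obtain ⟨p, hp, hpw⟩ := hw
          refine ⟨p, hp, ?_⟩
          have h4 := Polynomial.aeval_algHom_apply τk w p
          rw [hpw, map_zero] at h4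
          exact h4
        exact (le_sup_right : algebraicClosure k Ω ≤ geom F) h2
    exact fun w hw => h1 hw
  let e : geom F ≃+* geom F :=
    { toFun := fun w => ⟨τ w.1, hτ τ _ w.2⟩
      invFun := fun w => ⟨τ.symm w.1, hτ τ.symm _ w.2⟩
      left_inv := fun w => Subtype.ext (τ.symm_apply_apply _)
      right_inv := fun w => Subtype.ext (τ.apply_symm_apply _)
      map_mul' := fun a b => Subtype.ext (map_mul τ _ _)
      map_add' := fun a b => Subtype.ext (map_add τ _ _) }
  exact maxProEll_map (ℓ := ℓ) (k := k) (k' := k) (τ : Ω ≃+* Ω)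
    (fun W hW c => by
      change τ (algebraMap k Ω c) ∈ W
      rw [hτk]
      exact hW c) e (fun w => rfl) hz

/-- stability under a semilinear automorphism -/
theorem stab {E Ω : Type} [Field E] [Field Ω] [Algebra E Ω] (ℓ : ℕ) (L : IntermediateField E Ω)
    (τ : Ω ≃+* Ω) (hL : ∀ z ∈ geom L, τ z ∈ geom L) (hL1 : ∀ z ∈ geom L, τ.symm z ∈ geom L)
    (hE : ∀ c : E, ∃ d : E, τ (algebraMap E Ω c) = algebraMap E Ω d)
    (_hE1 : ∀ c : E, ∃ d : E, τ.symm (algebraMap E Ω c) = algebraMap E Ω d) :
    ∀ z ∈ proEll ℓ L, τ z ∈ proEll ℓ L := by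
  intro z hz
  let e : geom L ≃+* geom L :=
    { toFun := fun w => ⟨τ w.1, hL _ w.2⟩
      invFun := fun w => ⟨τ.symm w.1, hL1 _ w.2⟩
      left_inv := fun w => Subtype.ext (τ.symm_apply_apply _)
      right_inv := fun w => Subtype.ext (τ.apply_symm_apply _)
      map_mul' := fun a b => Subtype.ext (map_mul τ _ _)
      map_add' := fun a b => Subtype.ext (map_add τ _ _) }
  exact maxProEll_map (ℓ := ℓ) (k := E) (k' := E) τ
    (fun W hW c => by
      obtain ⟨d, hd⟩ := hE c
      rw [hd]
      exact hW d) e (fun w => rfl) hz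

section ext

variable {k E Ω : Type} [Field k] [Field E] [Field Ω] [Algebra k E] [Algebra k Ω] [Algebra E Ω]
    [IsScalarTower k E Ω] [Algebra.IsAlgebraic k E]

theorem mem_of_alg (W : ValuationSubring Ω) (hW : ∀ c : k, algebraMap k Ω c ∈ W) (c : E) :
    algebraMap E Ω c ∈ W := by
  have h1 : IsIntegral k c := (Algebra.IsAlgebraic.isAlgebraic c).isIntegral
  have h2 : IsIntegral k (algebraMap E Ω c) := h1.map (IsScalarTower.toAlgHom k E Ω)
  obtain ⟨p, hp, hpz⟩ := h2
  have h3 : IsIntegral W (algebraMap E Ω c) := by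
    let i : k →+* W := (algebraMap k Ω).codRestrict W.toSubring hW
    refine ⟨p.map i, hp.map i, ?_⟩
    rw [Polynomial.eval₂_map]
    exact hpz
  obtain ⟨w, hw⟩ := IsIntegrallyClosed.isIntegral_iff.1 h3
  rw [← hw]
  exact w.2

theorem geom_adjoin (F : IntermediateField k Ω) (z : Ω) :
    z ∈ geom (IntermediateField.adjoin E (F : Set Ω)) ↔ z ∈ geom F := by
  have hE : ∀ c : E, algebraMap E Ω c ∈ geom F := by
    intro c
    have h1 : algebraMap E Ω c ∈ algebraicClosure k Ω := by
      rw [mem_algebraicClosure_iff]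
      exact (Algebra.IsAlgebraic.isAlgebraic (R := k) c).algebraMap
    exact (le_sup_right : algebraicClosure k Ω ≤ geom F) h1
  let G : IntermediateField E Ω :=
    { toSubalgebra :=
        { carrier := geom F
          mul_mem' := fun ha hb => mul_mem ha hb
          add_mem' := fun ha hb => add_mem ha hb
          algebraMap_mem' := fun r => hE r }
      inv_mem' := fun _ ha => inv_mem ha }
  constructor
  · intro hz
    have h1 : geom (IntermediateField.adjoin E (F : Set Ω)) ≤ G := by
      refine sup_le ?_ ?_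
      · rw [IntermediateField.adjoin_le_iff]
        intro w hw
        exact (le_sup_left : F ≤ geom F) hw
      · intro w hw
        have h2 : w ∈ algebraicClosure k Ω := by
          rw [mem_algebraicClosure_iff] at hw ⊢
          exact hw.restrictScalars k
        exact (le_sup_right : algebraicClosure k Ω ≤ geom F) h2
    exact h1 hz
  · intro hz
    have h1 : geom F ≤ (geom (IntermediateField.adjoin E (F : Set Ω))).restrictScalars k := by
      refine sup_le ?_ ?_
      · intro w hw
        exact (le_sup_left : _ ≤ geom (IntermediateField.adjoin E (F : Set Ω)))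
          (IntermediateField.subset_adjoin E _ hw)
      · intro w hw
        have h2 : w ∈ algebraicClosure E Ω := by
          rw [mem_algebraicClosure_iff] at hw ⊢
          exact hw.tower_top E
        exact (le_sup_right : _ ≤ geom (IntermediateField.adjoin E (F : Set Ω))) h2
    exact h1 hz

/-- **the maximal unramified pro-`ℓ` extension does not change under an algebraic extension of the
ground field** -/
theorem proEll_adjoin {ℓ : ℕ} (F : IntermediateField k Ω) (z : Ω) :
    z ∈ proEll ℓ (IntermediateField.adjoin E (F : Set Ω)) ↔ z ∈ proEll ℓ F := by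
  let e : geom (IntermediateField.adjoin E (F : Set Ω)) ≃+* geom F :=
    { toFun := fun w => ⟨w.1, (geom_adjoin F _).1 w.2⟩
      invFun := fun w => ⟨w.1, (geom_adjoin F _).2 w.2⟩
      left_inv := fun _ => rfl
      right_inv := fun _ => rfl
      map_mul' := fun _ _ => rfl
      map_add' := fun _ _ => rfl }
  constructor
  · intro hz
    exact maxProEll_map (ℓ := ℓ) (k := E) (k' := k) (RingEquiv.refl Ω)
      (fun W hW c => mem_of_alg (k := k) W hW c) e (fun w => rfl) hz
  · intro hz
    exact maxProEll_map (ℓ := ℓ) (k := k) (k' := E) (RingEquiv.refl Ω)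
      (fun W hW c => by
        change algebraMap k Ω c ∈ W
        rw [IsScalarTower.algebraMap_apply k E Ω]
        exact hW _) e.symm (fun w => rfl) hz

end ext

end Pool.Agent.H71MX
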