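import Pool.Agent.H71MX.Stab

/-! # Sections preserve the maximal unramified pro-`ℓ` extension -/

set_option autoImplicit false
set_option linter.style.haveILetI false

namespace Pool.Agent.H71MX

open Pool.Agent.H59.SCT

/-- automorphisms of `N` extend to `Ω` -/
theorem exists_ext {k Ω : Type} [Field k] [CharZero k] [Field Ω] [Algebra k Ω] [IsAlgClosed Ω]
    {F : IntermediateField k Ω} [Algebra.IsAlgebraic F Ω] {N : IntermediateField F Ω}
    (σ : N ≃ₐ[F] N) : ∃ τ : Ω ≃ₐ[F] Ω, ∀ z : N, τ z = σ z := by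
  haveI : IsAlgClosure F Ω := ⟨inferInstance, inferInstance⟩
  haveI : Normal F Ω := IsAlgClosure.normal F Ω
  exact ⟨σ.liftNormal Ω, fun z => σ.liftNormal_commutes Ω z⟩

/-- an `F`-automorphism maps a normal extension `E` of `k` to itself -/
theorem ext_normal {k E Ω : Type} [Field k] [Field E] [Field Ω] [Algebra k E] [Algebra k Ω]
    [Algebra E Ω] [IsScalarTower k E Ω] [Normal k E] {F : IntermediateField k Ω}
    (τ : Ω ≃ₐ[F] Ω) (c : E) : ∃ d : E, τ (algebraMap E Ω c) = algebraMap E Ω d := by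
  let τk : Ω →ₐ[k] Ω := (τ : Ω ≃ₐ[F] Ω).toAlgHom.restrictScalars k
  exact ⟨AlgHom.restrictNormal τk E c, (AlgHom.restrictNormal_commutes τk E c).symm⟩

/-- **`Aut(Ω/F)` preserves `proEll ℓ L`** if it preserves `geom L` -/
theorem proEll_stable_normal {k E Ω : Type} [Field k] [Field E] [Field Ω] [Algebra k E]
    [Algebra k Ω] [Algebra E Ω] [IsScalarTower k E Ω] [Normal k E] (ℓ : ℕ)
    {F : IntermediateField k Ω} (L : IntermediateField E Ω)
    (hL : ∀ τ : Ω ≃ₐ[F] Ω, ∀ z ∈ geom L, τ z ∈ geom L) (τ : Ω ≃ₐ[F] Ω) :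
    ∀ z ∈ proEll ℓ L, τ z ∈ proEll ℓ L :=
  stab ℓ L (τ : Ω ≃+* Ω) (hL τ) (hL τ.symm) (fun c => ext_normal τ c) fun c => ext_normal τ.symm c

/-- **sections preserve `proEll ℓ L`** if `Aut(Ω/F)` preserves `geom L` -/
theorem section_stable {k E Ω : Type} [Field k] [CharZero k] [Field E] [Field Ω] [Algebra k E]
    [Algebra k Ω] [Algebra E Ω] [IsScalarTower k E Ω] [Normal k E] [IsAlgClosed Ω] (ℓ : ℕ)
    {F : IntermediateField k Ω} [Algebra.IsAlgebraic F Ω] {N : IntermediateField F Ω}
    (L : IntermediateField E Ω) (hL : ∀ τ : Ω ≃ₐ[F] Ω, ∀ z ∈ geom L, τ z ∈ geom L)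
    (s : Splitting F N) :
    ∀ σ, ∀ z : N, (z : Ω) ∈ proEll ℓ L → ((s.toHom σ z : N) : Ω) ∈ proEll ℓ L := by
  intro σ z hz
  obtain ⟨τ, hτ⟩ := exists_ext (s.toHom σ)
  rw [← hτ z]
  exact proEll_stable_normal ℓ L hL τ _ hz

/-- `geom L` is preserved by `Aut(Ω/F)` if it is generated over `E` by `F` and elements whose images
lie in it -/
theorem geom_stable_of {k E Ω : Type} [Field k] [Field E] [Field Ω] [Algebra k E]
    [Algebra k Ω] [Algebra E Ω] [IsScalarTower k E Ω] [Normal k E]
    {F : IntermediateField k Ω} (S : Set Ω)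
    (hS : ∀ τ : Ω ≃ₐ[F] Ω, ∀ z ∈ S, τ z ∈ geom (IntermediateField.adjoin E S)) (τ : Ω ≃ₐ[F] Ω) :
    ∀ z ∈ geom (IntermediateField.adjoin E S), τ z ∈ geom (IntermediateField.adjoin E S) := by
  set G := geom (IntermediateField.adjoin E S) with hG
  have hE : ∀ c : E, τ (algebraMap E Ω c) ∈ G := by
    intro c
    obtain ⟨d, hd⟩ := ext_normal (E := E) τ c
    rw [hd]
    exact G.algebraMap_mem d
  let H : IntermediateField E Ω :=
    { toSubalgebra :=
        { carrier := {z | τ z ∈ G}
          mul_mem' := fun {a b} ha hb => by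
            change τ (a * b) ∈ G
            rw [map_mul]
            exact mul_mem ha hb
          add_mem' := fun {a b} ha hb => by
            change τ (a + b) ∈ G
            rw [map_add]
            exact add_mem ha hb
          algebraMap_mem' := fun r => hE r }
      inv_mem' := fun a ha => by
        change τ a⁻¹ ∈ G
        rw [map_inv₀]
        exact inv_mem ha }
  have h1 : G ≤ H := by
    refine sup_le ?_ ?_
    · rw [IntermediateField.adjoin_le_iff]
      exact fun z hz => hS τ z hz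
    · intro w hw
      change τ w ∈ G
      have hw' := hw
      rw [mem_algebraicClosure_iff] at hw'
      obtain ⟨p, hp, hpw⟩ := hw'
      have h2 : τ w ∈ algebraicClosure E Ω := by
        rw [mem_algebraicClosure_iff]
        -- `w` is algebraic over `k`
        have h3 : IsAlgebraic k w := IsAlgebraic.restrictScalars k ⟨p, hp, hpw⟩
        obtain ⟨q, hq, hqw⟩ := h3
        have h4 : IsAlgebraic k (τ w) := by
          refine ⟨q, hq, ?_⟩
          let τk : Ω →ₐ[k] Ω := (τ : Ω ≃ₐ[F] Ω).toAlgHom.restrictScalars k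
          have h5 := Polynomial.aeval_algHom_apply τk w q
          rw [hqw, map_zero] at h5
          exact h5
        exact h4.tower_top E
      exact (le_sup_right : algebraicClosure E Ω ≤ G) h2
  exact fun z hz => h1 hz

end Pool.Agent.H71MX
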