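import Pool.Agent.H71MX.Ell

/-! # Transfer of places and twists of the coordinate -/

set_option autoImplicit false
set_option linter.style.haveILetI false

open Polynomial

namespace Pool.Agent.H71MX

open Pool.Agent.Y157.PS
open Pool.Agent.H59.SCT
open Pool.Agent.Results.MP_c385f6_ag
open EllMonodromyCovers (IsGauss ActsTrivially)

/-- transfer of the conclusion from a larger base field -/
theorem transfer {k Ω : Type} [Field k] [Field Ω] [Algebra k Ω] {F F₁ : IntermediateField k Ω}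
    (hle : F ≤ F₁) {N : IntermediateField F Ω} (h : ∀ z ∈ F₁, z ∈ N) (M : IntermediateField k Ω)
    (s : Splitting F N) (s₁ : Splitting F₁ (same N F₁ h))
    (hs₁ : ∀ σ (z : same N F₁ h) (w : N), (w : Ω) = (z : Ω) →
      ((s₁.toHom σ z : same N F₁ h) : Ω) = ((s.toHom σ w : N) : Ω))
    (P Q : ValuationSubring N → Prop) (P₁ Q₁ : ValuationSubring (same N F₁ h) → Prop)
    (hP : ∀ W : ValuationSubring (same N F₁ h),
      (∀ c : k, algebraMap F₁ (same N F₁ h) (algebraMap k F₁ c) ∈ W) → P₁ W →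
      P (W.comap (sameEquiv N F₁ h : N →+* same N F₁ h)))
    (hQ : ∀ W : ValuationSubring N, (∀ c : k, algebraMap F N (algebraMap k F c) ∈ W) → Q W →
      Q₁ (W.comap ((sameEquiv N F₁ h).symm : same N F₁ h →+* N)))
    (H : FromOneRationalPlace M s₁ P₁ Q₁) : FromOneRationalPlace M s P Q := by
  obtain ⟨W₁, hW1, ⟨hWk, hWr⟩, hWd, hWu⟩ := H
  set e := sameEquiv N F₁ h with he
  have hact : ∀ σ (z : N), e (s.toHom σ z) = s₁.toHom σ (e z) := by
    intro σ z
    apply Subtype.ext
    exact (hs₁ σ (e z) z rfl).symm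
  refine ⟨W₁.comap (e : N →+* same N F₁ h), hP W₁ hWk hW1, ⟨fun c => ?_, fun z hz => ?_⟩,
    fun σ z hz => ?_, fun V hVk hVQ hVs z hz => ?_⟩
  · rw [ValuationSubring.mem_comap]
    exact hWk c
  · rw [ValuationSubring.mem_comap] at hz
    have h1 : e (algebraMap F N z) = algebraMap F₁ (same N F₁ h) ⟨z, hle z.2⟩ := rfl
    obtain ⟨c, hc⟩ := hWr ⟨z, hle z.2⟩ hz
    refine ⟨c, ?_⟩
    refine (comap_non' e W₁ _).2 ?_
    exact hc
  · rw [ValuationSubring.mem_comap, ValuationSubring.mem_comap]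
    change e (s.toHom σ z) ∈ W₁ ↔ e z ∈ W₁
    rw [hact]
    exact hWd σ (e z) hz
  · have h2 : InDecomposition M s₁ (V.comap (e.symm : same N F₁ h →+* N)) := by
      intro σ w hw
      obtain ⟨w, rfl⟩ := e.surjective w
      rw [ValuationSubring.mem_comap, ValuationSubring.mem_comap, ← hact]
      change e.symm (e (s.toHom σ w)) ∈ V ↔ e.symm (e w) ∈ V
      rw [e.symm_apply_apply, e.symm_apply_apply]
      exact hVs σ w hw
    have h3 := hWu (V.comap (e.symm : same N F₁ h →+* N)) (fun c => hVk c) (hQ V hVk hVQ) h2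
      (e z) hz
    rw [ValuationSubring.mem_comap] at h3 ⊢
    change e.symm (e z) ∈ V ↔ _ at h3
    rw [e.symm_apply_apply] at h3
    exact h3

/-- transfer of unramifiedness from a larger base field -/
theorem transfer_unram {A k Ω : Type} [CommRing A] [IsLocalRing A] [Field k] [Field Ω] [Algebra A k]
    [Algebra k Ω] {F F₁ : IntermediateField k Ω}
    {N : IntermediateField F Ω} (h : ∀ z ∈ F₁, z ∈ N) (M : IntermediateField k Ω)
    (s : Splitting F N) (s₁ : Splitting F₁ (same N F₁ h))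
    (hs₁ : ∀ σ (z : same N F₁ h) (w : N), (w : Ω) = (z : Ω) →
      ((s₁.toHom σ z : same N F₁ h) : Ω) = ((s.toHom σ w : N) : Ω)) (t t₁ : Ω)
    (ht : ∀ O : ValuationSubring Ω, IsGauss A k (algebraicClosure k Ω) t O →
      IsGauss A k (algebraicClosure k Ω) t₁ O) (H : Unram A t₁ M s₁) : Unram A t M s := by
  intro O hO σ hσ z hz hzO
  have h1 := H O (ht O hO) σ hσ (sameEquiv N F₁ h z) hz hzO
  have h2 : algebraMap (same N F₁ h) Ω (s₁.toHom σ (sameEquiv N F₁ h z) - sameEquiv N F₁ h z) =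
      algebraMap N Ω (s.toHom σ z - z) := by
    rw [map_sub, map_sub]
    congr 1
    exact hs₁ σ (sameEquiv N F₁ h z) z rfl
  rw [h2] at h1
  exact h1

/-- the Gauss valuation does not depend on a change of the coordinate by a unit -/
theorem gauss_scale {A k Ω : Type} [CommRing A] [IsLocalRing A] [Field k] [Field Ω] [Algebra A k]
    [Algebra k Ω] {K : Type} [Field K] [Algebra K Ω] (t t₁ : Ω) (c : K) (hc : c ≠ 0)
    (h : t = algebraMap K Ω c * t₁)
    (O : ValuationSubring Ω) (hc1 : algebraMap K Ω c ∈ O) (hc2 : algebraMap K Ω c⁻¹ ∈ O)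
    (hO : IsGauss A k K t O) : IsGauss A k K t₁ O := by
  obtain ⟨h1, h2, h3, h4⟩ := hO
  have ht₁ : t₁ = algebraMap K Ω c⁻¹ * t := by
    rw [h, ← mul_assoc, ← map_mul, inv_mul_cancel₀ hc, map_one, one_mul]
  refine ⟨h1, h2, by rw [ht₁]; exact mul_mem hc2 h3, fun p hp hp' => ?_⟩
  have h5 : aeval t₁ p = aeval t (p.comp (C c⁻¹ * X)) := by
    rw [aeval_comp, ht₁]
    simp
  have hco : ∀ n, (p.comp (C c⁻¹ * X)).coeff n = p.coeff n * c⁻¹ ^ n := fun n =>
    comp_C_mul_X_coeff
  rw [h5]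
  refine h4 _ (fun n => ?_) ?_
  · rw [hco, map_mul, map_pow]
    exact mul_mem (hp n) (pow_mem hc2 n)
  · obtain ⟨n, hn⟩ := hp'
    refine ⟨n, fun h6 => hn ?_⟩
    rw [hco, map_mul, map_pow] at h6
    have h7 : algebraMap K Ω (p.coeff n) = algebraMap K Ω c ^ n *
        (algebraMap K Ω (p.coeff n) * algebraMap K Ω c⁻¹ ^ n) := by
      rw [mul_comm, mul_assoc, ← mul_pow, ← map_mul, inv_mul_cancel₀ hc, map_one, one_pow, mul_one]
    rw [h7]
    exact non_mul (pow_mem hc1 n) h6

/-- an element is in the valuation ring if a power is -/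
theorem mem_of_pow {K : Type} [Field K] (O : ValuationSubring K) {c : K} {m : ℕ} (hm : 0 < m)
    (h : c ^ m ∈ O) : c ∈ O := by
  rcases O.mem_or_inv_mem c with h1 | h1
  · exact h1
  by_cases hc : c = 0
  · rw [hc]; exact zero_mem O
  have h2 : c = c ^ m * (c⁻¹) ^ (m - 1) := by
    obtain ⟨m, rfl⟩ : ∃ n, m = n + 1 := ⟨m - 1, by omega⟩
    rw [Nat.add_sub_cancel, pow_succ, mul_comm (c ^ m) c, mul_assoc, ← mul_pow,
      mul_inv_cancel₀ hc, one_pow, mul_one]
  rw [h2]
  exact mul_mem h (pow_mem h1 _)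

/-- an element is in the maximal ideal if a power is -/
theorem non_of_pow {K : Type} [Field K] (O : ValuationSubring K) {c : K} {m : ℕ} (hm : 0 < m)
    (h : c ^ m ∈ O.nonunits) : c ∈ O.nonunits := by
  rw [nonunits_iff] at h ⊢
  refine ⟨mem_of_pow O hm h.1, ?_⟩
  rcases h.2 with h1 | h1
  · exact Or.inl (pow_eq_zero_iff hm.ne' |>.1 h1)
  · right
    intro h2
    apply h1
    rw [← inv_pow]
    exact pow_mem h2 m

/-- powers of elements of the maximal ideal -/
theorem non_pow {K : Type} [Field K] (O : ValuationSubring K) {c : K} {m : ℕ} (hm : 0 < m)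
    (h : c ∈ O.nonunits) : c ^ m ∈ O.nonunits := by
  obtain ⟨m, rfl⟩ : ∃ n, m = n + 1 := ⟨m - 1, by omega⟩
  rw [pow_succ]
  exact non_mul (pow_mem (non_mem h) m) h

/-- the valuation of an element of the field of fractions -/
theorem exists_val {A k : Type} [CommRing A] [IsDomain A] [IsDiscreteValuationRing A]
    [Field k] [Algebra A k] [IsFractionRing A k] (ϖ : A) (hϖ : Irreducible ϖ) (a : k) (ha : a ≠ 0) :
    ∃ (u : A) (n : ℤ), IsUnit u ∧ a = algebraMap A k u * algebraMap A k ϖ ^ n := by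
  obtain ⟨b, c, hc, rfl⟩ := IsFractionRing.div_surjective (A := A) a
  have hinj : Function.Injective (algebraMap A k) := IsFractionRing.injective A k
  have hc0 : c ≠ 0 := nonZeroDivisors.ne_zero hc
  have hb0 : b ≠ 0 := by
    rintro rfl
    exact ha (by rw [map_zero, zero_div])
  have hϖ0 : algebraMap A k ϖ ≠ 0 := by
    rw [Ne, map_eq_zero_iff _ hinj]
    exact hϖ.ne_zero
  obtain ⟨n, u, hu⟩ := IsDiscreteValuationRing.eq_unit_mul_pow_irreducible hb0 hϖ
  obtain ⟨n', u', hu'⟩ := IsDiscreteValuationRing.eq_unit_mul_pow_irreducible hc0 hϖ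
  refine ⟨u * (u'⁻¹ : Aˣ), (n : ℤ) - n', (u.isUnit).mul (u'⁻¹).isUnit, ?_⟩
  have hu'0 : algebraMap A k (u' : A) ≠ 0 := (u'.isUnit.map (algebraMap A k)).ne_zero
  have h1 : algebraMap A k ((u'⁻¹ : Aˣ) : A) = (algebraMap A k (u' : A))⁻¹ := by
    rw [eq_comm, inv_eq_iff_eq_inv, eq_comm]
    refine inv_eq_of_mul_eq_one_right ?_
    rw [← map_mul, Units.inv_mul, map_one]
  rw [hu, hu', map_mul, map_mul, map_mul, map_pow, map_pow, h1, zpow_sub₀ hϖ0, zpow_natCast,
    zpow_natCast]
  field_simp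

/-- the polynomial `g(u x^m)` -/
theorem good_comp {A : Type} [CommRing A] [IsDomain A] [IsDiscreteValuationRing A]
    {ℓ j : ℕ} [Fact ℓ.Prime] (hj : 1 ≤ j) {g : A[X]}
    (hg : CoveringsOfTwistsByRotations.GoodPolynomial (ℓ ^ j) g) (u : A) (hu : IsUnit u) :
    EtaleCoverings.GoodPolynomial ℓ (g.comp (C u * X ^ (ℓ ^ j))) := by
  obtain ⟨hlc, hs, h3⟩ := hg
  have hp := (Fact.out : ℓ.Prime).pos
  have hm : 0 < ℓ ^ j := pow_pos hp j
  have hd : (C u * X ^ (ℓ ^ j) : A[X]).natDegree = ℓ ^ j := natDegree_C_mul_X_pow _ _ hu.ne_zero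
  have hdeg : (g.comp (C u * X ^ (ℓ ^ j))).natDegree = (expand A (ℓ ^ j) g).natDegree := by
    rw [natDegree_comp, hd, natDegree_expand]
  refine ⟨?_, ?_, ?_, by rw [hdeg]; exact h3⟩
  · rw [leadingCoeff_comp (by rw [hd]; exact hm.ne'), leadingCoeff_C_mul_X_pow]
    exact hlc.mul (hu.pow _)
  · set κ := AlgebraicClosure (IsLocalRing.ResidueField A) with hκ
    obtain ⟨v, hv⟩ := IsAlgClosed.exists_pow_nat_eq
      (algebraMap (IsLocalRing.ResidueField A) κ (IsLocalRing.residue A u)) hm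
    have hv0 : v ≠ 0 := by
      rintro rfl
      rw [zero_pow hm.ne'] at hv
      have h1 : IsUnit (algebraMap (IsLocalRing.ResidueField A) κ (IsLocalRing.residue A u)) :=
        (hu.map (IsLocalRing.residue A)).map _
      exact h1.ne_zero hv.symm
    rw [← separable_map (algebraMap (IsLocalRing.ResidueField A) κ)]
    have h1 : ((g.comp (C u * X ^ (ℓ ^ j))).map (IsLocalRing.residue A)).map
        (algebraMap (IsLocalRing.ResidueField A) κ) =
        (((expand A (ℓ ^ j) g).map (IsLocalRing.residue A)).map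
          (algebraMap (IsLocalRing.ResidueField A) κ)).comp (C v * X) := by
      rw [map_expand, map_expand, expand_eq_comp_X_pow, comp_assoc, Polynomial.map_comp,
        Polynomial.map_comp]
      congr 1
      simp [mul_pow, ← C_pow, hv]
    rw [h1]
    have h2 : (((expand A (ℓ ^ j) g).map (IsLocalRing.residue A)).map
      (algebraMap (IsLocalRing.ResidueField A) κ)).Separable := hs.map
    set E := ((expand A (ℓ ^ j) g).map (IsLocalRing.residue A)).map
      (algebraMap (IsLocalRing.ResidueField A) κ) with hE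
    unfold Separable at h2 ⊢
    rw [derivative_comp]
    have h3 : derivative (C v * X) = C v := by simp
    rw [h3]
    have h4 : IsCoprime (E.comp (C v * X)) ((derivative E).comp (C v * X)) := by
      have := h2.map (compRingHom (C v * X))
      simpa using this
    have h5 : IsUnit (C v : κ[X]) := isUnit_C.2 (isUnit_iff_ne_zero.2 hv0)
    exact (isCoprime_mul_unit_left_right h5 _ _).2 h4
  · rw [hdeg, natDegree_expand]
    exact Dvd.dvd.mul_left (dvd_pow_self ℓ (by omega)) _

end Pool.Agent.H71MX
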