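import Pool.Agent.H71MX.Clo

/-! # Pro-`ℓ` covers of mixed ramification: `k(x, w)` and `k(t, y)` have the same places -/

set_option autoImplicit false
set_option linter.style.haveILetI false

open Polynomial

namespace Pool.Agent.H71MX

open Pool.Agent.H59.SCT Pool.Agent.Y157.PS Pool.Agent.Y948.PS

section vals

variable {κ Ω : Type} [Field κ] [Field Ω] [Algebra κ Ω]

theorem val_const (W : ValuationSubring Ω) (hW : ∀ c : κ, algebraMap κ Ω c ∈ W) {c : κ}
    (hc : c ≠ 0) : W.valuation (algebraMap κ Ω c) = 1 := by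
  refine (isU_iff W).1 ⟨(_root_.map_ne_zero _).2 hc, hW c, ?_⟩
  rw [← map_inv₀]
  exact hW _

theorem aeval_mem (W : ValuationSubring Ω) (hW : ∀ c : κ, algebraMap κ Ω c ∈ W) (f : κ[X]) {z : Ω}
    (hz : z ∈ W) : aeval z f ∈ W := by
  rw [aeval_eq_sum_range]
  refine sum_mem fun i _ => ?_
  rw [Algebra.smul_def]
  exact mul_mem (hW _) (pow_mem hz _)

/-- the value of a polynomial at a point near `a` -/
theorem val_near (W : ValuationSubring Ω) (hW : ∀ c : κ, algebraMap κ Ω c ∈ W) (f : κ[X]) {z : Ω}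
    (a : κ) (hz : W.valuation (z - algebraMap κ Ω a) < 1) (hf : f.eval a ≠ 0) :
    W.valuation (aeval z f) = 1 := by
  obtain ⟨g, hg⟩ := X_sub_C_dvd_sub_C_eval (a := a) (p := f)
  have hzW : z ∈ W := by
    have h1 : z - algebraMap κ Ω a ∈ W := (W.valuation_le_one_iff _).1 hz.le
    have h2 := add_mem h1 (hW a)
    rwa [sub_add_cancel] at h2
  have h1 : aeval z f = (z - algebraMap κ Ω a) * aeval z g + algebraMap κ Ω (f.eval a) := by
    have h2 := congrArg (aeval z) hg
    rw [map_sub, map_mul, map_sub, aeval_X, aeval_C, aeval_C, sub_eq_iff_eq_add] at h2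
    exact h2
  have h2 : W.valuation ((z - algebraMap κ Ω a) * aeval z g) <
      W.valuation (algebraMap κ Ω (f.eval a)) := by
    rw [val_const W hW hf, map_mul]
    calc W.valuation (z - algebraMap κ Ω a) * W.valuation (aeval z g)
        ≤ W.valuation (z - algebraMap κ Ω a) * 1 :=
          mul_le_mul_right ((W.valuation_le_one_iff _).2 (aeval_mem W hW g hzW)) _
      _ < 1 := by rwa [mul_one]
  rw [h1, Valuation.map_add_eq_of_lt_right _ h2, val_const W hW hf]

/-- the value of a polynomial at a pole -/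
theorem val_far (W : ValuationSubring Ω) (hW : ∀ c : κ, algebraMap κ Ω c ∈ W) (f : κ[X])
    (hf : f ≠ 0) {z : Ω} (hz : 1 < W.valuation z) :
    W.valuation (aeval z f) = W.valuation z ^ f.natDegree := by
  have hz0 : z ≠ 0 := by rintro rfl; simp at hz
  have h1 : aeval z f = aeval z⁻¹ f.reverse * z ^ f.natDegree := by
    letI : Invertible z := invertibleOfNonzero hz0
    have h3 := eval₂_reverse_mul_pow (algebraMap κ Ω) z f
    rw [invOf_eq_inv] at h3
    exact h3.symm
  have h2 : W.valuation (aeval z⁻¹ f.reverse) = 1 := by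
    refine val_near W hW _ 0 ?_ ?_
    · rw [map_zero, sub_zero, map_inv₀]
      exact inv_lt_one_of_one_lt₀ hz
    · rw [← coeff_zero_eq_eval_zero, coeff_zero_reverse]
      exact leadingCoeff_ne_zero.2 hf
  rw [h1, map_mul, h2, one_mul, map_pow]

end vals

section

variable {k Ω : Type} [Field k] [CharZero k] [Field Ω] [Algebra k Ω] [IsAlgClosed Ω]

/-- the uniformisers of the maximal unramified pro-`ℓ` extension of `k̄(t, y)` -/
theorem uni_M {ℓ : ℕ} [Fact ℓ.Prime] {t y : Ω} (htr : Transcendental k t)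
    (halg : Algebra.IsAlgebraic (IntermediateField.adjoin k {t}) Ω) (Q : k[X])
    (hQ : Q.Separable) (hdvd : ℓ ∣ Q.natDegree) (hQ0 : 0 < Q.natDegree)
    (hyQ : y ^ ℓ = aeval t Q) (W : ValuationSubring Ω)
    (hW : ∀ c : algebraicClosure k Ω, algebraMap (algebraicClosure k Ω) Ω c ∈ W) (hWt : W ≠ ⊤) :
    ∃ π : Ω, π ≠ 0 ∧ (∀ z ∈ proEll ℓ (IntermediateField.adjoin k {t, y}), z ≠ 0 →
      ∃ n : ℤ, W.valuation z = W.valuation π ^ n) ∧
      ((∃ e : algebraicClosure k Ω, (Q.map (algebraMap k _)).eval e = 0 ∧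
          W.valuation (t - e) < 1 ∧ W.valuation π = W.valuation y) ∨
        (∃ a : algebraicClosure k Ω, W.valuation (t - a) < 1 ∧ π = t - a) ∨
        (1 < W.valuation t ∧ π = t⁻¹)) := by
  classical
  have hp := (Fact.out : ℓ.Prime).pos
  have hℓ0 : ℓ ≠ 0 := hp.ne'
  set F₁ := IntermediateField.adjoin k {t, y} with hF₁
  have htF₁ : t ∈ F₁ := IntermediateField.subset_adjoin _ _ (by simp)
  have hyF₁ : y ∈ F₁ := IntermediateField.subset_adjoin _ _ (by simp)
  have htop : IntermediateField.adjoin k {(⟨t, htF₁⟩ : F₁), ⟨y, hyF₁⟩} = ⊤ := adj_top t y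
  haveI := alg_over halg F₁ htF₁
  haveI : IsAlgClosure F₁ Ω := ⟨inferInstance, inferInstance⟩
  haveI hacl : IsAlgClosure k (algebraicClosure k Ω) := inferInstance
  haveI hclκ : IsAlgClosed (algebraicClosure k Ω) := hacl.isAlgClosed
  haveI : CharZero (algebraicClosure k Ω) :=
    charZero_of_injective_algebraMap (algebraMap k (algebraicClosure k Ω)).injective
  have hPne : Q ≠ 0 := fun h => by simp [h] at hQ0
  have hc : Q.leadingCoeff ≠ 0 := leadingCoeff_ne_zero.2 hPne
  obtain ⟨δ, hδ⟩ := IsAlgClosed.exists_pow_nat_eq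
    (algebraMap k (algebraicClosure k Ω) Q.leadingCoeff)⁻¹ hp
  have hδ0 : δ ≠ 0 := by
    rintro rfl
    rw [zero_pow hℓ0] at hδ
    exact (inv_ne_zero ((_root_.map_ne_zero _).2 hc)) hδ.symm
  let R' := IntermediateField.adjoin (algebraicClosure k Ω) {t}
  let tR : R' := ⟨t, IntermediateField.mem_adjoin_simple_self _ _⟩
  have hrat' : RatF (algebraicClosure k Ω) tR := ratF_adj (trans_up htr)
  haveI hclR' : IsAlgClosure R' Ω := closure_line halg
  haveI : Algebra.IsAlgebraic R' Ω := hclR'.isAlgebraic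
  haveI : Normal R' Ω := IsAlgClosure.normal R' Ω
  let Pk : (algebraicClosure k Ω)[X] := Q.map (algebraMap k (algebraicClosure k Ω))
  have hPk : Pk.Separable := hQ.map
  have hPk0 : Pk ≠ 0 := (Polynomial.map_ne_zero_iff (algebraMap k _).injective).2 hPne
  let B : Finset (algebraicClosure k Ω) := Pk.roots.toFinset
  have hnd : Pk.roots.Nodup := nodup_roots hPk
  have hBc : B.card = Q.natDegree := by
    rw [Multiset.toFinset_card_of_nodup hnd, IsAlgClosed.card_roots_eq_natDegree, natDegree_map]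
  have hprod : Pk = C Pk.leadingCoeff * ∏ e ∈ B, (X - C e) := by
    have h1 := IsAlgClosed.splits Pk
    have h2 := h1.eq_prod_roots
    rw [Finset.prod_multiset_map_count] at h2
    conv_lhs => rw [h2]
    congr 1
    refine Finset.prod_congr rfl fun e he => ?_
    rw [Multiset.count_eq_one_of_mem hnd (Multiset.mem_toFinset.1 he), pow_one]
  have hY : ((δ : Ω) * y) ^ ℓ = ∏ e ∈ B, (algebraMap R' Ω tR -
      algebraMap (algebraicClosure k Ω) Ω e) := by
    have h1 : aeval t Q = aeval t Pk := (aeval_map_algebraMap _ t Q).symm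
    have h2 : (δ : Ω) ^ ℓ = (algebraMap k Ω Q.leadingCoeff)⁻¹ := by
      have := congrArg (fun z : algebraicClosure k Ω => (z : Ω)) hδ
      exact this
    have h3 : Pk.leadingCoeff = algebraMap k (algebraicClosure k Ω) Q.leadingCoeff :=
      leadingCoeff_map _
    rw [mul_pow, hyQ, h2, h1]
    conv_lhs => rw [hprod]
    rw [map_mul, aeval_C, h3, map_prod, ← IsScalarTower.algebraMap_apply, ← mul_assoc,
      inv_mul_cancel₀ ((_root_.map_ne_zero _).2 hc), one_mul]
    refine Finset.prod_congr rfl fun e _ => ?_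
    rw [map_sub, aeval_X, aeval_C]
    rfl
  have hYf : ((δ : Ω) * y) ^ ℓ =
      algebraMap R' Ω (∏ e ∈ B, (tR - algebraMap (algebraicClosure k Ω) R' e)) := by
    rw [hY, map_prod]
    refine Finset.prod_congr rfl fun e _ => ?_
    rw [map_sub, ← IsScalarTower.algebraMap_apply]
  have hBne : B.Nonempty := by
    rw [← Finset.card_pos, hBc]
    exact hQ0
  have hHU : HU (algebraicClosure k Ω) (IntermediateField.adjoin R' {(δ : Ω) * y}) :=
    hu_K0 hrat' (hBc ▸ hdvd) hBne hY
  have hMem : ∀ z, z ∈ proEll ℓ F₁ →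
      Mem ℓ (algebraicClosure k Ω) (IntermediateField.adjoin R' {(δ : Ω) * y}) z := by
    intro z hz
    rw [proEll_iff, ← maxPro_geom ℓ k (x := (⟨t, htF₁⟩ : F₁)) (y := ⟨y, hyF₁⟩) htop δ hδ0 z] at hz
    exact Pool.Agent.Y948.PS.maxPro_le hrat' hYf hHU hz
  have hRW : ∃ z : R', algebraMap R' Ω z ∉ W := by
    by_contra hc
    push Not at hc
    exact hWt (top_of_R W hc)
  obtain ⟨π, h1, h2, h3, h4⟩ := Pool.Agent.Y809.PS.k0 ℓ (algebraicClosure k Ω) R' Ω tR hrat' B
    (hBc ▸ hdvd) hBne _ hY W hW hRW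
  have hlt : W.valuation π < 1 := (ValuationSubring.mem_nonunits_iff _).1 h1
  have hπ0 : W.valuation π ≠ 0 := ((Valuation.pos_iff _).2 h2).ne'
  have hUnf : Unf (IntermediateField.adjoin R' {(δ : Ω) * y}) W π := by
    refine ⟨?_, h2, hlt, ?_⟩
    · rcases h3 with ⟨e, he, rfl, _⟩ | ⟨a, ha, rfl⟩ | rfl
      · exact IntermediateField.mem_adjoin_simple_self R' _
      · refine sub_mem (algebraMap_mem _ _) ?_
        rw [IsScalarTower.algebraMap_apply (algebraicClosure k Ω) R' Ω]
        exact algebraMap_mem _ _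
      · exact inv_mem (algebraMap_mem _ _)
    · intro z hz hz0
      obtain ⟨n, hn⟩ := h4 z hz hz0
      refine ⟨n, ?_⟩
      have h5 := (isU_iff W).1 hn
      rw [map_div₀, map_zpow₀] at h5
      rwa [div_eq_one_iff_eq] at h5
      exact zpow_ne_zero _ hπ0
  have hδv : W.valuation (δ : Ω) = 1 := val_const W hW hδ0
  refine ⟨π, h2, fun z hz hz0 => ((hMem z hz).2 W hW hWt).val' hUnf hz0, ?_⟩
  rcases h3 with ⟨e, he, rfl, h5⟩ | ⟨a, ha, rfl⟩ | rfl
  · refine Or.inl ⟨e, ?_, ?_, ?_⟩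
    · exact (Polynomial.mem_roots hPk0).1 (Multiset.mem_toFinset.1 he)
    · have h6 := (isU_iff W).1 h5
      rw [map_div₀, map_pow, div_eq_one_iff_eq (pow_ne_zero _ hπ0)] at h6
      have h7 : W.valuation (t - e) = W.valuation ((δ : Ω) * y) ^ ℓ := h6
      rw [h7]
      exact pow_lt_one₀ zero_le hlt hℓ0
    · rw [map_mul, hδv, one_mul]
  · exact Or.inr (Or.inl ⟨a, hlt, rfl⟩)
  · refine Or.inr (Or.inr ⟨?_, rfl⟩)
    have h5 : W.valuation t⁻¹ < 1 := hlt
    rw [map_inv₀] at h5
    have h6 : W.valuation t ≠ 0 := by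
      intro h6
      have h7 : t = 0 := (map_eq_zero _).1 h6
      apply htr
      rw [h7]
      exact isAlgebraic_zero
    exact (inv_lt_one₀ (zero_lt_iff.2 h6)).1 h5

/-- **`k̄(x, w)` and the maximal unramified pro-`ℓ` extension of `k̄(t, y)` have the same values** -/
theorem unr_expl {ℓ j : ℕ} [Fact ℓ.Prime] (hj : 1 ≤ j) {t x y w : Ω} (ht : t ^ (ℓ ^ j) = x)
    (hx : Transcendental k x)
    (halg : Algebra.IsAlgebraic (IntermediateField.adjoin k {x}) Ω) (P : k[X])
    (hP : (expand k (ℓ ^ j) P).Separable) (hP0 : 0 < P.natDegree) (hy : y ^ ℓ = aeval x P)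
    (a b : ℕ) (ha : ¬ ℓ ∣ a) (hb : ¬ ℓ ∣ b) (hab : ¬ ℓ ∣ a + b * P.natDegree * ℓ ^ (j - 1))
    (c : k) (hc : c ≠ 0)
    (hw : algebraMap k Ω c * w ^ (ℓ ^ j) = x ^ a * aeval x P ^ (b * ℓ ^ (j - 1))) :
    UnramifiedOver (geom (IntermediateField.adjoin k {x, w}))
      (proEll ℓ (IntermediateField.adjoin k {t, y})) := by
  classical
  intro W hW z hz hz0
  have hp : ℓ.Prime := Fact.out
  have hℓ0 : ℓ ≠ 0 := hp.ne_zero
  set m := ℓ ^ j with hm
  have hm0 : m ≠ 0 := pow_ne_zero _ hℓ0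
  have hm1 : m = ℓ ^ (j - 1) * ℓ := by
    rw [← pow_succ, hm]; congr 1; omega
  set F := IntermediateField.adjoin k {x, w} with hF
  have hxF : x ∈ F := IntermediateField.subset_adjoin _ _ (by simp)
  have hwF : w ∈ F := IntermediateField.subset_adjoin _ _ (by simp)
  have hPF : aeval x P ∈ F := by
    rw [aeval_eq_sum_range]
    exact sum_mem fun i _ => F.smul_mem (pow_mem hxF _)
  by_cases hWt : W = ⊤
  · refine ⟨1, one_mem _, one_ne_zero, ?_, ?_⟩ <;> rw [hWt] <;> trivial
  have hWκ : ∀ c : algebraicClosure k Ω, algebraMap (algebraicClosure k Ω) Ω c ∈ W :=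
    fun c => Pool.Agent.W620.SC.const_mem hW c.2
  haveI : CharZero (algebraicClosure k Ω) :=
    charZero_of_injective_algebraMap (algebraMap k (algebraicClosure k Ω)).injective
  -- the polynomial
  set Q := expand k m P with hQdef
  have hyQ : y ^ ℓ = aeval t Q := by
    rw [hy, hQdef, expand_aeval, ht]
  have htr : Transcendental k t := by
    intro h
    apply hx
    rw [← ht]
    exact h.pow _
  have hdeg : Q.natDegree = P.natDegree * m := natDegree_expand _ _
  have hxt : x ∈ IntermediateField.adjoin k {t} := by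
    rw [← ht]
    exact pow_mem (IntermediateField.mem_adjoin_simple_self k _) _
  have hPne : P ≠ 0 := fun h => by simp [h] at hP0
  -- elements that are not zero
  have hx0 : x ≠ 0 := by
    rintro rfl
    exact hx isAlgebraic_zero
  have ht0 : t ≠ 0 := by
    rintro rfl
    exact htr isAlgebraic_zero
  have hPx0 : aeval x P ≠ 0 := fun h => hx ⟨P, hPne, h⟩
  have hy0 : y ≠ 0 := by
    rintro rfl
    rw [zero_pow hℓ0] at hy
    exact hPx0 hy.symm
  have hw0 : w ≠ 0 := by
    rintro rfl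
    rw [zero_pow hm0, mul_zero] at hw
    exact mul_ne_zero (pow_ne_zero _ hx0) (pow_ne_zero _ hPx0) hw.symm
  have vx0 : W.valuation x ≠ 0 := (_root_.map_ne_zero _).2 hx0
  have vt0 : W.valuation t ≠ 0 := (_root_.map_ne_zero _).2 ht0
  have vy0 : W.valuation y ≠ 0 := (_root_.map_ne_zero _).2 hy0
  -- `P(0) ≠ 0`
  have hP00 : P.eval 0 ≠ 0 := by
    intro h0
    have h1 : (X : k[X]) ∣ P := by
      rw [X_dvd_iff, coeff_zero_eq_eval_zero]; exact h0
    obtain ⟨P', hP'⟩ := h1
    have h2 : Q = X ^ m * expand k m P' := by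
      rw [hQdef, hP', map_mul, expand_X]
    have h3 := hP.squarefree
    rw [h2] at h3
    have h4 : (X : k[X]) * X ∣ X ^ m * expand k m P' := by
      refine Dvd.dvd.mul_right ?_ _
      rw [← pow_two]
      refine pow_dvd_pow _ ?_
      rw [hm]
      calc 2 ≤ ℓ := hp.two_le
        _ = ℓ ^ 1 := (pow_one _).symm
        _ ≤ ℓ ^ j := Nat.pow_le_pow_right hp.pos hj
    exact not_isUnit_X (h3 X h4)
  -- the values
  have vx : W.valuation x = W.valuation t ^ m := by rw [← ht, map_pow]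
  have vP : W.valuation (aeval x P) = W.valuation y ^ ℓ := by rw [← hy, map_pow]
  have vw : W.valuation w = W.valuation t ^ a * W.valuation y ^ b := by
    have h1 := congrArg W.valuation hw
    rw [map_mul, val_const W hW hc, one_mul, map_pow, map_mul, map_pow, map_pow, vx, vP] at h1
    have h2 : W.valuation w ^ m = (W.valuation t ^ a * W.valuation y ^ b) ^ m := by
      rw [h1, mul_pow, ← pow_mul, ← pow_mul, ← pow_mul, ← pow_mul]
      congr 2
      · ring
      · rw [hm1]; ring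
    exact (pow_left_inj₀ zero_le zero_le hm0).1 h2
  have hgF : ∀ s ∈ F, s ∈ geom F := fun s hs => (le_sup_left : F ≤ geom F) hs
  obtain ⟨π, hπ0, hval, hcase⟩ := uni_M htr (alg_over halg _ hxt) Q hP
    (by rw [hdeg, hm1]; exact ⟨P.natDegree * ℓ ^ (j - 1), by ring⟩)
    (by rw [hdeg]; exact Nat.mul_pos hP0 (Nat.pos_of_ne_zero hm0)) hyQ W hWκ hWt
  have hcop : ∀ {n : ℕ}, ¬ ℓ ∣ n → ∀ i : ℕ, ∃ u v : ℤ, u * n + v * (ℓ ^ i : ℕ) = 1 := by
    intro n hn i
    have h1 : Nat.Coprime n (ℓ ^ i) := Nat.Coprime.pow_right _ ((hp.coprime_iff_not_dvd.2 hn).symm)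
    exact Nat.isCoprime_iff_coprime.2 h1
  suffices h : ∃ π' ∈ geom F, π' ≠ 0 ∧ W.valuation π = W.valuation π' by
    obtain ⟨π', h2, h3, h4⟩ := h
    obtain ⟨n, hn⟩ := hval z hz hz0
    have h5 : IsU W (z / π' ^ n) := by
      rw [isU_iff, map_div₀, map_zpow₀, ← h4, hn, div_self]
      exact zpow_ne_zero _ ((_root_.map_ne_zero _).2 hπ0)
    exact ⟨π' ^ n, zpow_mem h2 n, zpow_ne_zero _ h3, h5.2.1, h5.2.2⟩
  rcases hcase with ⟨e, he, hte, hπy⟩ | ⟨a₀, hta, hπa⟩ | ⟨hvt, hπt⟩
  · -- `t` is near a root of `Q`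
    have he0 : e ≠ 0 := by
      rintro rfl
      rw [eval_map, hQdef, eval₂_at_zero, coeff_expand (Nat.pos_of_ne_zero hm0)] at he
      simp only [dvd_zero, if_true, Nat.zero_div] at he
      rw [coeff_zero_eq_eval_zero] at he
      exact hP00 ((map_eq_zero _).1 he)
    have hvt : W.valuation t = 1 := by
      have h1 := val_near (κ := algebraicClosure k Ω) W hWκ X e hte (by rwa [eval_X])
      rwa [aeval_X] at h1
    obtain ⟨u, v, huv⟩ := hcop hb 1
    rw [pow_one] at huv
    refine ⟨w ^ u * (aeval x P) ^ v, hgF _ (mul_mem (zpow_mem hwF _) (zpow_mem hPF _)),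
      mul_ne_zero (zpow_ne_zero _ hw0) (zpow_ne_zero _ hPx0), ?_⟩
    rw [hπy, map_mul, map_zpow₀, map_zpow₀, vw, vP, hvt, one_pow, one_mul, ← zpow_natCast,
      ← zpow_natCast, ← zpow_mul, ← zpow_mul, ← zpow_add₀ vy0]
    have h1 : (b : ℤ) * u + ℓ * v = 1 := by rw [← huv]; ring
    rw [h1, zpow_one]
  · by_cases ha0 : a₀ = 0
    · -- `t = 0`
      rw [ha0] at hta hπa
      have h0 : ((0 : algebraicClosure k Ω) : Ω) = 0 := rfl
      rw [h0, sub_zero] at hta hπa
      have hvP : W.valuation (aeval x P) = 1 := by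
        refine val_near W hW P 0 ?_ hP00
        rw [map_zero, sub_zero, vx]
        exact pow_lt_one₀ zero_le hta hm0
      have hvy : W.valuation y = 1 := by
        rw [vP] at hvP
        exact (pow_eq_one_iff_of_nonneg zero_le hℓ0).1 hvP
      obtain ⟨u, v, huv⟩ := hcop ha j
      refine ⟨w ^ u * x ^ v, hgF _ (mul_mem (zpow_mem hwF _) (zpow_mem hxF _)),
        mul_ne_zero (zpow_ne_zero _ hw0) (zpow_ne_zero _ hx0), ?_⟩
      rw [hπa, map_mul, map_zpow₀, map_zpow₀, vw, vx, hvy, one_pow, mul_one, ← zpow_natCast,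
        ← zpow_natCast, ← zpow_mul, ← zpow_mul, ← zpow_add₀ vt0]
      have h1 : (a : ℤ) * u + m * v = 1 := by rw [← huv]; ring
      rw [h1, zpow_one]
    · -- `t = a₀ ≠ 0`
      have h1 : (X : (algebraicClosure k Ω)[X]) ^ m - C a₀ ^ m =
          (∑ i ∈ Finset.range m, X ^ i * C a₀ ^ (m - 1 - i)) * (X - C a₀) :=
        (Commute.geom_sum₂_mul (Commute.all _ _) m).symm
      have h2 : W.valuation (aeval t (∑ i ∈ Finset.range m,
          (X : (algebraicClosure k Ω)[X]) ^ i * C a₀ ^ (m - 1 - i))) = 1 := by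
        refine val_near (κ := algebraicClosure k Ω) W hWκ _ a₀ hta ?_
        rw [eval_finsetSum]
        have h3 : ∀ i ∈ Finset.range m, ((X : (algebraicClosure k Ω)[X]) ^ i *
            C a₀ ^ (m - 1 - i)).eval a₀ = a₀ ^ (m - 1) := by
          intro i hi
          rw [Finset.mem_range] at hi
          rw [eval_mul, eval_pow, eval_pow, eval_X, eval_C, ← pow_add]
          congr 1
          omega
        rw [Finset.sum_congr rfl h3, Finset.sum_const, Finset.card_range, nsmul_eq_mul]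
        exact mul_ne_zero (Nat.cast_ne_zero.2 hm0) (pow_ne_zero _ ha0)
      have h3 : x - (a₀ : Ω) ^ m = aeval t (∑ i ∈ Finset.range m,
          (X : (algebraicClosure k Ω)[X]) ^ i * C a₀ ^ (m - 1 - i)) * (t - (a₀ : Ω)) := by
        have h4 := congrArg (aeval t) h1
        rw [map_mul, map_sub, map_sub, map_pow, map_pow, aeval_X, aeval_C, ht] at h4
        exact h4
      have h4 : W.valuation π = W.valuation (x - (a₀ : Ω) ^ m) := by
        rw [h3, map_mul, h2, one_mul, hπa]
      refine ⟨x - (a₀ : Ω) ^ m, sub_mem (hgF _ hxF) (pow_mem (const_mem_geom F a₀) _), ?_, h4⟩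
      intro h5
      rw [h5, map_zero] at h4
      exact hπ0 ((map_eq_zero _).1 h4)
  · -- `t = ∞`
    have hvx : 1 < W.valuation x := by
      rw [vx]
      exact one_lt_pow₀ hvt hm0
    have h1 := val_far W hW P hPne hvx
    have hvy : W.valuation y = W.valuation t ^ (P.natDegree * ℓ ^ (j - 1)) := by
      have h2 : W.valuation y ^ ℓ = (W.valuation t ^ (P.natDegree * ℓ ^ (j - 1))) ^ ℓ := by
        rw [← vP, h1, vx, ← pow_mul, ← pow_mul]
        congr 1
        rw [hm1]; ring
      exact (pow_left_inj₀ zero_le zero_le hℓ0).1 h2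
    obtain ⟨u, v, huv⟩ := hcop hab j
    refine ⟨(w ^ u * x ^ v)⁻¹, hgF _ (inv_mem (mul_mem (zpow_mem hwF _) (zpow_mem hxF _))),
      inv_ne_zero (mul_ne_zero (zpow_ne_zero _ hw0) (zpow_ne_zero _ hx0)), ?_⟩
    rw [hπt, map_inv₀, map_inv₀, map_mul, map_zpow₀, map_zpow₀, vw, vx, hvy, ← pow_mul, ← pow_add,
      ← zpow_natCast, ← zpow_natCast, ← zpow_mul, ← zpow_mul, ← zpow_add₀ vt0]
    have h2 : ((a + P.natDegree * ℓ ^ (j - 1) * b : ℕ) : ℤ) * u + m * v = 1 := by
      rw [← huv, hm]; push_cast; ring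
    rw [h2, zpow_one]

end

end Pool.Agent.H71MX
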